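import Pool.Agent.LibCycU.Defs

/-!
MP_bc5690_co, finiteness for `f` odd: definitions. `N` is a prime, `p` an integer of odd order `f` modulo `N`.
-/

set_option autoImplicit false

open Finset

namespace Pool.Agent.LibNF95

open Pool.Agent.CycU

/-- the sawtooth: the least absolute residue divided by `N` -/
noncomputable def g {N : ℕ} (x : ZMod N) : ℝ := (x.valMinAbs : ℝ) / N

/-- the sum of the sawtooth over `s, p s, …, p^(f-1) s` -/
noncomputable def T (p N f : ℕ) (s : ZMod N) : ℝ := ∑ i ∈ range f, g ((p : ZMod N) ^ i * s)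

/-- the character sum of the sawtooth -/
noncomputable def bb {N : ℕ} [NeZero N] (χ : DirichletCharacter ℂ N) : ℂ :=
  ∑ x : ZMod N, χ x * ((g x : ℝ) : ℂ)

/-- the generalized Bernoulli number -/
noncomputable def B1 {N : ℕ} [NeZero N] (χ : DirichletCharacter ℂ N) : ℂ :=
  ∑ x : ZMod N, χ x * ((x.val : ℂ) / N)

/-- the quadratic character, complex valued -/
noncomputable def psi (N : ℕ) [Fact N.Prime] : DirichletCharacter ℂ N :=
  (quadraticChar (ZMod N)).ringHomComp (Int.castRingHom ℂ)

theorem T_eq (p N f : ℕ) (s : ZMod N) : T p N f s = (W p N f s : ℝ) / N := by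
  unfold T W g
  rw [← Finset.sum_div]
  push_cast
  rfl

end Pool.Agent.LibNF95
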