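import Mathlib

/-!
ROW E1 (SHORT/MEDIUM). The numerical end (real inequalities only).

PLAN. `m² = c² N^(7/8)`. (3): `f c² N^(7/8) ≤ w f 2 √N (4 + log N)`, `0 < f`: `c² N^(3/8) ≤ 2 w (4 + log N) ≤ 4 log(N+1) (4 + log N)`. (5): from the
first bound `f ≤ w² N^(1/8) / c²`, from the second `c² N^(7/8) ≤ f √N (1 + log N)²`, so `c⁴ N^(1/4) ≤ w² (1 + log N)²`. Both fail for large `N`
(`isLittleO_log_rpow_atTop`). Choose `N₀` as the maximum of the two thresholds.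
-/

set_option autoImplicit false

namespace Pool.Agent.LibNF95

private theorem E1_real (c : ℝ) (hc : 0 < c) : ∃ N₀ : ℕ, 1 ≤ N₀ ∧ ∀ N : ℕ, N₀ ≤ N →
    4 + Real.log N < c / 2 * (N : ℝ) ^ (1 / 16 : ℝ) := by
  have h1 : ∀ᶠ x : ℝ in Filter.atTop, Real.log x ≤ c / 4 * x ^ (1 / 16 : ℝ) := by
    have h := (isLittleO_log_rpow_atTop (show (0 : ℝ) < 1 / 16 by norm_num)).bound
      (show (0 : ℝ) < c / 4 by positivity)
    filter_upwards [h, Filter.eventually_ge_atTop (0 : ℝ)] with x hx hx0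
    refine (le_abs_self _).trans (hx.trans ?_)
    rw [Real.norm_eq_abs, abs_of_nonneg (Real.rpow_nonneg hx0 _)]
  have h2 : ∀ᶠ x : ℝ in Filter.atTop, 16 / c < x ^ (1 / 16 : ℝ) :=
    (tendsto_rpow_atTop (show (0 : ℝ) < 1 / 16 by norm_num)).eventually_gt_atTop _
  have h3 := tendsto_natCast_atTop_atTop (R := ℝ) |>.eventually (h1.and h2)
  obtain ⟨N₀, hN₀⟩ := Filter.eventually_atTop.1 h3
  refine ⟨max N₀ 1, le_max_right _ _, fun N hN => ?_⟩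
  obtain ⟨h4, h5⟩ := hN₀ N ((le_max_left _ _).trans hN)
  rw [div_lt_iff₀ hc] at h5
  nlinarith

theorem numeric (c : ℝ) (hc : 0 < c) : ∃ N₀ : ℕ, ∀ N : ℕ, N₀ ≤ N → ∀ f w : ℝ, 0 < f → 0 ≤ w →
    w ≤ 2 * Real.log ((N : ℝ) + 1) →
    (¬ f * (c * (N : ℝ) ^ (7 / 16 : ℝ)) ^ 2 ≤ w * (f * (2 * (√N * (4 + Real.log N))))) ∧
    ¬ (f * (c * (N : ℝ) ^ (7 / 16 : ℝ)) ^ 2 ≤ w ^ 2 * N ∧
      f * (c * (N : ℝ) ^ (7 / 16 : ℝ)) ^ 2 ≤ f ^ 2 * (√N * (1 + Real.log N) ^ 2)) := by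
  obtain ⟨N₀, hN₀1, hN₀⟩ := E1_real c hc
  refine ⟨N₀, fun N hN f w hf hw0 hw => ?_⟩
  have hN1 : (1 : ℝ) ≤ N := by exact_mod_cast hN₀1.trans hN
  have hL := hN₀ N hN
  have hL0 : 0 ≤ Real.log N := Real.log_nonneg hN1
  have hlog : Real.log ((N : ℝ) + 1) ≤ 1 + Real.log N := by
    have h1 : Real.log ((N : ℝ) + 1) ≤ Real.log (2 * N) :=
      Real.log_le_log (by linarith) (by linarith)
    rw [Real.log_mul (by norm_num) (by linarith)] at h1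
    have h2 : Real.log 2 ≤ 1 := by
      have := Real.log_two_lt_d9
      linarith
    linarith
  have hw' : w ≤ 2 * (1 + Real.log N) := by linarith
  generalize Real.log N = L at hL hL0 hw'
  set y : ℝ := (N : ℝ) ^ (1 / 16 : ℝ) with hy
  have hy1 : 1 ≤ y := Real.one_le_rpow hN1 (by norm_num)
  have hyp : 0 < y := by linarith
  have e7 : (N : ℝ) ^ (7 / 16 : ℝ) = y ^ 7 := by
    rw [hy, ← Real.rpow_natCast, ← Real.rpow_mul (by linarith)]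
    norm_num
  have e16 : (N : ℝ) = y ^ 16 := by
    rw [hy, ← Real.rpow_natCast, ← Real.rpow_mul (by linarith)]
    norm_num
  have e8 : √(N : ℝ) = y ^ 8 := by
    have : y ^ 16 = (y ^ 8) ^ 2 := by ring
    rw [e16, this, Real.sqrt_sq (by positivity)]
  have h4L : 0 ≤ 4 + L := by linarith
  have hsq : (4 + L) ^ 2 < (c / 2 * y) ^ 2 := pow_lt_pow_left₀ hL h4L (by norm_num)
  have hcy : 0 < c / 2 * y := by positivity
  have hy4 : 1 ≤ y ^ 4 := one_le_pow₀ hy1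
  rw [e7, e8]
  constructor
  · intro h
    have h1 : (f * y ^ 8) * (c ^ 2 * y ^ 6) ≤ (f * y ^ 8) * (2 * w * (4 + L)) := by
      have e1 : f * (c * y ^ 7) ^ 2 = (f * y ^ 8) * (c ^ 2 * y ^ 6) := by ring
      have e2 : w * (f * (2 * (y ^ 8 * (4 + L)))) = (f * y ^ 8) * (2 * w * (4 + L)) := by ring
      rw [← e1, ← e2]; exact h
    have h2 : c ^ 2 * y ^ 6 ≤ 2 * w * (4 + L) := le_of_mul_le_mul_left h1 (by positivity)
    have h3 : 2 * w * (4 + L) ≤ 4 * (4 + L) ^ 2 := by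
      have : 2 * w ≤ 4 * (4 + L) := by linarith
      calc 2 * w * (4 + L) ≤ 4 * (4 + L) * (4 + L) := mul_le_mul_of_nonneg_right this h4L
        _ = 4 * (4 + L) ^ 2 := by ring
    have h5 : c ^ 2 * y ^ 2 ≤ c ^ 2 * y ^ 6 := by
      have : c ^ 2 * y ^ 6 = (c ^ 2 * y ^ 2) * y ^ 4 := by ring
      rw [this]
      exact le_mul_of_one_le_right (by positivity) hy4
    have h6 : (c / 2 * y) ^ 2 = c ^ 2 * y ^ 2 / 4 := by ring
    rw [h6] at hsq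
    linarith
  · rintro ⟨ha, hb⟩
    have ha' : f * c ^ 2 ≤ w ^ 2 * y ^ 2 := by
      have h1 : (f * c ^ 2) * y ^ 14 ≤ (w ^ 2 * y ^ 2) * y ^ 14 := by
        have e1 : f * (c * y ^ 7) ^ 2 = (f * c ^ 2) * y ^ 14 := by ring
        have e2 : w ^ 2 * (N : ℝ) = (w ^ 2 * y ^ 2) * y ^ 14 := by rw [e16]; ring
        rw [← e1, ← e2]; exact ha
      exact le_of_mul_le_mul_right h1 (by positivity)
    have hb' : c ^ 2 * y ^ 6 ≤ f * (1 + L) ^ 2 := by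
      have h1 : (f * y ^ 8) * (c ^ 2 * y ^ 6) ≤ (f * y ^ 8) * (f * (1 + L) ^ 2) := by
        have e1 : f * (c * y ^ 7) ^ 2 = (f * y ^ 8) * (c ^ 2 * y ^ 6) := by ring
        have e2 : f ^ 2 * (y ^ 8 * (1 + L) ^ 2) = (f * y ^ 8) * (f * (1 + L) ^ 2) := by ring
        rw [← e1, ← e2]; exact hb
      exact le_of_mul_le_mul_left h1 (by positivity)
    have h1L : 0 ≤ 1 + L := by linarith
    have hc2 : 0 < c ^ 2 := by positivity
    have h1 : c ^ 2 * (c ^ 2 * y ^ 6) ≤ (w ^ 2 * y ^ 2) * (1 + L) ^ 2 := by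
      calc c ^ 2 * (c ^ 2 * y ^ 6) ≤ c ^ 2 * (f * (1 + L) ^ 2) := mul_le_mul_of_nonneg_left hb' hc2.le
        _ = (f * c ^ 2) * (1 + L) ^ 2 := by ring
        _ ≤ (w ^ 2 * y ^ 2) * (1 + L) ^ 2 := mul_le_mul_of_nonneg_right ha' (by positivity)
    have hw2 : w ^ 2 ≤ 4 * (4 + L) ^ 2 := by
      have h3 : w ≤ 2 * (4 + L) := by linarith
      have h4 := pow_le_pow_left₀ hw0 h3 2
      calc w ^ 2 ≤ (2 * (4 + L)) ^ 2 := h4
        _ = 4 * (4 + L) ^ 2 := by ring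
    have hL2 : (1 + L) ^ 2 ≤ (4 + L) ^ 2 := pow_le_pow_left₀ h1L (by linarith) 2
    have h2 : (w ^ 2 * y ^ 2) * (1 + L) ^ 2 ≤ (4 * (4 + L) ^ 2 * y ^ 2) * (4 + L) ^ 2 :=
      mul_le_mul (mul_le_mul_of_nonneg_right hw2 (by positivity)) hL2 (by positivity) (by positivity)
    have h3 : (4 + L) ^ 2 * (4 + L) ^ 2 < (c / 2 * y) ^ 2 * (c / 2 * y) ^ 2 :=
      mul_lt_mul'' hsq hsq (by positivity) (by positivity)
    have h4 : (4 * (4 + L) ^ 2 * y ^ 2) * (4 + L) ^ 2 < 4 * y ^ 2 * ((c / 2 * y) ^ 2 * (c / 2 * y) ^ 2) := by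
      have e : (4 * (4 + L) ^ 2 * y ^ 2) * (4 + L) ^ 2 = 4 * y ^ 2 * ((4 + L) ^ 2 * (4 + L) ^ 2) := by
        ring
      rw [e]
      exact mul_lt_mul_of_pos_left h3 (by positivity)
    have h5 : 4 * y ^ 2 * ((c / 2 * y) ^ 2 * (c / 2 * y) ^ 2) = c ^ 2 * (c ^ 2 * y ^ 6) / 4 := by ring
    rw [h5] at h4
    have h6 : 0 < c ^ 2 * (c ^ 2 * y ^ 6) := by positivity
    linarith

end Pool.Agent.LibNF95
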