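import Pool.Agent.LibNF95.Defs
import Pool.Agent.LibCycU.O7

/-!
ROW E2 (SHORT/MEDIUM). From the criterion `Crit` (LibCycU/O7.lean: for `u ≠ 0`: `(if quadraticChar u = ε then -(wN N) else 0) ≤ W u`) to the
hypotheses of U3.

PLAN. `T = W / N` (`T_eq`), `W (-u) = - W u` (`valMinAbs` is odd, `N` odd: `ZMod.valMinAbs_neg_of_ne_half`), `W 0 = 0`.
`N ≡ 3 mod 4`: `quadraticChar (-u) = - quadraticChar u`: for `χ(u) = -ε`: `0 ≤ W u` and (from `-u`) `-w N ≤ W(-u) = -W u`; for `χ(u) = ε`: `-w N ≤ W u ≤ 0`.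
So `|T u| ≤ w` and `(-ε) χ(u) T u = |T u|`. `N ≡ 1 mod 4`: `χ(-u) = χ(u)`: for `χ(u) = -ε`: `0 ≤ W u` and `0 ≤ -W u`, so `T u = 0`; for `χ(u) = ε`: `|W u| ≤ w N`.
`w_le`: `p^w ∣ N + 1` or `N - 1` (nonzero since `N ≥ 3`), so `2^w ≤ p^w ≤ N + 1`, `w log 2 ≤ log (N + 1)`, `log 2 ≥ 1/2`.
`p_le`: `w ≠ 0` gives `p ∣ N ± 1`, so `p ≤ N + 1`.
-/

set_option autoImplicit false

open Finset

namespace Pool.Agent.LibNF95

open Pool.Agent.CycU

private theorem E2_W_neg {p N f : ℕ} [Fact N.Prime] (hN : N % 2 = 1) (s : ZMod N) :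
    W p N f (-s) = - W p N f s := by
  unfold W
  rw [← Finset.sum_neg_distrib]
  refine Finset.sum_congr rfl fun i _ => ?_
  rw [mul_neg]
  exact ZMod.valMinAbs_neg_of_ne_half (by omega)

private theorem E2_chi_neg_three {N : ℕ} [Fact N.Prime] (hN : N % 4 = 3) (s : ZMod N) :
    quadraticChar (ZMod N) (-s) = - quadraticChar (ZMod N) s := by
  have h2 : ringChar (ZMod N) ≠ 2 := by
    rw [ZMod.ringChar_zmod_n]; omega
  have h : quadraticChar (ZMod N) (-1) = -1 := by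
    rw [quadraticChar_neg_one h2, ZMod.card, ZMod.χ₄_nat_three_mod_four hN]
  rw [← neg_one_mul, map_mul, h]; ring

private theorem E2_chi_neg_one {N : ℕ} [Fact N.Prime] (hN : N % 4 = 1) (s : ZMod N) :
    quadraticChar (ZMod N) (-s) = quadraticChar (ZMod N) s := by
  have h2 : ringChar (ZMod N) ≠ 2 := by
    rw [ZMod.ringChar_zmod_n]; omega
  have h : quadraticChar (ZMod N) (-1) = 1 := by
    rw [quadraticChar_neg_one h2, ZMod.card, ZMod.χ₄_nat_one_mod_four hN]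
  rw [← neg_one_mul, map_mul, h]; ring

private theorem E2_T_zero {p N f : ℕ} [Fact N.Prime] : T p N f (0 : ZMod N) = 0 := by
  rw [T_eq, W_zero]; simp

/-- for a nonzero residue: bounds of `T` from bounds of `W` -/
private theorem E2_T_le {p N f : ℕ} [Fact N.Prime] {s : ZMod N} {w : ℕ}
    (h : W p N f s ≤ (w : ℤ) * N) : T p N f s ≤ w := by
  have hN0 : (0 : ℝ) < N := by exact_mod_cast (Fact.out : N.Prime).pos
  rw [T_eq, div_le_iff₀ hN0]
  exact_mod_cast h

private theorem E2_le_T {p N f : ℕ} [Fact N.Prime] {s : ZMod N} {w : ℕ}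
    (h : -((w : ℤ) * N) ≤ W p N f s) : -(w : ℝ) ≤ T p N f s := by
  have hN0 : (0 : ℝ) < N := by exact_mod_cast (Fact.out : N.Prime).pos
  rw [T_eq, le_div_iff₀ hN0]
  have h' : ((-((w : ℤ) * N) : ℤ) : ℝ) ≤ ((W p N f s : ℤ) : ℝ) := by exact_mod_cast h
  push_cast at h'
  linarith

private theorem E2_T_nonneg {p N f : ℕ} [Fact N.Prime] {s : ZMod N}
    (h : 0 ≤ W p N f s) : 0 ≤ T p N f s := by
  rw [T_eq]
  have h' : (0 : ℝ) ≤ ((W p N f s : ℤ) : ℝ) := by exact_mod_cast h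
  positivity

private theorem E2_T_nonpos {p N f : ℕ} [Fact N.Prime] {s : ZMod N}
    (h : W p N f s ≤ 0) : T p N f s ≤ 0 := by
  rw [T_eq]
  have h' : ((W p N f s : ℤ) : ℝ) ≤ 0 := by exact_mod_cast h
  exact div_nonpos_of_nonpos_of_nonneg h' (Nat.cast_nonneg _)

theorem crit_three {p N f : ℕ} [Fact N.Prime] (hN : N % 4 = 3) (ε : ℤ) (hε : ε = 1 ∨ ε = -1) (h : Crit p N f ε) :
    (∀ s : ZMod N, |T p N f s| ≤ (wN p N : ℝ)) ∧
      ∀ s : ZMod N, ((-ε : ℤ) : ℝ) * ((quadraticChar (ZMod N) s : ℝ) * T p N f s) = |T p N f s| := by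
  have hodd : N % 2 = 1 := by omega
  have key : ∀ s : ZMod N, s ≠ 0 →
      (quadraticChar (ZMod N) s = ε ∧ -((wN p N : ℤ) * N) ≤ W p N f s ∧ W p N f s ≤ 0) ∨
      (quadraticChar (ZMod N) s = -ε ∧ 0 ≤ W p N f s ∧ W p N f s ≤ (wN p N : ℤ) * N) := by
    intro s hs
    have h1 := h s hs
    have h2 := h (-s) (neg_ne_zero.2 hs)
    rw [E2_W_neg hodd, E2_chi_neg_three hN] at h2
    have hd := quadraticChar_dichotomy hs
    by_cases hc : quadraticChar (ZMod N) s = ε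
    · left
      rw [if_pos hc] at h1
      have hne : ¬ (- quadraticChar (ZMod N) s = ε) := by
        rcases hε with h' | h' <;> rcases hd with h'' | h'' <;> omega
      rw [if_neg hne] at h2
      exact ⟨hc, h1, by linarith⟩
    · right
      have hc' : quadraticChar (ZMod N) s = -ε := by
        rcases hε with h' | h' <;> rcases hd with h'' | h'' <;> omega
      rw [if_neg hc] at h1
      have hpos : - quadraticChar (ZMod N) s = ε := by rw [hc']; ring
      rw [if_pos hpos] at h2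
      exact ⟨hc', h1, by linarith⟩
  have hεε : (ε : ℝ) * ε = 1 := by
    rcases hε with h' | h' <;> rw [h'] <;> norm_num
  constructor
  · intro s
    by_cases hs : s = 0
    · rw [hs, E2_T_zero]; simp
    · rw [abs_le]
      have hw : (0 : ℝ) ≤ (wN p N : ℝ) := Nat.cast_nonneg _
      rcases key s hs with ⟨_, h1, h2⟩ | ⟨_, h1, h2⟩
      · exact ⟨E2_le_T h1, (E2_T_nonpos h2).trans hw⟩
      · exact ⟨by have := E2_T_nonneg h1; linarith, E2_T_le h2⟩
  · intro s
    by_cases hs : s = 0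
    · rw [hs, E2_T_zero]; simp
    · rcases key s hs with ⟨hc, h1, h2⟩ | ⟨hc, h1, h2⟩
      · rw [hc, abs_of_nonpos (E2_T_nonpos h2)]
        push_cast
        linear_combination (-(T p N f s)) * hεε
      · rw [hc, abs_of_nonneg (E2_T_nonneg h1)]
        push_cast
        linear_combination (T p N f s) * hεε

theorem crit_one {p N f : ℕ} [Fact N.Prime] (hN : N % 4 = 1) (ε : ℤ) (hε : ε = 1 ∨ ε = -1) (h : Crit p N f ε) :
    (∀ s : ZMod N, |T p N f s| ≤ (wN p N : ℝ)) ∧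
      ∀ s : ZMod N, (quadraticChar (ZMod N) s : ℝ) * T p N f s = (ε : ℝ) * T p N f s := by
  have hodd : N % 2 = 1 := by omega
  have key : ∀ s : ZMod N, s ≠ 0 →
      (quadraticChar (ZMod N) s = ε ∧ -((wN p N : ℤ) * N) ≤ W p N f s ∧
        W p N f s ≤ (wN p N : ℤ) * N) ∨ W p N f s = 0 := by
    intro s hs
    have h1 := h s hs
    have h2 := h (-s) (neg_ne_zero.2 hs)
    rw [E2_W_neg hodd, E2_chi_neg_one hN] at h2
    by_cases hc : quadraticChar (ZMod N) s = ε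
    · left
      rw [if_pos hc] at h1 h2
      exact ⟨hc, h1, by linarith⟩
    · right
      rw [if_neg hc] at h1 h2
      linarith
  constructor
  · intro s
    have hw : (0 : ℝ) ≤ (wN p N : ℝ) := Nat.cast_nonneg _
    by_cases hs : s = 0
    · rw [hs, E2_T_zero]; simp
    · rcases key s hs with ⟨_, h1, h2⟩ | h0
      · rw [abs_le]
        exact ⟨E2_le_T h1, E2_T_le h2⟩
      · rw [T_eq, h0]; simp
  · intro s
    by_cases hs : s = 0
    · rw [hs, E2_T_zero]; simp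
    · rcases key s hs with ⟨hc, _, _⟩ | h0
      · rw [hc]
      · rw [T_eq, h0]; simp

private theorem E2_dvd {p N : ℕ} [Fact p.Prime] (hN : 3 ≤ N) :
    p ^ wN p N ≤ N + 1 := by
  unfold wN
  split_ifs with h
  · exact Nat.le_of_dvd (by omega) pow_padicValNat_dvd
  · exact (Nat.le_of_dvd (by omega) pow_padicValNat_dvd).trans (by omega)

theorem w_le {p N : ℕ} [Fact p.Prime] (hN : 3 ≤ N) : (wN p N : ℝ) ≤ 2 * Real.log ((N : ℝ) + 1) := by
  have hp2 : 2 ≤ p := (Fact.out : p.Prime).two_le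
  have h1 : 2 ^ wN p N ≤ N + 1 := (Nat.pow_le_pow_left hp2 _).trans (E2_dvd hN)
  have h2 : ((2 : ℝ) ^ wN p N) ≤ (N : ℝ) + 1 := by exact_mod_cast h1
  have h3 : (wN p N : ℝ) * Real.log 2 ≤ Real.log ((N : ℝ) + 1) := by
    rw [← Real.log_pow]
    exact Real.log_le_log (by positivity) h2
  have h4 : (1 / 2 : ℝ) ≤ Real.log 2 := by
    have := Real.log_two_gt_d9
    linarith
  have h5 : (0 : ℝ) ≤ (wN p N : ℝ) := Nat.cast_nonneg _
  nlinarith

theorem p_le {p N : ℕ} [Fact p.Prime] (hN : 3 ≤ N) (hw : wN p N ≠ 0) : p ≤ N + 1 := by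
  have h1 := E2_dvd (p := p) hN
  have h2 : p ^ 1 ≤ p ^ wN p N :=
    Nat.pow_le_pow_right (Fact.out : p.Prime).pos (Nat.one_le_iff_ne_zero.2 hw)
  rw [pow_one] at h2
  exact h2.trans h1

end Pool.Agent.LibNF95
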