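import Pool.Agent.LibNF95.G1
import Pool.Agent.LibSW40.S9

/-!
ROW G2 (SHORT). Lower bound for `|L(1, χ)|` for all non-trivial characters modulo a prime (cites G1; Siegel's theorem
`Pool.Agent.LibSW40.siegel_one` for `χ² = 1`: `χ ≠ 1` modulo a prime is primitive (conductor divides `N` and is not `1`), `re ≤ ‖ ‖`).
`L_one_upper` is `Pool.Agent.LibSW40.L_one_le`.
-/

set_option autoImplicit false

open Finset Complex DirichletCharacter

namespace Pool.Agent.LibNF95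

theorem isPrimitive_of_prime {N : ℕ} [Fact N.Prime] {χ : DirichletCharacter ℂ N} (hχ : χ ≠ 1) :
    χ.IsPrimitive := by
  rw [isPrimitive_def]
  rcases (Nat.dvd_prime (Fact.out : N.Prime)).1 (conductor_dvd_level χ) with h | h
  · exact absurd (eq_one_iff_conductor_eq_one.2 h) hχ
  · exact h

theorem L_one_lower (ε : ℝ) (hε : 0 < ε) : ∃ c : ℝ, 0 < c ∧ ∀ (N : ℕ) [Fact N.Prime]
    (χ : DirichletCharacter ℂ N), χ ≠ 1 → c * (N : ℝ) ^ (-ε) ≤ ‖LFunction χ 1‖ := by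
  obtain ⟨c₁, hc₁, h₁⟩ := L_one_complex ε hε
  obtain ⟨c₂, hc₂, h₂⟩ := Pool.Agent.LibSW40.siegel_one ε hε
  refine ⟨min c₁ c₂, lt_min hc₁ hc₂, fun N _ χ hχ => ?_⟩
  have hp : (0 : ℝ) ≤ (N : ℝ) ^ (-ε) := Real.rpow_nonneg (Nat.cast_nonneg N) _
  by_cases h2 : χ ^ 2 = 1
  · exact ((mul_le_mul_of_nonneg_right (min_le_right c₁ c₂) hp).trans
      (h₂ N χ (isPrimitive_of_prime hχ) hχ h2)).trans (Complex.re_le_norm _)
  · exact (mul_le_mul_of_nonneg_right (min_le_left c₁ c₂) hp).trans (h₁ N χ h2)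

end Pool.Agent.LibNF95
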