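import Pool.Agent.LibNF95.Defs
import Pool.Agent.LibCycU.P2

/-!
ROW F3 (SHORT). The character sum of the sawtooth.

PLAN. `x.valMinAbs = (2 * x).val - x.val` (`Pool.Agent.CycU.W_eq_L` with `f = 1`; its hypotheses: see LibCycU/P2.lean),
and `∑_x χ x (2 x).val = χ⁻¹ 2 ∑_y χ y y.val` (substitution `y = 2 x`, `2` is a unit since `N ≠ 2`).
`‖χ⁻¹ 2 - 1‖ = ‖1 - χ 2‖` because `‖χ 2‖ = 1`.
-/

set_option autoImplicit false

open Finset Complex DirichletCharacter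

namespace Pool.Agent.LibNF95

private theorem F3_two {N : ℕ} [Fact N.Prime] (hN : N ≠ 2) : (2 : ZMod N) ≠ 0 :=
  Ring.two_ne_zero (by rwa [ZMod.ringChar_zmod_n])

private theorem F3_inv {N : ℕ} [Fact N.Prime] (hN : N ≠ 2) (χ : DirichletCharacter ℂ N) :
    χ⁻¹ 2 * χ 2 = 1 := by
  have hu : IsUnit (2 : ZMod N) := (F3_two hN).isUnit
  rw [← MulChar.mul_apply, inv_mul_cancel, MulChar.one_apply hu]

private theorem F3_g {N : ℕ} [Fact N.Prime] (hN : N ≠ 2) (x : ZMod N) :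
    ((g x : ℝ) : ℂ) = ((2 * x).val : ℂ) / N - (x.val : ℂ) / N := by
  have h1 := Pool.Agent.CycU.W_eq_L (p := 1) (f := 1) hN x
  simp only [Pool.Agent.CycU.W, Pool.Agent.CycU.L, Finset.sum_range_one, pow_zero, one_mul] at h1
  unfold g
  rw [h1]
  push_cast
  ring

theorem bb_eq {N : ℕ} [Fact N.Prime] (hN : N ≠ 2) (χ : DirichletCharacter ℂ N) :
    bb χ = (χ⁻¹ 2 - 1) * B1 χ := by
  have h2 := F3_two hN
  have h3 := F3_inv hN χ
  have e1 : bb χ = ∑ x : ZMod N, χ x * (((2 * x).val : ℂ) / N) - B1 χ := by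
    unfold bb B1
    rw [← Finset.sum_sub_distrib]
    refine Finset.sum_congr rfl fun x _ => ?_
    rw [F3_g hN x]
    ring
  have e2 : ∑ x : ZMod N, χ x * (((2 * x).val : ℂ) / N) = χ⁻¹ 2 * B1 χ := by
    unfold B1
    rw [Finset.mul_sum]
    refine Finset.sum_equiv (Equiv.mulLeft₀ (2 : ZMod N) h2) (by simp) fun x _ => ?_
    simp only [Equiv.mulLeft₀_apply, map_mul]
    calc χ x * (((2 * x).val : ℂ) / N) = (χ⁻¹ 2 * χ 2) * (χ x * (((2 * x).val : ℂ) / N)) := by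
          rw [h3, one_mul]
      _ = _ := by ring
  rw [e1, e2]
  ring

theorem norm_bb {N : ℕ} [Fact N.Prime] (hN : N ≠ 2) (χ : DirichletCharacter ℂ N) :
    ‖bb χ‖ = ‖1 - χ 2‖ * ‖B1 χ‖ := by
  rw [bb_eq hN, norm_mul]
  congr 1
  have hu : IsUnit (2 : ZMod N) := (F3_two hN).isUnit
  have h1 : ‖χ 2‖ = 1 := by
    have := χ.unit_norm_eq_one hu.unit
    rwa [IsUnit.unit_spec] at this
  have h3 := F3_inv hN χ
  have h4 : (χ⁻¹ 2 - 1) * χ 2 = 1 - χ 2 := by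
    rw [sub_mul, h3, one_mul]
  rw [← h4, norm_mul, h1, mul_one]

end Pool.Agent.LibNF95
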