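import Pool.Agent.LibNF95.Defs

/-!
ROW P1 (SHORT/MEDIUM). Character sums of `T` and the Parseval identity.

PLAN. `sum_chi_T`: exchange the sums, substitute `x = p^i s` (`p` is a unit): `∑_i χ(p)⁻¹^i * bb χ`; `χ(p)^f = χ(p^f) = 1`, so the geometric
sum is `f` or `0`. (`(χ p)⁻¹ = χ⁻¹ p`.)
`parseval`: `‖z‖² = z * conj z`, `conj (χ s) = χ⁻¹ s = χ s⁻¹`, `∑_χ χ s χ⁻¹ t = (N - 1) [s = t]` for units
(`DirichletCharacter.sum_char_inv_mul_char_eq`), `F 0 = 0`; `φ(N) = N - 1`.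
-/

set_option autoImplicit false

open Finset Complex DirichletCharacter

namespace Pool.Agent.LibNF95

private theorem P1_shift {p N : ℕ} [Fact N.Prime] (hp : (p : ZMod N) ≠ 0)
    (χ : DirichletCharacter ℂ N) (i : ℕ) :
    ∑ s : ZMod N, χ s * ((g ((p : ZMod N) ^ i * s) : ℝ) : ℂ) =
      (χ (p : ZMod N))⁻¹ ^ i * bb χ := by
  have hu : IsUnit (p : ZMod N) := isUnit_iff_ne_zero.2 hp
  have hχ : χ (p : ZMod N) ≠ 0 := (hu.map χ).ne_zero
  have h1 : bb χ = χ (p : ZMod N) ^ i *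
      ∑ s : ZMod N, χ s * ((g ((p : ZMod N) ^ i * s) : ℝ) : ℂ) := by
    unfold bb
    rw [← Equiv.sum_comp (Equiv.mulLeft₀ ((p : ZMod N) ^ i) (pow_ne_zero i hp)), Finset.mul_sum]
    refine Finset.sum_congr rfl fun s _ => ?_
    rw [Equiv.mulLeft₀_apply, map_mul, map_pow, mul_assoc]
  rw [h1, ← mul_assoc, ← mul_pow, inv_mul_cancel₀ hχ, one_pow, one_mul]

theorem sum_chi_T {p N f : ℕ} [Fact N.Prime] (hp : (p : ZMod N) ≠ 0) (hf : (p : ZMod N) ^ f = 1)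
    (χ : DirichletCharacter ℂ N) :
    ∑ s : ZMod N, χ s * ((T p N f s : ℝ) : ℂ) = if χ (p : ZMod N) = 1 then (f : ℂ) * bb χ else 0 := by
  have h1 : ∑ s : ZMod N, χ s * ((T p N f s : ℝ) : ℂ) =
      (∑ i ∈ range f, (χ (p : ZMod N))⁻¹ ^ i) * bb χ := by
    rw [Finset.sum_mul, ← Finset.sum_congr rfl fun i _ => P1_shift hp χ i, Finset.sum_comm]
    refine Finset.sum_congr rfl fun s _ => ?_
    unfold T
    rw [Complex.ofReal_sum, Finset.mul_sum]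
  rw [h1]
  split_ifs with h
  · rw [h]
    simp
  · have h2 : (χ (p : ZMod N))⁻¹ ≠ 1 := fun h3 => h (inv_eq_one.1 h3)
    have h4 : (χ (p : ZMod N))⁻¹ ^ f = 1 := by
      rw [inv_pow, ← map_pow, hf, map_one, inv_one]
    rw [geom_sum_eq h2, h4, sub_self, zero_div, zero_mul]

theorem parseval {N : ℕ} [Fact N.Prime] (F : ZMod N → ℝ) (h0 : F 0 = 0) :
    ∑ χ : DirichletCharacter ℂ N, ‖∑ s : ZMod N, χ s * ((F s : ℝ) : ℂ)‖ ^ 2 =
      ((N : ℝ) - 1) * ∑ s : ZMod N, F s ^ 2 := by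
  have hN : Nat.Prime N := Fact.out
  have h1 : ∀ χ : DirichletCharacter ℂ N,
      (((‖∑ s : ZMod N, χ s * ((F s : ℝ) : ℂ)‖ ^ 2 : ℝ)) : ℂ) =
        ∑ t : ZMod N, ∑ s : ZMod N, (χ t⁻¹ * χ s) * (((F t : ℝ) : ℂ) * ((F s : ℝ) : ℂ)) := by
    intro χ
    rw [Complex.ofReal_pow, ← Complex.conj_mul', map_sum, Finset.sum_mul_sum]
    refine Finset.sum_congr rfl fun t _ => Finset.sum_congr rfl fun s _ => ?_
    rw [map_mul, Complex.conj_ofReal, ← Complex.star_def, MulChar.star_apply',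
      MulChar.inv_apply', mul_mul_mul_comm]
  have h2 : ∀ t : ZMod N, ∑ χ : DirichletCharacter ℂ N, ∑ s : ZMod N,
      (χ t⁻¹ * χ s) * (((F t : ℝ) : ℂ) * ((F s : ℝ) : ℂ)) =
        ((N : ℂ) - 1) * ((F t : ℝ) : ℂ) ^ 2 := by
    intro t
    by_cases ht : t = 0
    · subst ht
      rw [h0]
      simp
    · have hu : IsUnit t := isUnit_iff_ne_zero.2 ht
      rw [Finset.sum_comm]
      have h3 : ∀ s : ZMod N, ∑ χ : DirichletCharacter ℂ N,
          (χ t⁻¹ * χ s) * (((F t : ℝ) : ℂ) * ((F s : ℝ) : ℂ)) =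
            if t = s then ((N : ℂ) - 1) * (((F t : ℝ) : ℂ) * ((F s : ℝ) : ℂ)) else 0 := by
        intro s
        rw [← Finset.sum_mul, sum_char_inv_mul_char_eq ℂ hu s]
        split_ifs
        · rw [Nat.totient_prime hN, Nat.cast_sub hN.one_le, Nat.cast_one]
        · rw [zero_mul]
      rw [Finset.sum_congr rfl fun s _ => h3 s, Finset.sum_ite_eq, if_pos (Finset.mem_univ _), sq]
  have h3 : ((∑ χ : DirichletCharacter ℂ N, ‖∑ s : ZMod N, χ s * ((F s : ℝ) : ℂ)‖ ^ 2 : ℝ) : ℂ) =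
      ((((N : ℝ) - 1) * ∑ s : ZMod N, F s ^ 2 : ℝ) : ℂ) := by
    rw [Complex.ofReal_sum, Finset.sum_congr rfl fun χ _ => h1 χ, Finset.sum_comm,
      Finset.sum_congr rfl fun t _ => h2 t, ← Finset.mul_sum]
    push_cast
    rfl
  exact_mod_cast h3

end Pool.Agent.LibNF95
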