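import Pool.Agent.LibNF95.U2
import Pool.Agent.LibNF95.P1
import Pool.Agent.LibNF95.F3
import Pool.Agent.LibSW40.S6

/-!
ROW U3 (MEDIUM). Upper bounds for the energy (cites U2, P1, F2, F3, `LibSW40.L_one_le`).

PLAN. `psi` facts: `psi N s = (quadraticChar (ZMod N) s : ℂ)`, `psi ≠ 1` (`N ≠ 2`: a non-square exists, `quadraticChar_ne_one`).
`energy_five`: `T(s)² = ε ψ(s) T(s)²` for all `s` (from `h`: `ψ T = ε T`, `ε² = 1`), so `∑ T² = |∑ ψ T²| ≤ ∑_{i, j < f} ‖∑_s ψ(s) g(p^i s) g(p^j s)‖`, `corr_le`.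
`energy_three`: `T² ≤ w |T|`, `∑ |T| = ε ∑ ψ T = ε * (sum_chi_T for psi: ψ(p) = 1 since `p = (p^((f+1)/2))²`) ≤ f ‖bb psi‖ ≤ f * 2 * ‖B1 psi‖`
(`norm_bb`, `‖1 - ψ 2‖ ≤ 2`), `‖B1 psi‖ = √N/π ‖L(1, psi⁻¹)‖ ≤ √N (4 + log N)` (`norm_B1`; `psi` is odd for `N ≡ 3 mod 4`; `1/π ≤ 1`).
-/

set_option autoImplicit false

open Finset Complex DirichletCharacter

namespace Pool.Agent.LibNF95

private theorem U3_psi {N : ℕ} [Fact N.Prime] (s : ZMod N) :
    psi N s = (((quadraticChar (ZMod N) s : ℤ) : ℝ) : ℂ) := by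
  unfold psi
  rw [MulChar.ringHomComp_apply]
  simp

private theorem U3_psi_ne_one {N : ℕ} [Fact N.Prime] (hN : N ≠ 2) : psi N ≠ 1 := by
  intro h
  have hc : ringChar (ZMod N) ≠ 2 := by
    rw [ZMod.ringChar_zmod_n]
    exact hN
  apply quadraticChar_ne_one hc
  ext u
  have h1 : psi N u = (1 : DirichletCharacter ℂ N) u := by rw [h]
  rw [U3_psi, MulChar.one_apply_coe] at h1
  rw [MulChar.one_apply_coe]
  exact_mod_cast h1

private theorem U3_odd {N : ℕ} [Fact N.Prime] (hN : N % 4 = 3) : (psi N).Odd := by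
  have hc : ringChar (ZMod N) ≠ 2 := by
    rw [ZMod.ringChar_zmod_n]
    rintro rfl
    norm_num at hN
  show psi N (-1) = -1
  rw [U3_psi, quadraticChar_neg_one hc, ZMod.card, ZMod.χ₄_nat_three_mod_four hN]
  simp

theorem energy_five {p N f : ℕ} [Fact N.Prime] (hN : N ≠ 2) (ε : ℤ) (hε : ε = 1 ∨ ε = -1)
    (h : ∀ s : ZMod N, (quadraticChar (ZMod N) s : ℝ) * T p N f s = ε * T p N f s) :
    ∑ s : ZMod N, T p N f s ^ 2 ≤ (f : ℝ) ^ 2 * (√N * (1 + Real.log N) ^ 2) := by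
  have hχ := U3_psi_ne_one hN
  have hsq : ((ε : ℤ) : ℝ) * ε = 1 := by
    rcases hε with rfl | rfl <;> norm_num
  have h1 : ∀ s : ZMod N, T p N f s ^ 2 =
      ε * ((quadraticChar (ZMod N) s : ℝ) * T p N f s ^ 2) := by
    intro s
    have h2 := h s
    calc T p N f s ^ 2 = (((ε : ℤ) : ℝ) * ε) * T p N f s ^ 2 := by rw [hsq, one_mul]
      _ = ε * ((ε * T p N f s) * T p N f s) := by ring
      _ = ε * (((quadraticChar (ZMod N) s : ℝ) * T p N f s) * T p N f s) := by rw [h2]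
      _ = _ := by ring
  have h2 : ∑ s : ZMod N, T p N f s ^ 2 =
      ε * ∑ s : ZMod N, (quadraticChar (ZMod N) s : ℝ) * T p N f s ^ 2 := by
    rw [Finset.mul_sum]
    exact Finset.sum_congr rfl fun s _ => h1 s
  have hεa : |((ε : ℤ) : ℝ)| = 1 := by
    rcases hε with rfl | rfl <;> norm_num
  have h3 : ∑ s : ZMod N, T p N f s ^ 2 ≤
      |∑ s : ZMod N, (quadraticChar (ZMod N) s : ℝ) * T p N f s ^ 2| := by
    rw [h2]
    refine (le_abs_self _).trans ?_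
    rw [abs_mul, hεa, one_mul]
  have h4 : ((∑ s : ZMod N, (quadraticChar (ZMod N) s : ℝ) * T p N f s ^ 2 : ℝ) : ℂ) =
      ∑ i ∈ range f, ∑ j ∈ range f, ∑ s : ZMod N, psi N s *
        ((g ((p : ZMod N) ^ i * s) * g ((p : ZMod N) ^ j * s) : ℝ) : ℂ) := by
    rw [Complex.ofReal_sum]
    have h5 : ∀ s : ZMod N,
        (((quadraticChar (ZMod N) s : ℝ) * T p N f s ^ 2 : ℝ) : ℂ) =
        ∑ i ∈ range f, ∑ j ∈ range f, psi N s *
          ((g ((p : ZMod N) ^ i * s) * g ((p : ZMod N) ^ j * s) : ℝ) : ℂ) := by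
      intro s
      rw [Complex.ofReal_mul, ← U3_psi]
      unfold T
      rw [sq, Finset.sum_mul_sum, Complex.ofReal_sum, Finset.mul_sum]
      refine Finset.sum_congr rfl fun i _ => ?_
      rw [Complex.ofReal_sum, Finset.mul_sum]
    rw [Finset.sum_congr rfl fun s _ => h5 s, Finset.sum_comm]
    refine Finset.sum_congr rfl fun i _ => ?_
    rw [Finset.sum_comm]
  have h6 : |∑ s : ZMod N, (quadraticChar (ZMod N) s : ℝ) * T p N f s ^ 2| ≤
      ∑ i ∈ range f, ∑ j ∈ range f, √N * (1 + Real.log N) ^ 2 := by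
    rw [← Real.norm_eq_abs, ← Complex.norm_real, h4]
    refine (norm_sum_le _ _).trans (Finset.sum_le_sum fun i _ => ?_)
    exact (norm_sum_le _ _).trans (Finset.sum_le_sum fun j _ => corr_le hN hχ _ _)
  refine h3.trans (h6.trans (le_of_eq ?_))
  rw [Finset.sum_const, Finset.sum_const, Finset.card_range, nsmul_eq_mul, nsmul_eq_mul]
  ring

theorem energy_three {p N f : ℕ} [Fact N.Prime] (hN : N % 4 = 3) (hfo : Odd f) (hp : (p : ZMod N) ≠ 0)
    (hf : (p : ZMod N) ^ f = 1) (ε : ℤ) (hε : ε = 1 ∨ ε = -1) {w : ℝ} (hw : 0 ≤ w)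
    (hT : ∀ s : ZMod N, |T p N f s| ≤ w)
    (h : ∀ s : ZMod N, ε * ((quadraticChar (ZMod N) s : ℝ) * T p N f s) = |T p N f s|) :
    ∑ s : ZMod N, T p N f s ^ 2 ≤ w * (f * (2 * (√N * (4 + Real.log N)))) := by
  have hN2 : N ≠ 2 := by
    rintro rfl
    norm_num at hN
  have hχ := U3_psi_ne_one hN2
  have hχ' : (psi N)⁻¹ ≠ 1 := inv_ne_one.2 hχ
  have hodd := U3_odd hN
  have hεa : |((ε : ℤ) : ℝ)| = 1 := by
    rcases hε with rfl | rfl <;> norm_num
  have h1 : ∑ s : ZMod N, T p N f s ^ 2 ≤ w * ∑ s : ZMod N, |T p N f s| := by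
    rw [Finset.mul_sum]
    refine Finset.sum_le_sum fun s _ => ?_
    rw [← sq_abs, sq]
    exact mul_le_mul_of_nonneg_right (hT s) (abs_nonneg _)
  refine h1.trans (mul_le_mul_of_nonneg_left ?_ hw)
  have h2 : ∑ s : ZMod N, |T p N f s| =
      ε * ∑ s : ZMod N, (quadraticChar (ZMod N) s : ℝ) * T p N f s := by
    rw [Finset.mul_sum]
    exact Finset.sum_congr rfl fun s _ => (h s).symm
  have h3 : ∑ s : ZMod N, |T p N f s| ≤ ‖∑ s : ZMod N, psi N s * ((T p N f s : ℝ) : ℂ)‖ := by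
    have h4 : ∑ s : ZMod N, psi N s * ((T p N f s : ℝ) : ℂ) =
        ((∑ s : ZMod N, (quadraticChar (ZMod N) s : ℝ) * T p N f s : ℝ) : ℂ) := by
      rw [Complex.ofReal_sum]
      refine Finset.sum_congr rfl fun s _ => ?_
      rw [Complex.ofReal_mul, U3_psi]
    rw [h4, Complex.norm_real, Real.norm_eq_abs, h2]
    refine (le_abs_self _).trans ?_
    rw [abs_mul, hεa, one_mul]
  refine h3.trans ?_
  have hN0 : (0 : ℝ) ≤ √N := Real.sqrt_nonneg _
  have h5 : ‖B1 (psi N)‖ ≤ √N * (4 + Real.log N) := by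
    rw [norm_B1 _ hodd]
    have h6 : √(N : ℝ) / Real.pi ≤ √N := by
      apply div_le_self hN0
      linarith [Real.pi_gt_three]
    exact mul_le_mul h6 (LibSW40.L_one_le hχ') (norm_nonneg _) hN0
  have h7 : ‖bb (psi N)‖ ≤ 2 * (√N * (4 + Real.log N)) := by
    rw [norm_bb hN2]
    have h8 : ‖1 - psi N 2‖ ≤ 2 := by
      refine (norm_sub_le _ _).trans ?_
      have := DirichletCharacter.norm_le_one (psi N) 2
      rw [norm_one]
      linarith
    exact mul_le_mul h8 h5 (norm_nonneg _) (by norm_num)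
  rw [sum_chi_T hp hf]
  split_ifs
  · rw [norm_mul, Complex.norm_natCast]
    exact mul_le_mul_of_nonneg_left h7 (Nat.cast_nonneg _)
  · rw [norm_zero]
    exact mul_nonneg (Nat.cast_nonneg _) ((norm_nonneg _).trans h7)

end Pool.Agent.LibNF95
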