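import Pool.Agent.LibNF95.P3
import Pool.Agent.LibNF95.U3
import Pool.Agent.LibNF95.G2
import Pool.Agent.LibNF95.E1
import Pool.Agent.LibNF95.E2

/-!
ROW E3 (MEDIUM). Assembly: for `f` odd the criterion bounds `N` and `p` (cites P3, U3, G2, F2, E1, E2).

PLAN. `L_one_lower (1/16)` gives `c₀`; for odd `χ` (`χ⁻¹ ≠ 1`): `‖B1 χ‖ = √N/π ‖L(1, χ⁻¹)‖ ≥ (c₀/π) N^(1/2 - 1/16) = c N^(7/16)`. `energy_lower` with `m = c N^(7/16)`.
`N % 8 = 3`: `crit_three`, `energy_three`, `numeric` (first part). `N % 8 = 5`: `crit_one`: `∑ T² ≤ w² N` (`|T| ≤ w`, `N` terms) and `energy_five`, `numeric` (second part).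
`hf : f = orderOf p`: `f > 0`. Second statement: if `wN p N = 0` then `T = 0` by `crit_*`, but `energy_lower` with `m > 0` (the same lower bound holds for
every `N`) gives `0 < f m² ≤ 0`.
-/

set_option autoImplicit false

open Finset Complex DirichletCharacter

namespace Pool.Agent.LibNF95

open Pool.Agent.CycU

private theorem E3_inv_ne_one {N : ℕ} [Fact N.Prime] (χ : DirichletCharacter ℂ N) (h : χ.Odd) :
    χ⁻¹ ≠ 1 := by
  intro h1
  have h2 : χ = 1 := inv_eq_one.mp h1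
  subst h2
  have h3 : (1 : DirichletCharacter ℂ N) (-1) = -1 := h
  have h4 : (1 : DirichletCharacter ℂ N) (-1) = 1 := by
    apply MulChar.one_apply
    exact isUnit_one.neg
  rw [h4] at h3
  norm_num at h3

private theorem E3_rpow {N : ℕ} (hN : 0 < N) :
    (√(N : ℝ)) * (N : ℝ) ^ (-(1 / 16 : ℝ)) = (N : ℝ) ^ (7 / 16 : ℝ) := by
  have h0 : (0 : ℝ) < N := by exact_mod_cast hN
  rw [Real.sqrt_eq_rpow, ← Real.rpow_add h0]
  norm_num

theorem bounded : ∃ N₀ : ℕ, ∀ (p N f : ℕ) [Fact p.Prime] [Fact N.Prime], N ≠ 2 → (p : ZMod N) ≠ 0 →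
    f = orderOf (p : ZMod N) → Odd f → (N % 8 = 3 ∨ N % 8 = 5) → (Crit p N f 1 ∨ Crit p N f (-1)) →
    N < N₀ ∧ p ≤ N + 1 := by
  obtain ⟨c₀, hc₀, hL⟩ := L_one_lower (1 / 16) (by norm_num)
  have hpi := Real.pi_pos
  obtain ⟨N₀, hN₀⟩ := numeric (c₀ / Real.pi) (div_pos hc₀ hpi)
  refine ⟨N₀, ?_⟩
  intro p N f _ _ hN2 hp hford hfo h8 hcrit
  have hNp : N.Prime := Fact.out
  have hN3 : 3 ≤ N := by
    have := hNp.two_le
    omega
  have hNpos : 0 < N := by omega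
  have hNr : (0 : ℝ) < N := by exact_mod_cast hNpos
  have hf1 : (p : ZMod N) ^ f = 1 := by
    rw [hford]; exact pow_orderOf_eq_one _
  have hfpos : 0 < f := hfo.pos
  have hfr : (0 : ℝ) < f := by exact_mod_cast hfpos
  have hm : 0 < c₀ / Real.pi * (N : ℝ) ^ (7 / 16 : ℝ) :=
    mul_pos (div_pos hc₀ hpi) (Real.rpow_pos_of_pos hNr _)
  have hB : ∀ χ : DirichletCharacter ℂ N, χ.Odd →
      c₀ / Real.pi * (N : ℝ) ^ (7 / 16 : ℝ) ≤ ‖B1 χ‖ := by
    intro χ hχ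
    rw [norm_B1 χ hχ]
    have h2 := hL N χ⁻¹ (E3_inv_ne_one χ hχ)
    have h3 : c₀ / Real.pi * (N : ℝ) ^ (7 / 16 : ℝ)
        = √(N : ℝ) / Real.pi * (c₀ * (N : ℝ) ^ (-(1 / 16 : ℝ))) := by
      rw [← E3_rpow hNpos]; ring
    rw [h3]
    exact mul_le_mul_of_nonneg_left h2 (by positivity)
  have hE := energy_lower hN2 h8 hfo hp hf1 hm.le hB
  have hw0 : (0 : ℝ) ≤ (wN p N : ℝ) := by positivity
  have hwle := w_le (p := p) hN3
  -- the two facts from the criterion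
  have key : (∀ s : ZMod N, |T p N f s| ≤ (wN p N : ℝ)) ∧ (N₀ ≤ N → False) := by
    have aux3 : ∀ ε : ℤ, (ε = 1 ∨ ε = -1) → N % 8 = 3 → Crit p N f ε →
        (∀ s : ZMod N, |T p N f s| ≤ (wN p N : ℝ)) ∧ (N₀ ≤ N → False) := by
      intro ε hε h83 hC
      have h4 : N % 4 = 3 := by omega
      obtain ⟨hT, hpsi⟩ := crit_three h4 ε hε hC
      refine ⟨hT, fun hge => ?_⟩
      have hε' : -ε = 1 ∨ -ε = -1 := by
        rcases hε with h | h
        · right; rw [h]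
        · left; rw [h]; norm_num
      have h5 := energy_three h4 hfo hp hf1 (-ε) hε' hw0 hT hpsi
      exact (hN₀ N hge (f : ℝ) (wN p N : ℝ) hfr hw0 hwle).1 (hE.trans h5)
    have aux5 : ∀ ε : ℤ, (ε = 1 ∨ ε = -1) → N % 8 = 5 → Crit p N f ε →
        (∀ s : ZMod N, |T p N f s| ≤ (wN p N : ℝ)) ∧ (N₀ ≤ N → False) := by
      intro ε hε h85 hC
      have h4 : N % 4 = 1 := by omega
      obtain ⟨hT, hpsi⟩ := crit_one h4 ε hε hC
      refine ⟨hT, fun hge => ?_⟩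
      have h5 := energy_five hN2 ε hε hpsi
      have h6 : ∑ s : ZMod N, T p N f s ^ 2 ≤ (wN p N : ℝ) ^ 2 * N := by
        have h7 : ∑ s : ZMod N, T p N f s ^ 2 ≤ ∑ _s : ZMod N, (wN p N : ℝ) ^ 2 := by
          apply Finset.sum_le_sum
          intro s _
          rw [← sq_abs (T p N f s)]
          exact pow_le_pow_left₀ (abs_nonneg _) (hT s) 2
        rw [Finset.sum_const, Finset.card_univ, ZMod.card, nsmul_eq_mul] at h7
        linarith
      exact (hN₀ N hge (f : ℝ) (wN p N : ℝ) hfr hw0 hwle).2 ⟨hE.trans h6, hE.trans h5⟩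
    rcases h8 with h8 | h8 <;> rcases hcrit with hC | hC
    · exact aux3 1 (Or.inl rfl) h8 hC
    · exact aux3 (-1) (Or.inr rfl) h8 hC
    · exact aux5 1 (Or.inl rfl) h8 hC
    · exact aux5 (-1) (Or.inr rfl) h8 hC
  refine ⟨?_, ?_⟩
  · by_contra hlt
    exact key.2 (not_lt.mp hlt)
  · apply p_le hN3
    intro hw
    have hT0 : ∀ s : ZMod N, T p N f s = 0 := by
      intro s
      have h1 := key.1 s
      rw [hw] at h1
      have h2 : |T p N f s| ≤ 0 := by simpa using h1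
      exact abs_nonpos_iff.mp h2
    have h1 : ∑ s : ZMod N, T p N f s ^ 2 = 0 := by
      apply Finset.sum_eq_zero
      intro s _
      rw [hT0 s]; ring
    rw [h1] at hE
    have h2 : 0 < (f : ℝ) * (c₀ / Real.pi * (N : ℝ) ^ (7 / 16 : ℝ)) ^ 2 :=
      mul_pos hfr (pow_pos hm 2)
    linarith

end Pool.Agent.LibNF95
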