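import Pool.Agent.LibNF95.Defs
import Pool.Agent.LibMaier.LSum

/-!
ROW F1 (MEDIUM/STRONG). `L(1, χ)` for odd characters by the cotangent.

PLAN. `cot_series_rep'` (Mathlib, Cotangent.lean; or `cot_series_rep`, `tendsto_logDeriv_euler_cot_sub`) at `x = c / N`, `1 ≤ c ≤ N - 1`
(not an integer): `(π/N) cot(π c/N) = lim_M ∑_{|k| ≤ M} 1/(c + k N)`. Multiply by `χ c = χ (c + k N)` and sum over `c`: the sum over all
integers `m`, `N ∤ m`, `- M N < m < (M + 1) N` of `χ m / m`; `χ` odd: `χ(-m)/(-m) = χ m / m`, so it is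
`∑_{0 < m < (M+1) N} + ∑_{0 < m < M N} χ m / m`, which tends to `2 L(1, χ)`: `LibMaier.LT_approx` at `s = 1`
(`LT χ n s = ∑_{m ∈ Icc 1 n} χ m * m^(-s)`, error `N * 3 / n → 0`). (Simplest bookkeeping: for each `k ≥ 0`
`∑_{c=1}^{N-1} χ c / (c + k N) = ∑_{m ∈ Ioo (k N) ((k+1) N)} χ m / m`, and `1/(c - k N)` with `c ↦ N - c`: `χ c/(c - k N) = χ(N-c)/((k-1) N + (N - c))`.)
-/

set_option autoImplicit false

open Finset Complex DirichletCharacter

namespace Pool.Agent.LibNF95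

private noncomputable def F1_A {N : ℕ} (χ : DirichletCharacter ℂ N) (k : ℕ) : ℂ :=
  ∑ c ∈ Finset.Icc 1 (N - 1), χ ((c : ℕ) : ZMod N) / ((c : ℂ) + k * N)

private theorem F1_block {N : ℕ} [Fact N.Prime] (χ : DirichletCharacter ℂ N) (k : ℕ) :
    Pool.Agent.LibMaier.LT χ ((k + 1) * N) 1 = Pool.Agent.LibMaier.LT χ (k * N) 1 + F1_A χ k := by
  have hN : 0 < N := (Fact.out : N.Prime).pos
  have hkN : (k + 1) * N = k * N + N := by ring
  have h1 := Pool.Agent.LibMaier.LT_sub χ (N := k * N) (M := (k + 1) * N) (by rw [hkN]; omega) 1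
  have h2 : ∑ n ∈ Finset.Ioc (k * N) ((k + 1) * N), χ (n : ZMod N) * (n : ℂ) ^ (-(1 : ℂ)) =
      ∑ c ∈ Finset.Icc 1 N, χ (c : ZMod N) / ((c : ℂ) + k * N) := by
    rw [hkN]
    refine Finset.sum_nbij' (fun n => n - k * N) (fun c => c + k * N) ?_ ?_ ?_ ?_ ?_
    · intro n hn
      rw [Finset.mem_Ioc] at hn
      rw [Finset.mem_Icc]
      omega
    · intro c hc
      rw [Finset.mem_Icc] at hc
      rw [Finset.mem_Ioc]
      omega
    · intro n hn
      rw [Finset.mem_Ioc] at hn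
      omega
    · intro c hc
      omega
    · intro n hn
      rw [Finset.mem_Ioc] at hn
      obtain ⟨c, rfl⟩ : ∃ c, n = c + k * N := ⟨n - k * N, by omega⟩
      rw [Nat.add_sub_cancel, Complex.cpow_neg_one, div_eq_mul_inv]
      push_cast
      rw [ZMod.natCast_self, mul_zero, add_zero]
  have h3 : ∑ c ∈ Finset.Icc 1 N, χ (c : ZMod N) / ((c : ℂ) + k * N) = F1_A χ k := by
    have h4 : Finset.Icc 1 N = insert N (Finset.Icc 1 (N - 1)) := by
      ext c
      rw [Finset.mem_insert, Finset.mem_Icc, Finset.mem_Icc]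
      omega
    have h5 : N ∉ Finset.Icc 1 (N - 1) := by
      rw [Finset.mem_Icc]
      omega
    rw [h4, Finset.sum_insert h5, ZMod.natCast_self, MulChar.map_zero, zero_div, zero_add]
    rfl
  rw [h2, h3] at h1
  rw [← h1]
  ring

private theorem F1_refl {N : ℕ} [Fact N.Prime] (χ : DirichletCharacter ℂ N) (hodd : χ.Odd) (k : ℕ) :
    ∑ c ∈ Finset.Icc 1 (N - 1), χ ((c : ℕ) : ZMod N) / ((c : ℂ) - (k + 1) * N) = F1_A χ k := by
  unfold F1_A
  refine Finset.sum_nbij' (fun c => N - c) (fun c => N - c) ?_ ?_ ?_ ?_ ?_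
  · intro c hc
    rw [Finset.mem_Icc] at hc ⊢
    omega
  · intro c hc
    rw [Finset.mem_Icc] at hc ⊢
    omega
  · intro c hc
    rw [Finset.mem_Icc] at hc
    omega
  · intro c hc
    rw [Finset.mem_Icc] at hc
    omega
  · intro c hc
    rw [Finset.mem_Icc] at hc
    have h1 : ((N - c : ℕ) : ZMod N) = -(c : ZMod N) := by
      rw [Nat.cast_sub (by omega), ZMod.natCast_self, zero_sub]
    have h2 : ((N - c : ℕ) : ℂ) + k * N = -((c : ℂ) - (k + 1) * N) := by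
      rw [Nat.cast_sub (by omega)]
      ring
    rw [h1, h2, hodd.eval_neg, neg_div_neg_eq]

private theorem F1_partial {N : ℕ} [Fact N.Prime] (χ : DirichletCharacter ℂ N) (hodd : χ.Odd) (M : ℕ) :
    ∑ c ∈ Finset.Icc 1 (N - 1), χ ((c : ℕ) : ZMod N) * (1 / ((c : ℂ) / N) +
      ∑ j ∈ Finset.range M, (1 / ((c : ℂ) / N - (j + 1)) + 1 / ((c : ℂ) / N + (j + 1)))) =
    (N : ℂ) * (Pool.Agent.LibMaier.LT χ ((M + 1) * N) 1 + Pool.Agent.LibMaier.LT χ (M * N) 1) := by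
  have hN : (N : ℂ) ≠ 0 := by exact_mod_cast (Fact.out : N.Prime).ne_zero
  induction M with
  | zero =>
    have h1 := F1_block χ 0
    have h2 : Pool.Agent.LibMaier.LT χ (0 * N) 1 = 0 := by
      unfold Pool.Agent.LibMaier.LT
      rw [zero_mul]
      simp
    rw [h1, h2, zero_add, add_zero]
    unfold F1_A
    rw [Finset.mul_sum]
    refine Finset.sum_congr rfl fun c _ => ?_
    rw [Finset.sum_range_zero, add_zero, one_div_div, Nat.cast_zero, zero_mul, add_zero]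
    ring
  | succ M ih =>
    have h1 : ∀ c ∈ Finset.Icc 1 (N - 1), χ ((c : ℕ) : ZMod N) * (1 / ((c : ℂ) / N) +
        ∑ j ∈ Finset.range (M + 1), (1 / ((c : ℂ) / N - (j + 1)) + 1 / ((c : ℂ) / N + (j + 1)))) =
        χ ((c : ℕ) : ZMod N) * (1 / ((c : ℂ) / N) +
          ∑ j ∈ Finset.range M, (1 / ((c : ℂ) / N - (j + 1)) + 1 / ((c : ℂ) / N + (j + 1)))) +
        ((N : ℂ) * (χ ((c : ℕ) : ZMod N) / ((c : ℂ) - (M + 1) * N)) +
          (N : ℂ) * (χ ((c : ℕ) : ZMod N) / ((c : ℂ) + ((M + 1 : ℕ) : ℂ) * N))) := by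
      intro c _
      have h2 : 1 / ((c : ℂ) / N - (M + 1)) = N / ((c : ℂ) - (M + 1) * N) := by
        rw [show (c : ℂ) / N - (M + 1) = ((c : ℂ) - (M + 1) * N) / N by field_simp, one_div_div]
      have h3 : 1 / ((c : ℂ) / N + (M + 1)) = N / ((c : ℂ) + ((M + 1 : ℕ) : ℂ) * N) := by
        rw [show (c : ℂ) / N + (M + 1) = ((c : ℂ) + ((M + 1 : ℕ) : ℂ) * N) / N by
          push_cast; field_simp, one_div_div]
      rw [Finset.sum_range_succ, h2, h3]
      ring
    rw [Finset.sum_congr rfl h1, Finset.sum_add_distrib, ih, Finset.sum_add_distrib, ← Finset.mul_sum,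
      ← Finset.mul_sum, F1_refl χ hodd M]
    have h4 : ∑ c ∈ Finset.Icc 1 (N - 1), χ ((c : ℕ) : ZMod N) /
        ((c : ℂ) + ((M + 1 : ℕ) : ℂ) * N) = F1_A χ (M + 1) := rfl
    rw [h4, F1_block χ (M + 1), F1_block χ M]
    ring

private theorem F1_tendsto {N : ℕ} [Fact N.Prime] (χ : DirichletCharacter ℂ N) (hχ : χ ≠ 1) :
    Filter.Tendsto (fun M : ℕ => Pool.Agent.LibMaier.LT χ (M * N) 1) Filter.atTop
      (nhds (LFunction χ 1)) := by
  have hN : 0 < N := (Fact.out : N.Prime).pos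
  have hNr : (0 : ℝ) < N := by exact_mod_cast hN
  rw [tendsto_iff_norm_sub_tendsto_zero]
  refine squeeze_zero' (Filter.Eventually.of_forall fun M => norm_nonneg _) ?_
    (tendsto_const_div_atTop_nhds_zero_nat (3 : ℝ))
  filter_upwards [Filter.eventually_ge_atTop 1] with M hM
  have hMr : (0 : ℝ) < M := by exact_mod_cast hM
  have h1 := Pool.Agent.LibMaier.LT_approx hχ (s := 1) (by norm_num) (N := M * N)
    (Nat.mul_pos hM hN)
  rw [norm_sub_rev]
  refine h1.trans (le_of_eq ?_)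
  rw [norm_one, Complex.one_re, Real.rpow_neg_one, Nat.cast_mul]
  field_simp
  norm_num

theorem L_one_cot {N : ℕ} [Fact N.Prime] (χ : DirichletCharacter ℂ N) (hodd : χ.Odd) :
    LFunction χ 1 = ((Real.pi : ℂ) / (2 * N)) *
      ∑ c ∈ Finset.Icc 1 (N - 1), χ ((c : ℕ) : ZMod N) * Complex.cot ((Real.pi : ℂ) * c / N) := by
  have hN : (N : ℂ) ≠ 0 := by exact_mod_cast (Fact.out : N.Prime).ne_zero
  have hχ : χ ≠ 1 := by
    rintro rfl
    have h1 : (1 : DirichletCharacter ℂ N) (-1) = -1 := hodd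
    rw [MulChar.one_apply isUnit_one.neg] at h1
    norm_num at h1
  have hmem : ∀ c ∈ Finset.Icc 1 (N - 1), ((c : ℂ) / N) ∈ Complex.integerComplement := by
    intro c hc
    rw [Finset.mem_Icc] at hc
    rw [Complex.mem_integerComplement_iff]
    rintro ⟨z, hz⟩
    rw [eq_div_iff hN] at hz
    have h1 : z * N = c := by exact_mod_cast hz
    have h2 : (N : ℤ) ∣ c := ⟨z, by rw [← h1]; ring⟩
    have h3 : N ∣ c := by exact_mod_cast h2
    have h4 := Nat.le_of_dvd (by omega) h3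
    omega
  have h1 : Filter.Tendsto (fun M : ℕ => ∑ c ∈ Finset.Icc 1 (N - 1), χ ((c : ℕ) : ZMod N) *
      (1 / ((c : ℂ) / N) + ∑ j ∈ Finset.range M, (1 / ((c : ℂ) / N - (j + 1)) +
        1 / ((c : ℂ) / N + (j + 1))))) Filter.atTop
      (nhds (∑ c ∈ Finset.Icc 1 (N - 1), χ ((c : ℕ) : ZMod N) *
        ((Real.pi : ℂ) * Complex.cot ((Real.pi : ℂ) * c / N)))) := by
    refine tendsto_finsetSum _ fun c hc => ?_
    refine Filter.Tendsto.const_mul _ ?_
    have h2 := (tendsto_logDeriv_euler_cot_sub (hmem c hc)).const_add (1 / ((c : ℂ) / N))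
    rw [add_sub_cancel, ← mul_div_assoc] at h2
    exact h2
  have h2 := (F1_tendsto χ hχ)
  have h3 : Filter.Tendsto (fun M : ℕ => Pool.Agent.LibMaier.LT χ ((M + 1) * N) 1) Filter.atTop
      (nhds (LFunction χ 1)) := h2.comp (Filter.tendsto_add_atTop_nat 1)
  have h4 := (h3.add h2).const_mul (N : ℂ)
  have h5 : (fun M : ℕ => ∑ c ∈ Finset.Icc 1 (N - 1), χ ((c : ℕ) : ZMod N) *
      (1 / ((c : ℂ) / N) + ∑ j ∈ Finset.range M, (1 / ((c : ℂ) / N - (j + 1)) +
        1 / ((c : ℂ) / N + (j + 1))))) = fun M : ℕ =>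
      (N : ℂ) * (Pool.Agent.LibMaier.LT χ ((M + 1) * N) 1 + Pool.Agent.LibMaier.LT χ (M * N) 1) :=
    funext fun M => F1_partial χ hodd M
  rw [h5] at h1
  have h6 := tendsto_nhds_unique h1 h4
  have h7 : ∑ c ∈ Finset.Icc 1 (N - 1), χ ((c : ℕ) : ZMod N) *
      ((Real.pi : ℂ) * Complex.cot ((Real.pi : ℂ) * c / N)) = (Real.pi : ℂ) *
      ∑ c ∈ Finset.Icc 1 (N - 1), χ ((c : ℕ) : ZMod N) * Complex.cot ((Real.pi : ℂ) * c / N) := by
    rw [Finset.mul_sum]
    refine Finset.sum_congr rfl fun c _ => ?_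
    ring
  rw [h7] at h6
  rw [div_mul_eq_mul_div, h6]
  field_simp
  ring

end Pool.Agent.LibNF95
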