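import Pool.Agent.LibNF95.F1

/-!
ROW F2 (MEDIUM/STRONG). `|B_{1,χ}| = (√N / π) |L(1, χ⁻¹)|` for odd `χ` (cites F1 as stated).

PLAN. For `c ≠ 0` in `ZMod N`, `z = stdAddChar c ≠ 1`, `z ^ N = 1`: `∑_x x.val * stdAddChar (c * x) = N / (z - 1)`
(`∑_{x < N} x z^x`: multiply by `z - 1`). `1 / (e^(2 i θ) - 1) = -1/2 - (i/2) cot θ`, `θ = π c / N`.
Fourier inversion for `χ` (primitive because `N` is prime and `χ ≠ 1`): `∑_c χ⁻¹ c * stdAddChar (c * x) = χ x * gaussSum χ⁻¹ stdAddChar`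
(`gaussSum_mulShift_of_isPrimitive`, or directly for a field: `gaussSum_mulShift`, both sides `0` at `x = 0`), and `‖gaussSum‖² = N`
(`gaussSum_mul_gaussSum_eq_card` and conjugation, `χ(-1) = -1`). So
`gaussSum χ⁻¹ * N * B1 χ = ∑_c χ⁻¹ c * ∑_x x.val stdAddChar (c x) = ∑_{c ≠ 0} χ⁻¹ c * N * (- 1/2 - (i/2) cot (π c/N)) = -(i N/2) ∑ χ⁻¹ c cot`
(`∑ χ⁻¹ c = 0`), and F1 for `χ⁻¹` (odd) gives `∑ χ⁻¹ c cot = (2 N/π) L(1, χ⁻¹)`; norms: `√N ‖B1 χ‖ = (1/2) (2 N/π) ‖L‖`.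
-/

set_option autoImplicit false

open Finset Complex DirichletCharacter

namespace Pool.Agent.LibNF95

theorem norm_gauss {N : ℕ} [Fact N.Prime] {χ : DirichletCharacter ℂ N} (hχ : χ ≠ 1) :
    ‖gaussSum χ (ZMod.stdAddChar (N := N))‖ = √N := by
  have h1 := gaussSum_mul_gaussSum_eq_card hχ (ZMod.isPrimitive_stdAddChar N)
  rw [← star_gaussSum_eq, ZMod.card] at h1
  have h2 : ‖gaussSum χ (ZMod.stdAddChar (N := N))‖ * ‖gaussSum χ (ZMod.stdAddChar (N := N))‖ = (N : ℝ) := by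
    have h3 := congrArg (fun z : ℂ => ‖z‖) h1
    simpa using h3
  rw [← Real.sqrt_mul_self (norm_nonneg (gaussSum χ (ZMod.stdAddChar (N := N)))), h2]

private theorem F2_range {N : ℕ} [NeZero N] (f : ℕ → ℂ) : ∑ x : ZMod N, f x.val = ∑ k ∈ range N, f k := by
  refine Finset.sum_nbij' (fun x => x.val) (fun k => (k : ZMod N)) ?_ ?_ ?_ ?_ ?_
  · intro x _
    exact Finset.mem_range.2 (ZMod.val_lt x)
  · intro k _
    exact Finset.mem_univ _
  · intro x _
    exact ZMod.natCast_zmod_val x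
  · intro k hk
    exact ZMod.val_natCast_of_lt (Finset.mem_range.1 hk)
  · intro x _
    rfl

private theorem F2_geom (z : ℂ) (n : ℕ) :
    (z - 1) * ∑ k ∈ range n, (k : ℂ) * z ^ k = n * z ^ n - z * ∑ k ∈ range n, z ^ k := by
  induction n with
  | zero => simp
  | succ n ih =>
    rw [Finset.sum_range_succ, Finset.sum_range_succ, mul_add, ih]
    push_cast
    ring

private theorem F2_inner {N : ℕ} [Fact N.Prime] {c : ZMod N} (hc : c ≠ 0) :
    ∑ x : ZMod N, (x.val : ℂ) * ZMod.stdAddChar (N := N) (c * x) =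
      (N : ℂ) * (-1 / 2 - Complex.I / 2 * Complex.cot ((Real.pi : ℂ) * (c.val : ℕ) / N)) := by
  have hN : (N : ℂ) ≠ 0 := by exact_mod_cast (Fact.out (p := N.Prime)).ne_zero
  obtain ⟨z, hz⟩ : ∃ z : ℂ, z = ZMod.stdAddChar (N := N) c := ⟨_, rfl⟩
  have hz1 : z ≠ 1 := by
    intro h
    apply hc
    have h1 : ZMod.stdAddChar (N := N) c = ZMod.stdAddChar (N := N) 0 := by
      rw [← hz, h, AddChar.map_zero_eq_one]
    exact ZMod.injective_stdAddChar h1
  have hpow : ∀ k : ℕ, ZMod.stdAddChar (N := N) ((k : ZMod N) * c) = z ^ k := by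
    intro k
    rw [hz, ← nsmul_eq_mul, AddChar.map_nsmul_eq_pow]
  have hzN : z ^ N = 1 := by
    rw [← hpow N, ZMod.natCast_self, zero_mul, AddChar.map_zero_eq_one]
  have h1 : ∑ x : ZMod N, (x.val : ℂ) * ZMod.stdAddChar (N := N) (c * x) = ∑ k ∈ range N, (k : ℂ) * z ^ k := by
    rw [← F2_range (fun k => (k : ℂ) * z ^ k)]
    refine Finset.sum_congr rfl fun x _ => ?_
    have : c * x = ((x.val : ℕ) : ZMod N) * c := by
      rw [ZMod.natCast_zmod_val, mul_comm]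
    rw [this, hpow]
  have h2 := F2_geom z N
  have h3 : ∑ k ∈ range N, z ^ k = 0 := by
    have h4 := geom_sum_mul z N
    rw [hzN, sub_self] at h4
    exact (mul_eq_zero.1 h4).resolve_right (sub_ne_zero.2 hz1)
  rw [h3, hzN, mul_zero, sub_zero, mul_one] at h2
  have hexp : z = Complex.exp (2 * Complex.I * ((Real.pi : ℂ) * (c.val : ℕ) / N)) := by
    rw [hz]
    have h5 := ZMod.stdAddChar_coe (N := N) (c.val : ℤ)
    rw [Int.cast_natCast, ZMod.natCast_zmod_val] at h5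
    rw [h5]
    congr 1
    push_cast
    ring
  have hz1' : z - 1 ≠ 0 := sub_ne_zero.2 hz1
  rw [h1, Complex.cot_eq_exp_ratio, ← hexp]
  have h6 : ∑ k ∈ range N, (k : ℂ) * z ^ k = N / (z - 1) := by
    rw [eq_div_iff hz1', mul_comm, h2]
  have h7 : (1 : ℂ) - z ≠ 0 := fun h => hz1' (by linear_combination -h)
  rw [h6]
  field_simp
  ring

theorem norm_B1 {N : ℕ} [Fact N.Prime] (χ : DirichletCharacter ℂ N) (hodd : χ.Odd) :
    ‖B1 χ‖ = √N / Real.pi * ‖LFunction χ⁻¹ 1‖ := by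
  have hp : N.Prime := Fact.out
  have hN0 : (N : ℝ) ≠ 0 := by exact_mod_cast hp.ne_zero
  have hN : (N : ℂ) ≠ 0 := by exact_mod_cast hp.ne_zero
  have hpi : (Real.pi : ℂ) ≠ 0 := by exact_mod_cast Real.pi_ne_zero
  have hodd' : (χ⁻¹ : DirichletCharacter ℂ N).Odd := by
    unfold DirichletCharacter.Odd at hodd ⊢
    rw [MulChar.inv_apply', inv_neg, inv_one, hodd]
  have hne : (χ⁻¹ : DirichletCharacter ℂ N) ≠ 1 := by
    intro h
    have h1 := hodd'
    unfold DirichletCharacter.Odd at h1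
    rw [h, MulChar.one_apply (isUnit_one.neg)] at h1
    norm_num at h1
  obtain ⟨G, hG⟩ : ∃ G : ℂ, G = gaussSum χ⁻¹ (ZMod.stdAddChar (N := N)) := ⟨_, rfl⟩
  have hGn : ‖G‖ = √N := by rw [hG, norm_gauss hne]
  have hL : G * (N * B1 χ) = ∑ c : ZMod N, χ⁻¹ c * ∑ x : ZMod N, (x.val : ℂ) * ZMod.stdAddChar (N := N) (c * x) := by
    simp only [Finset.mul_sum]
    rw [Finset.sum_comm]
    unfold B1
    rw [Finset.mul_sum, Finset.mul_sum]
    refine Finset.sum_congr rfl fun x _ => ?_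
    have h1 : ∑ c : ZMod N, χ⁻¹ c * ((x.val : ℂ) * ZMod.stdAddChar (N := N) (c * x)) =
        (x.val : ℂ) * gaussSum χ⁻¹ ((ZMod.stdAddChar (N := N)).mulShift x) := by
      unfold gaussSum
      rw [Finset.mul_sum]
      refine Finset.sum_congr rfl fun c _ => ?_
      rw [AddChar.mulShift_apply, mul_comm x c]
      ring
    rw [h1]
    by_cases hx : x = 0
    · subst hx
      simp
    · have h2 := gaussSum_mulShift_eq (χ⁻¹ : DirichletCharacter ℂ N) (ZMod.stdAddChar (N := N)) (Units.mk0 x hx)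
      rw [Units.val_mk0, inv_inv] at h2
      rw [h2, ← hG]
      field_simp
  have hR : ∑ c : ZMod N, χ⁻¹ c * ∑ x : ZMod N, (x.val : ℂ) * ZMod.stdAddChar (N := N) (c * x) =
      -(Complex.I * N / 2) * ∑ c : ZMod N, χ⁻¹ c * Complex.cot ((Real.pi : ℂ) * (c.val : ℕ) / N) := by
    have h1 : ∀ c : ZMod N, χ⁻¹ c * ∑ x : ZMod N, (x.val : ℂ) * ZMod.stdAddChar (N := N) (c * x) =
        -((N : ℂ) / 2) * χ⁻¹ c + -(Complex.I * N / 2) * (χ⁻¹ c * Complex.cot ((Real.pi : ℂ) * (c.val : ℕ) / N)) := by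
      intro c
      by_cases hc : c = 0
      · subst hc
        rw [MulChar.map_zero]
        ring
      · rw [F2_inner hc]
        ring
    rw [Finset.sum_congr rfl fun c _ => h1 c, Finset.sum_add_distrib, ← Finset.mul_sum, ← Finset.mul_sum,
      MulChar.sum_eq_zero_of_ne_one hne, mul_zero, zero_add]
  have hF := L_one_cot χ⁻¹ hodd'
  have hS : ∑ c : ZMod N, χ⁻¹ c * Complex.cot ((Real.pi : ℂ) * (c.val : ℕ) / N) =
      ∑ c ∈ Finset.Icc 1 (N - 1), χ⁻¹ ((c : ℕ) : ZMod N) * Complex.cot ((Real.pi : ℂ) * c / N) := by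
    have h1 := F2_range (N := N) (fun k => χ⁻¹ ((k : ℕ) : ZMod N) * Complex.cot ((Real.pi : ℂ) * k / N))
    have h2 : ∑ c : ZMod N, χ⁻¹ c * Complex.cot ((Real.pi : ℂ) * (c.val : ℕ) / N) =
        ∑ c : ZMod N, χ⁻¹ ((c.val : ℕ) : ZMod N) * Complex.cot ((Real.pi : ℂ) * (c.val : ℕ) / N) := by
      refine Finset.sum_congr rfl fun c _ => ?_
      rw [ZMod.natCast_zmod_val]
    rw [h2, h1]
    symm
    refine Finset.sum_subset ?_ ?_
    · intro k hk
      rw [Finset.mem_Icc] at hk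
      have := hp.one_lt
      exact Finset.mem_range.2 (by omega)
    · intro k hk hk'
      have hk0 : k = 0 := by
        rw [Finset.mem_Icc] at hk'
        have := Finset.mem_range.1 hk
        omega
      rw [hk0, Nat.cast_zero, MulChar.map_zero, zero_mul]
  have hfin : G * (N * B1 χ) = -(Complex.I * N / 2) * ((2 * N / (Real.pi : ℂ)) * LFunction χ⁻¹ 1) := by
    rw [hL, hR, hS, hF]
    field_simp
  have hn := congrArg (fun z : ℂ => ‖z‖) hfin
  simp only [norm_mul, norm_neg, norm_div, Complex.norm_I, Complex.norm_natCast, Complex.norm_ofNat,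
    Complex.norm_real, Real.norm_eq_abs, abs_of_pos Real.pi_pos, one_mul] at hn
  rw [hGn] at hn
  have hsq : √(N : ℝ) * √(N : ℝ) = N := Real.mul_self_sqrt (Nat.cast_nonneg N)
  have hs0 : √(N : ℝ) ≠ 0 := by
    intro h
    rw [h, mul_zero] at hsq
    exact hN0 hsq.symm
  have hpi' : Real.pi ≠ 0 := Real.pi_ne_zero
  have h8 : √(N : ℝ) * ((N : ℝ) * ‖B1 χ‖) = (N : ℝ) * (N / Real.pi * ‖LFunction χ⁻¹ 1‖) := by
    rw [hn]
    ring
  have h9 : √(N : ℝ) * ‖B1 χ‖ = (N : ℝ) / Real.pi * ‖LFunction χ⁻¹ 1‖ := by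
    have : (N : ℝ) * (√(N : ℝ) * ‖B1 χ‖) = (N : ℝ) * (N / Real.pi * ‖LFunction χ⁻¹ 1‖) := by
      rw [← h8]
      ring
    exact mul_left_cancel₀ hN0 this
  have h10 : √(N : ℝ) * ‖B1 χ‖ = √(N : ℝ) * (√(N : ℝ) / Real.pi * ‖LFunction χ⁻¹ 1‖) := by
    rw [h9]
    nth_rewrite 1 [← hsq]
    ring
  exact mul_left_cancel₀ hs0 h10

end Pool.Agent.LibNF95
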