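import Pool.Agent.LibMaier.LSum

/-!
ROW G1 (MEDIUM/STRONG). Lower bound for `|L(1, χ)|`, `χ` complex (`χ² ≠ 1`), by the 3-4-1 inequality.

PLAN. May assume `ε ≤ 1`; put `η = ε / 4`. For `1 ≤ σ ≤ 2`: `‖L(σ, χ')‖ ≤ C q^η` for `χ' ≠ 1` (`LibMaier.LT_approx`, `N = q`, as in
`LibSW40/S6.lean: L_one_le`), and in the disc of radius `η / 8` around `σ`: `‖L(z, χ)‖ ≤ C q^η` (same, `n^(-re z) ≤ n^(η/8 - 1)`; compare the
private lemmas of `LibSW40/S10.lean`, `deriv_L_le`), so `‖L'(σ, χ)‖ ≤ C' q^η` on `[1, 2]` (Cauchy), hence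
`‖L(1 + δ, χ) - L(1, χ)‖ ≤ δ C' q^η`.
3-4-1 (`DirichletCharacter.norm_LSeries_product_ge_one χ hδ 0`, see its use in `LibMR57/Z03b.lean`: `L_inv`, `z03b_le` gives
`‖L(1 + δ, χ₀)‖ ≤ 2/δ`): `1 ≤ (2/δ)³ ‖L(1+δ, χ)‖⁴ C q^η`, so `‖L(1+δ, χ)‖ ≥ c₁ δ^(3/4) q^(-η/4)`. Choose `δ = (c₁/(2 C'))⁴ q^(-5η)`
(make `C'` large so that `δ ≤ 1`): `‖L(1, χ)‖ ≥ (c₁/2) δ^(3/4) q^(-η/4) = c q^(-4η)`.
-/

set_option autoImplicit false

open Finset Complex DirichletCharacter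

namespace Pool.Agent.LibNF95

private theorem G1_LT_le (ε : ℝ) (hε : 0 < ε) {q : ℕ} [NeZero q] (χ : DirichletCharacter ℂ q)
    {s : ℂ} (hs : 1 - ε / 4 ≤ s.re) :
    ‖Pool.Agent.LibMaier.LT χ (q ^ 2) s‖ ≤ (1 + 4 / ε) * (q : ℝ) ^ ε := by
  have hq0 : 0 < q := Nat.pos_of_ne_zero (NeZero.ne q)
  have hq1 : (1 : ℝ) ≤ q := by exact_mod_cast hq0
  have hqp : (0 : ℝ) < q := by linarith
  have h1 : ‖Pool.Agent.LibMaier.LT χ (q ^ 2) s‖ ≤
      ∑ n ∈ Finset.Icc 1 (q ^ 2), (q : ℝ) ^ (ε / 2) * ((n : ℝ))⁻¹ := by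
    unfold Pool.Agent.LibMaier.LT
    refine (norm_sum_le _ _).trans (Finset.sum_le_sum fun n hn => ?_)
    rw [Finset.mem_Icc] at hn
    have hn1 : (1 : ℝ) ≤ n := by exact_mod_cast hn.1
    have hn0 : (0 : ℝ) < n := by linarith
    have hn2 : (n : ℝ) ≤ (q : ℝ) ^ (2 : ℝ) := by
      rw [Real.rpow_two]
      exact_mod_cast hn.2
    rw [norm_mul]
    have h2 : ‖((n : ℕ) : ℂ) ^ (-s)‖ = (n : ℝ) ^ (-s.re) := by
      have h3 := Complex.norm_cpow_eq_rpow_re_of_pos hn0 (-s)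
      rw [Complex.neg_re] at h3
      simpa using h3
    rw [h2]
    have h4 : (n : ℝ) ^ (-s.re) ≤ (n : ℝ) ^ (ε / 4 - 1) :=
      Real.rpow_le_rpow_of_exponent_le hn1 (by linarith)
    have h5 : (n : ℝ) ^ (ε / 4 - 1) = (n : ℝ) ^ (ε / 4) * ((n : ℝ))⁻¹ := by
      rw [Real.rpow_sub hn0, Real.rpow_one, div_eq_mul_inv]
    have h6 : (n : ℝ) ^ (ε / 4) ≤ (q : ℝ) ^ (ε / 2) := by
      calc (n : ℝ) ^ (ε / 4) ≤ ((q : ℝ) ^ (2 : ℝ)) ^ (ε / 4) :=
            Real.rpow_le_rpow hn0.le hn2 (by positivity)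
        _ = (q : ℝ) ^ (ε / 2) := by
            rw [← Real.rpow_mul hqp.le]
            congr 1
            ring
    calc ‖χ (n : ZMod q)‖ * (n : ℝ) ^ (-s.re) ≤ 1 * (n : ℝ) ^ (-s.re) := by
          gcongr
          exact DirichletCharacter.norm_le_one χ _
      _ ≤ (n : ℝ) ^ (ε / 4) * ((n : ℝ))⁻¹ := by rw [one_mul, ← h5]; exact h4
      _ ≤ (q : ℝ) ^ (ε / 2) * ((n : ℝ))⁻¹ := by
          gcongr
  rw [← Finset.mul_sum] at h1
  have h7 : ∑ n ∈ Finset.Icc 1 (q ^ 2), ((n : ℝ))⁻¹ ≤ 1 + 2 * Real.log q := by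
    have h8 := harmonic_le_one_add_log (q ^ 2)
    rw [harmonic_eq_sum_Icc] at h8
    push_cast at h8
    rw [Real.log_pow] at h8
    push_cast at h8
    exact h8
  have h9 : Real.log q ≤ (q : ℝ) ^ (ε / 2) / (ε / 2) := Real.log_le_rpow_div hqp.le (by positivity)
  have h10 : (1 : ℝ) ≤ (q : ℝ) ^ (ε / 2) := Real.one_le_rpow hq1 (by positivity)
  have h11 : 1 + 2 * Real.log q ≤ (1 + 4 / ε) * (q : ℝ) ^ (ε / 2) := by
    have h12 : (q : ℝ) ^ (ε / 2) / (ε / 2) = 2 / ε * (q : ℝ) ^ (ε / 2) := by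
      field_simp
    rw [h12] at h9
    have h13 : (1 + 4 / ε) * (q : ℝ) ^ (ε / 2) =
        (q : ℝ) ^ (ε / 2) + 2 * (2 / ε * (q : ℝ) ^ (ε / 2)) := by ring
    rw [h13]
    linarith
  calc ‖Pool.Agent.LibMaier.LT χ (q ^ 2) s‖
      ≤ (q : ℝ) ^ (ε / 2) * ∑ n ∈ Finset.Icc 1 (q ^ 2), ((n : ℝ))⁻¹ := h1
    _ ≤ (q : ℝ) ^ (ε / 2) * ((1 + 4 / ε) * (q : ℝ) ^ (ε / 2)) := by
        gcongr
        exact h7.trans h11
    _ = (1 + 4 / ε) * (q : ℝ) ^ ε := by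
        have h14 : (q : ℝ) ^ ε = (q : ℝ) ^ (ε / 2) * (q : ℝ) ^ (ε / 2) := by
          rw [← Real.rpow_add hqp]
          congr 1
          ring
        rw [h14]
        ring

private theorem G1_L_le (ε : ℝ) (hε : 0 < ε) (hε1 : ε ≤ 1) {q : ℕ} [NeZero q]
    {χ : DirichletCharacter ℂ q} (hχ : χ ≠ 1) {s : ℂ} (hs : 1 - ε / 4 ≤ s.re) (hs2 : ‖s‖ ≤ 3) :
    ‖LFunction χ s‖ ≤ (7 + 4 / ε) * (q : ℝ) ^ ε := by
  have hq0 : 0 < q := Nat.pos_of_ne_zero (NeZero.ne q)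
  have hq1 : (1 : ℝ) ≤ q := by exact_mod_cast hq0
  have hqp : (0 : ℝ) < q := by linarith
  have hre : 3 / 4 ≤ s.re := by linarith
  have hre0 : 0 < s.re := by linarith
  have h1 := Pool.Agent.LibMaier.LT_approx hχ hre0 (N := q ^ 2) (Nat.one_le_pow _ _ hq0)
  have h2 : ‖s‖ / s.re ≤ 4 := by
    rw [div_le_iff₀ hre0]
    linarith
  have h3 : ((q ^ 2 : ℕ) : ℝ) ^ (-s.re) ≤ (q : ℝ) ^ (-1 : ℝ) := by
    push_cast
    rw [← Real.rpow_natCast, ← Real.rpow_mul hqp.le]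
    apply Real.rpow_le_rpow_of_exponent_le hq1
    push_cast
    linarith
  have h4 : (q : ℝ) * (2 + ‖s‖ / s.re) * ((q ^ 2 : ℕ) : ℝ) ^ (-s.re) ≤ 6 := by
    calc (q : ℝ) * (2 + ‖s‖ / s.re) * ((q ^ 2 : ℕ) : ℝ) ^ (-s.re)
        ≤ (q : ℝ) * (2 + 4) * (q : ℝ) ^ (-1 : ℝ) := by gcongr
      _ = 6 := by
          rw [Real.rpow_neg_one]
          field_simp
          norm_num
  have h5 := G1_LT_le ε hε χ hs
  have h6 : (1 : ℝ) ≤ (q : ℝ) ^ ε := Real.one_le_rpow hq1 hε.le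
  calc ‖LFunction χ s‖ = ‖(LFunction χ s - Pool.Agent.LibMaier.LT χ (q ^ 2) s) +
        Pool.Agent.LibMaier.LT χ (q ^ 2) s‖ := by
        congr 1
        ring
    _ ≤ ‖LFunction χ s - Pool.Agent.LibMaier.LT χ (q ^ 2) s‖ +
        ‖Pool.Agent.LibMaier.LT χ (q ^ 2) s‖ := norm_add_le _ _
    _ ≤ 6 + (1 + 4 / ε) * (q : ℝ) ^ ε := add_le_add (h1.trans h4) h5
    _ ≤ (7 + 4 / ε) * (q : ℝ) ^ ε := by
        have h7 : (7 + 4 / ε) * (q : ℝ) ^ ε = 6 * (q : ℝ) ^ ε + (1 + 4 / ε) * (q : ℝ) ^ ε := by ring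
        rw [h7]
        linarith

private theorem G1_deriv (ε : ℝ) (hε : 0 < ε) (hε1 : ε ≤ 1) {q : ℕ} [NeZero q]
    {χ : DirichletCharacter ℂ q} (hχ : χ ≠ 1) {w : ℂ} (hw : 1 ≤ w.re) (hw2 : ‖w‖ ≤ 2) :
    ‖deriv (LFunction χ) w‖ ≤ (7 + 4 / ε) / (ε / 8) * (q : ℝ) ^ ε := by
  have hR : 0 < ε / 8 := by positivity
  have h1 : ∀ z ∈ Metric.sphere w (ε / 8), ‖LFunction χ z‖ ≤ (7 + 4 / ε) * (q : ℝ) ^ ε := by
    intro z hz
    rw [mem_sphere_iff_norm] at hz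
    have h2 : |(z - w).re| ≤ ‖z - w‖ := Complex.abs_re_le_norm _
    rw [hz, Complex.sub_re, abs_le] at h2
    refine G1_L_le ε hε hε1 hχ (by linarith [h2.1]) ?_
    calc ‖z‖ = ‖(z - w) + w‖ := by congr 1; ring
      _ ≤ ‖z - w‖ + ‖w‖ := norm_add_le _ _
      _ ≤ 3 := by
          rw [hz]
          linarith
  have h2 := Complex.norm_deriv_le_of_forall_mem_sphere_norm_le hR
    (DirichletCharacter.differentiable_LFunction hχ).diffContOnCl h1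
  calc ‖deriv (LFunction χ) w‖ ≤ (7 + 4 / ε) * (q : ℝ) ^ ε / (ε / 8) := h2
    _ = (7 + 4 / ε) / (ε / 8) * (q : ℝ) ^ ε := by ring

private theorem G1_tsum {σ : ℝ} (hσ : 0 < σ) :
    ∑' n : ℕ, 1 / ((n : ℝ) + 1) ^ (1 + σ) ≤ 1 + 1 / σ := by
  have h1 := ZetaAsymptotics.zeta_limit_aux1 (s := 1 + σ) (by linarith)
  have h2 : 0 ≤ ZetaAsymptotics.termTSum (1 + σ) :=
    tsum_nonneg fun n => ZetaAsymptotics.term_nonneg (n + 1) (1 + σ)
  have h3 : 0 ≤ (1 + σ) * ZetaAsymptotics.termTSum (1 + σ) := by positivity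
  have h4 : 1 + σ - 1 = σ := by ring
  rw [h4] at h1
  linarith

private theorem G1_le (f : ℕ → ℂ) (hf : ∀ n, ‖f n‖ ≤ 1) {σ : ℝ} (hσ : 0 < σ) (hσ1 : σ ≤ 1) (s : ℂ)
    (hre : s.re = 1 + σ) : ‖LSeries f s‖ ≤ 2 / σ := by
  have hsum : Summable (fun n => LSeries.term f s n) :=
    LSeriesSummable_of_bounded_of_one_lt_re (m := 1) (fun n _ => hf n) (by rw [hre]; linarith)
  have hsn : Summable (fun n => ‖LSeries.term f s n‖) := hsum.norm
  have h1 : ‖LSeries f s‖ ≤ ∑' n, ‖LSeries.term f s n‖ := norm_tsum_le_tsum_norm hsn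
  have h2 : Summable fun n : ℕ => 1 / ((n : ℝ) + 1) ^ (1 + σ) := by
    have := (summable_nat_add_iff 1).2 (Real.summable_one_div_nat_rpow.2 (by linarith : 1 < 1 + σ))
    simpa using this
  have h3 : ∑' n, ‖LSeries.term f s n‖ ≤ ∑' n : ℕ, 1 / ((n : ℝ) + 1) ^ (1 + σ) := by
    rw [hsn.tsum_eq_zero_add]
    have e0 : ‖LSeries.term f s 0‖ = 0 := by simp
    rw [e0, zero_add]
    refine Summable.tsum_le_tsum (fun n => ?_) ((summable_nat_add_iff 1).2 hsn) h2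
    rw [LSeries.norm_term_eq, if_neg (by omega), hre]
    push_cast
    exact div_le_div_of_nonneg_right (hf _) (by positivity)
  refine h1.trans (h3.trans ((G1_tsum hσ).trans ?_))
  have : 1 ≤ 1 / σ := by rw [le_div_iff₀ hσ]; linarith
  have e : 2 / σ = 1 / σ + 1 / σ := by ring
  linarith

private theorem G1_main (ε : ℝ) (hε : 0 < ε) (hε1 : ε ≤ 1) : ∃ c : ℝ, 0 < c ∧ ∀ (q : ℕ) [NeZero q]
    (χ : DirichletCharacter ℂ q), χ ^ 2 ≠ 1 → c * (q : ℝ) ^ (-ε) ≤ ‖LFunction χ 1‖ := by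
  set η : ℝ := ε / 4 with hη
  have hη0 : 0 < η := by positivity
  have hη1 : η ≤ 1 := by linarith
  set A : ℝ := 7 + 4 / η with hA
  have hA1 : 1 ≤ A := by
    have : 0 < 4 / η := by positivity
    linarith
  set B : ℝ := (7 + 4 / η) / (η / 8) with hB
  have hB1 : 1 ≤ B := by
    rw [hB, one_le_div (by positivity)]
    have : 0 < 4 / η := by positivity
    linarith
  refine ⟨1 / (128 * A * B ^ 3), by positivity, ?_⟩
  intro q _ χ hχ2
  have hχ : χ ≠ 1 := by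
    intro h
    exact hχ2 (by rw [h, one_pow])
  have hq0 : 0 < q := Nat.pos_of_ne_zero (NeZero.ne q)
  have hq1 : (1 : ℝ) ≤ q := by exact_mod_cast hq0
  have hqp : (0 : ℝ) < q := by linarith
  set Q : ℝ := (q : ℝ) ^ η with hQ
  have hQ1 : 1 ≤ Q := Real.one_le_rpow hq1 hη0.le
  have hQ0 : 0 < Q := by linarith
  have hQ4 : (q : ℝ) ^ (-ε) = 1 / Q ^ 4 := by
    rw [hQ, ← Real.rpow_natCast, ← Real.rpow_mul hqp.le, Real.rpow_neg hqp.le, one_div]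
    congr 2
    push_cast
    rw [hη]
    ring
  have hA0 : 0 < A := by linarith
  have hB0 : 0 < B := by linarith
  set δ : ℝ := 1 / (128 * A * B ^ 4 * Q ^ 5) with hδ
  have hδ0 : 0 < δ := by positivity
  have hδ1 : δ ≤ 1 := by
    rw [hδ, div_le_one (by positivity)]
    have h1 : (1 : ℝ) ≤ B ^ 4 := one_le_pow₀ hB1
    have h2 : (1 : ℝ) ≤ Q ^ 5 := one_le_pow₀ hQ1
    have h3 : (1 : ℝ) ≤ A * B ^ 4 := one_le_mul_of_one_le_of_one_le hA1 h1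
    have h4 : (1 : ℝ) ≤ A * B ^ 4 * Q ^ 5 := one_le_mul_of_one_le_of_one_le h3 h2
    nlinarith
  -- the point `1 + δ`
  set s : ℂ := ((1 + δ : ℝ) : ℂ) with hs
  have hsre : s.re = 1 + δ := by rw [hs, Complex.ofReal_re]
  have hsn : ‖s‖ ≤ 2 := by
    rw [hs, Complex.norm_real, Real.norm_eq_abs, abs_of_nonneg (by linarith)]
    linarith
  -- mean value
  have hmv : ‖LFunction χ s - LFunction χ 1‖ ≤ B * Q * δ := by
    have hconv : Convex ℝ ({z : ℂ | 1 ≤ z.re} ∩ Metric.closedBall (0 : ℂ) 2) :=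
      (convex_halfSpace_re_ge 1).inter (convex_closedBall 0 2)
    have hb : ∀ z ∈ ({z : ℂ | 1 ≤ z.re} ∩ Metric.closedBall (0 : ℂ) 2),
        ‖deriv (LFunction χ) z‖ ≤ B * Q := by
      intro z hz
      have hz2 : ‖z‖ ≤ 2 := by
        have := hz.2
        rwa [Metric.mem_closedBall, dist_zero_right] at this
      exact G1_deriv η hη0 hη1 hχ hz.1 hz2
    have h1 := hconv.norm_image_sub_le_of_norm_deriv_le (f := LFunction χ) (x := (1 : ℂ)) (y := s)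
      (fun z _ => (DirichletCharacter.differentiable_LFunction hχ) z) hb
      ⟨by simp, by simp⟩ ⟨by
        change 1 ≤ s.re
        rw [hsre]
        linarith, by
        rw [Metric.mem_closedBall, dist_zero_right]
        exact hsn⟩
    have h2 : ‖s - 1‖ = δ := by
      have e : s - 1 = ((δ : ℝ) : ℂ) := by
        rw [hs]
        push_cast
        ring
      rw [e, Complex.norm_real, Real.norm_eq_abs, abs_of_pos hδ0]
    rw [h2] at h1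
    exact h1
  -- 3-4-1
  have h341 := DirichletCharacter.norm_LSeries_product_ge_one χ hδ0 0
  have e1 : (1 + (δ : ℂ) + Complex.I * ((0 : ℝ) : ℂ)) = s := by
    rw [hs]
    push_cast
    ring
  have e2 : (1 + (δ : ℂ) + 2 * Complex.I * ((0 : ℝ) : ℂ)) = s := by
    rw [hs]
    push_cast
    ring
  have e3 : (1 + (δ : ℂ)) = s := by
    rw [hs]
    push_cast
    ring
  rw [e1, e2, e3, norm_mul, norm_mul, norm_pow, norm_pow] at h341
  have hlt : 1 < s.re := by rw [hsre]; linarith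
  have hL1 : LSeries (fun n => χ n) s = LFunction χ s :=
    (DirichletCharacter.LFunction_eq_LSeries χ hlt).symm
  have hL2 : LSeries (fun n => (χ ^ 2) n) s = LFunction (χ ^ 2) s :=
    (DirichletCharacter.LFunction_eq_LSeries (χ ^ 2) hlt).symm
  rw [hL1, hL2] at h341
  set a := ‖LSeries (fun n => (1 : DirichletCharacter ℂ q) n) s‖ with ha
  set b := ‖LFunction χ s‖ with hb
  set c := ‖LFunction (χ ^ 2) s‖ with hc
  have ha2 : a ≤ 2 / δ := G1_le _ (fun n => DirichletCharacter.norm_le_one _ _) hδ0 hδ1 s hsre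
  have ha0 : 0 ≤ a := norm_nonneg _
  have hb0 : 0 ≤ b := norm_nonneg _
  have hc0 : 0 ≤ c := norm_nonneg _
  have hc2 : c ≤ A * Q := G1_L_le η hη0 hη1 hχ2 (by rw [hsre]; linarith) (by linarith)
  have hprod : 1 ≤ (2 / δ) ^ 3 * b ^ 4 * (A * Q) := by
    refine h341.trans ?_
    gcongr
  have hb4 : δ ^ 3 / (8 * A * Q) ≤ b ^ 4 := by
    rw [div_le_iff₀ (by positivity)]
    have h1 : (2 / δ) ^ 3 * b ^ 4 * (A * Q) = (b ^ 4 * (8 * A * Q)) / δ ^ 3 := by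
      field_simp
      ring
    rw [h1, le_div_iff₀ (by positivity), one_mul] at hprod
    exact hprod
  have hM : (2 * (B * Q * δ)) ^ 4 = δ ^ 3 / (8 * A * Q) := by
    have h1 : B ^ 4 * Q ^ 4 * δ = 1 / (128 * A * Q) := by
      rw [hδ]
      field_simp
    have h2 : (2 * (B * Q * δ)) ^ 4 = 16 * (B ^ 4 * Q ^ 4 * δ) * δ ^ 3 := by ring
    rw [h2, h1]
    field_simp
    ring
  have hbM : 2 * (B * Q * δ) ≤ b := by
    refine le_of_pow_le_pow_left₀ (n := 4) (by norm_num) hb0 ?_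
    rw [hM]
    exact hb4
  have hfin : B * Q * δ ≤ ‖LFunction χ 1‖ := by
    have h1 : b ≤ ‖LFunction χ s - LFunction χ 1‖ + ‖LFunction χ 1‖ := by
      have := norm_add_le (LFunction χ s - LFunction χ 1) (LFunction χ 1)
      rwa [sub_add_cancel] at this
    linarith
  refine le_trans (le_of_eq ?_) hfin
  rw [hQ4, hδ]
  field_simp

theorem L_one_complex (ε : ℝ) (hε : 0 < ε) : ∃ c : ℝ, 0 < c ∧ ∀ (q : ℕ) [NeZero q]
    (χ : DirichletCharacter ℂ q), χ ^ 2 ≠ 1 → c * (q : ℝ) ^ (-ε) ≤ ‖LFunction χ 1‖ := by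
  obtain ⟨c, hc, h⟩ := G1_main (min ε 1) (lt_min hε one_pos) (min_le_right _ _)
  refine ⟨c, hc, ?_⟩
  intro q _ χ hχ
  refine le_trans ?_ (h q χ hχ)
  have hq1 : (1 : ℝ) ≤ q := by exact_mod_cast NeZero.one_le
  refine mul_le_mul_of_nonneg_left ?_ hc.le
  exact Real.rpow_le_rpow_of_exponent_le hq1 (neg_le_neg (min_le_left _ _))

end Pool.Agent.LibNF95
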