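import Pool.Agent.LibCycU.P7

/-!
ROW K1 (SHORT/MEDIUM). The six small cases of index 2 (finite computations, `decide +kernel` or reduction to `Nat`; no `native_decide`).

PLAN. `IsB p N f b`: for all `s ≠ 0`: `N b ≤ L p N f s`, with equality for some `s`. Index 2, `f` odd: by `cls2` of LibCycU/P2.lean every `s ≠ 0` is `p^j * 1` or `p^j * (-1)`, and `L_pow`
reduces to `L 1` and `L (-1) = f N - L 1` (`L_neg`), so only `L p N f 1` has to be evaluated (a sum of `f ≤ 249` residues: kernel computation in `Nat` with `ZMod.val_natCast`, `ZMod.val_pow` ... ).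
`orderOf`: `orderOf_eq_of_pow_and_pow_div_prime`. Values: (p, N, f, b) = (3,11,5,2), (5,19,9,4), (17,67,33,16), (3,107,53,25), (41,163,81,40), (5,499,249,123).
-/

set_option autoImplicit false

open Finset

namespace Pool.Agent.LibNF95

open Pool.Agent.CycU

private theorem K1_gen {p N f b v : ℕ} (hNp : N.Prime) (hp0 : (p : ZMod N) ≠ 0)
    (hf : f = orderOf (p : ZMod N)) (hfo : Odd f) (he : 2 * f = N - 1)
    (hv : L p N f 1 = v) (h1 : N * b ≤ v) (h2 : N * b + v ≤ f * N)
    (h3 : v = N * b ∨ N * b + v = f * N) : IsB p N f b := by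
  have hFact : Fact N.Prime := ⟨hNp⟩
  have hpf : (p : ZMod N) ^ f = 1 := by rw [hf]; exact pow_orderOf_eq_one _
  have hneg : L p N f (-1) + v = f * N := by
    rw [← hv]; exact L_neg hp0 one_ne_zero
  constructor
  · intro s hs
    obtain ⟨j, hj | hj⟩ := cls2 hf hfo he hs
    · rw [hj, L_pow hpf, hv]; exact h1
    · rw [hj, L_pow hpf]; omega
  · rcases h3 with h | h
    · exact ⟨1, one_ne_zero, by rw [hv]; exact h⟩
    · exact ⟨-1, neg_ne_zero.2 one_ne_zero, by omega⟩

private theorem K1_L (p N f : ℕ) (hN : 1 < N) : L p N f 1 = ∑ i ∈ range f, p ^ i % N := by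
  unfold L
  refine Finset.sum_congr rfl fun i _ => ?_
  rw [mul_one, ← Nat.cast_pow, ZMod.val_natCast]

private theorem K1_two {q a b : ℕ} (ha : a.Prime) (hb : b.Prime) (hq : q.Prime) (h : q ∣ a * b) :
    q = a ∨ q = b := by
  rcases (Nat.Prime.dvd_mul hq).1 h with h | h
  · exact Or.inl ((Nat.prime_dvd_prime_iff_eq hq ha).1 h)
  · exact Or.inr ((Nat.prime_dvd_prime_iff_eq hq hb).1 h)

private theorem K1_o11 : orderOf (3 : ZMod 11) = 5 := by
  have : Fact (Nat.Prime 5) := ⟨by norm_num⟩
  exact orderOf_eq_prime (by decide +kernel) (by decide +kernel)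

private theorem K1_o19 : orderOf (5 : ZMod 19) = 9 := by
  refine orderOf_eq_of_pow_and_pow_div_prime (by norm_num) (by decide +kernel) ?_
  intro q hq hd
  rcases K1_two Nat.prime_three Nat.prime_three hq (by norm_num; exact hd) with h | h <;>
    subst h <;> decide +kernel

private theorem K1_o67 : orderOf (17 : ZMod 67) = 33 := by
  refine orderOf_eq_of_pow_and_pow_div_prime (by norm_num) (by decide +kernel) ?_
  intro q hq hd
  rcases K1_two Nat.prime_three (b := 11) (by norm_num) hq (by norm_num; exact hd) with h | h <;>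
    subst h <;> decide +kernel

private theorem K1_o107 : orderOf (3 : ZMod 107) = 53 := by
  have : Fact (Nat.Prime 53) := ⟨by norm_num⟩
  exact orderOf_eq_prime (by decide +kernel) (by decide +kernel)

private theorem K1_o163 : orderOf (41 : ZMod 163) = 81 := by
  refine orderOf_eq_of_pow_and_pow_div_prime (by norm_num) (by decide +kernel) ?_
  intro q hq hd
  have h3 : q ∣ 3 ^ 4 := by norm_num; exact hd
  have h := (Nat.prime_dvd_prime_iff_eq hq Nat.prime_three).1 (hq.dvd_of_dvd_pow h3)
  subst h
  decide +kernel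

private theorem K1_o499 : orderOf (5 : ZMod 499) = 249 := by
  refine orderOf_eq_of_pow_and_pow_div_prime (by norm_num) (by decide +kernel) ?_
  intro q hq hd
  rcases K1_two Nat.prime_three (b := 83) (by norm_num) hq (by norm_num; exact hd) with h | h <;>
    subst h <;> decide +kernel

theorem isB_11 : orderOf (3 : ZMod 11) = 5 ∧ IsB 3 11 5 2 := by
  refine ⟨K1_o11, K1_gen (v := 22) (by norm_num) ?_ ?_ (by decide +kernel) (by norm_num) ?_
    (by norm_num) (by norm_num) (Or.inl (by norm_num))⟩
  · decide +kernel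
  · exact K1_o11.symm
  · rw [K1_L 3 11 5 (by norm_num)]
    decide +kernel

theorem isB_19 : orderOf (5 : ZMod 19) = 9 ∧ IsB 5 19 9 4 := by
  refine ⟨K1_o19, K1_gen (v := 76) (by norm_num) ?_ ?_ (by decide +kernel) (by norm_num) ?_
    (by norm_num) (by norm_num) (Or.inl (by norm_num))⟩
  · decide +kernel
  · exact K1_o19.symm
  · rw [K1_L 5 19 9 (by norm_num)]
    decide +kernel

theorem isB_67 : orderOf (17 : ZMod 67) = 33 ∧ IsB 17 67 33 16 := by
  refine ⟨K1_o67, K1_gen (v := 1072) (by norm_num) ?_ ?_ (by decide +kernel) (by norm_num) ?_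
    (by norm_num) (by norm_num) (Or.inl (by norm_num))⟩
  · decide +kernel
  · exact K1_o67.symm
  · rw [K1_L 17 67 33 (by norm_num)]
    decide +kernel

theorem isB_107 : orderOf (3 : ZMod 107) = 53 ∧ IsB 3 107 53 25 := by
  refine ⟨K1_o107, K1_gen (v := 2675) (by norm_num) ?_ ?_ (by decide +kernel) (by norm_num) ?_
    (by norm_num) (by norm_num) (Or.inl (by norm_num))⟩
  · decide +kernel
  · exact K1_o107.symm
  · rw [K1_L 3 107 53 (by norm_num)]
    decide +kernel

theorem isB_163 : orderOf (41 : ZMod 163) = 81 ∧ IsB 41 163 81 40 := by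
  refine ⟨K1_o163, K1_gen (v := 6520) (by norm_num) ?_ ?_ (by decide +kernel) (by norm_num) ?_
    (by norm_num) (by norm_num) (Or.inl (by norm_num))⟩
  · decide +kernel
  · exact K1_o163.symm
  · rw [K1_L 41 163 81 (by norm_num)]
    decide +kernel

theorem isB_499 : orderOf (5 : ZMod 499) = 249 ∧ IsB 5 499 249 123 := by
  refine ⟨K1_o499, K1_gen (v := 61377) (by norm_num) ?_ ?_ (by decide +kernel) (by norm_num) ?_
    (by norm_num) (by norm_num) (Or.inl (by norm_num))⟩
  · decide +kernel
  · exact K1_o499.symm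
  · rw [K1_L 5 499 249 (by norm_num)]
    decide +kernel

end Pool.Agent.LibNF95
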