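import Pool.Agent.LibNF95.Defs

/-!
ROW P2 (MEDIUM). The sum of `‖1 - χ 2‖²` over the odd characters which are trivial at `p`.

PLAN. `[χ p = 1] = (1/f) ∑_{i < f} χ(p)^i` (`χ(p)^f = 1`), `[χ(-1) = -1] = (1 - χ(-1))/2`, `‖1 - χ 2‖² = 2 - χ 2 - χ 2⁻¹` (`‖χ 2‖ = 1`).
Expand: `(1/(2 f)) ∑_i ∑_χ χ(p^i) (1 - χ(-1)) (2 - χ 2 - χ 2⁻¹)`, and `∑_χ χ a = (N - 1) [a = 1]`
(`DirichletCharacter.sum_characters_eq`, `φ(N) = N - 1`). The terms: `a = p^i` (`= 1` for `i = 0` only or more often, the coefficient `+2` is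
positive: keep `i = 0`), `a = 2 p^i`, `p^i / 2` (never `1`: `2` would be a power of `p`, but `p = (p^((f+1)/2))²` is a square and `2` is a non-residue for
`N ≡ 3, 5 mod 8`, `ZMod.exists_sq_eq_two_iff`), `a = -p^i` (never `1`: `(-1)^f = -1 ≠ 1`), `a = ∓ 2 p^i..` with coefficient `+1` (`≥ 0`).
So the sum is at least `(1/(2 f)) * 2 * (N - 1)`.
-/

set_option autoImplicit false

open Finset Complex DirichletCharacter

namespace Pool.Agent.LibNF95

private noncomputable def P2_E (N : ℕ) (a : ZMod N) : ℝ := if a = 1 then ((N : ℝ) - 1) else 0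

private theorem P2_sum {N : ℕ} [Fact N.Prime] (a : ZMod N) :
    ∑ χ : DirichletCharacter ℂ N, χ a = ((P2_E N a : ℝ) : ℂ) := by
  rw [DirichletCharacter.sum_characters_eq]
  unfold P2_E
  have hp : N.Prime := Fact.out
  split_ifs
  · rw [Nat.totient_prime hp, Nat.cast_sub hp.one_lt.le]
    push_cast
    ring
  · simp

private theorem P2_geom {x : ℂ} {f : ℕ} (hx : x ^ f = 1) :
    ∑ i ∈ range f, x ^ i = if x = 1 then (f : ℂ) else 0 := by
  split_ifs with h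
  · subst h
    simp
  · have h1 := mul_geom_sum x f
    rw [hx, sub_self] at h1
    rcases mul_eq_zero.mp h1 with h2 | h2
    · exact absurd (sub_eq_zero.mp h2) h
    · exact h2

private theorem P2_pt {p N f : ℕ} [Fact N.Prime] (hN : N ≠ 2) (hf : (p : ZMod N) ^ f = 1)
    (hf0 : 0 < f) (χ : DirichletCharacter ℂ N) :
    (((if χ (p : ZMod N) = 1 ∧ χ (-1) = -1 then ‖1 - χ 2‖ ^ 2 else 0 : ℝ)) : ℂ) =
      (1 / (2 * (f : ℂ))) * ∑ i ∈ range f,
        (2 * χ ((p : ZMod N) ^ i) - χ (2 * (p : ZMod N) ^ i) - χ (2⁻¹ * (p : ZMod N) ^ i)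
          - 2 * χ (-((p : ZMod N) ^ i)) + χ (-(2 * (p : ZMod N) ^ i))
          + χ (-(2⁻¹ * (p : ZMod N) ^ i))) := by
  have hp : N.Prime := Fact.out
  have h2 : (2 : ZMod N) ≠ 0 := by
    intro h
    have h3 : ((2 : ℕ) : ZMod N) = 0 := by exact_mod_cast h
    rw [ZMod.natCast_eq_zero_iff] at h3
    have := (Nat.prime_dvd_prime_iff_eq hp Nat.prime_two).mp h3
    exact hN this
  have hu2 : IsUnit (2 : ZMod N) := isUnit_iff_ne_zero.mpr h2
  have hn2 : ‖χ 2‖ = 1 := by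
    obtain ⟨u, hu⟩ := hu2
    rw [← hu]
    exact DirichletCharacter.unit_norm_eq_one χ u
  have hinv : χ (2⁻¹ : ZMod N) = (starRingEnd ℂ) (χ 2) := by
    have h3 : χ (2⁻¹ : ZMod N) * χ 2 = 1 := by
      rw [← map_mul, inv_mul_cancel₀ h2, map_one]
    have h4 : (starRingEnd ℂ) (χ 2) * χ 2 = 1 := by
      rw [mul_comm, Complex.mul_conj, Complex.normSq_eq_norm_sq, hn2]
      norm_num
    have h5 : χ 2 ≠ 0 := by
      intro h
      rw [h, norm_zero] at hn2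
      norm_num at hn2
    exact mul_right_cancel₀ h5 (h3.trans h4.symm)
  have hneg : χ (-1) = 1 ∨ χ (-1) = -1 := by
    have h3 : χ (-1) * χ (-1) = 1 := by
      rw [← map_mul]
      simp
    exact mul_self_eq_one_iff.mp h3
  have hxf : (χ (p : ZMod N)) ^ f = 1 := by
    rw [← map_pow, hf, map_one]
  have hterm : ∀ i ∈ range f,
      (2 * χ ((p : ZMod N) ^ i) - χ (2 * (p : ZMod N) ^ i) - χ (2⁻¹ * (p : ZMod N) ^ i)
          - 2 * χ (-((p : ZMod N) ^ i)) + χ (-(2 * (p : ZMod N) ^ i))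
          + χ (-(2⁻¹ * (p : ZMod N) ^ i))) =
        (χ (p : ZMod N)) ^ i * ((1 - χ (-1)) * (2 - χ 2 - χ (2⁻¹ : ZMod N))) := by
    intro i _
    have e1 : χ (-((p : ZMod N) ^ i)) = χ (-1) * (χ (p : ZMod N)) ^ i := by
      rw [← map_pow, ← map_mul]; congr 1; ring
    have e2 : χ (-(2 * (p : ZMod N) ^ i)) = χ (-1) * χ 2 * (χ (p : ZMod N)) ^ i := by
      rw [← map_pow, ← map_mul, ← map_mul]; congr 1; ring
    have e3 : χ (-(2⁻¹ * (p : ZMod N) ^ i)) = χ (-1) * χ (2⁻¹ : ZMod N) * (χ (p : ZMod N)) ^ i := by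
      rw [← map_pow, ← map_mul, ← map_mul]; congr 1; ring
    rw [e1, e2, e3, map_mul, map_mul, map_pow]
    ring
  rw [Finset.sum_congr rfl hterm, ← Finset.sum_mul, P2_geom hxf]
  have hf0' : (f : ℂ) ≠ 0 := by exact_mod_cast hf0.ne'
  have hnorm : ((‖1 - χ 2‖ ^ 2 : ℝ) : ℂ) = 2 - χ 2 - (starRingEnd ℂ) (χ 2) := by
    have h3 : ((‖1 - χ 2‖ ^ 2 : ℝ) : ℂ) = (1 - χ 2) * (starRingEnd ℂ) (1 - χ 2) := by
      rw [Complex.mul_conj, Complex.normSq_eq_norm_sq]
    have h4 : χ 2 * (starRingEnd ℂ) (χ 2) = 1 := by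
      rw [Complex.mul_conj, Complex.normSq_eq_norm_sq, hn2]
      norm_num
    rw [h3, map_sub, map_one]
    linear_combination h4
  by_cases hx : χ (p : ZMod N) = 1
  · rcases hneg with hm | hm
    · have hne : ¬ (χ (-1) = -1) := by
        rw [hm]
        norm_num
      rw [if_neg (fun h => hne h.2), if_pos hx, hm]
      simp
    · rw [if_pos ⟨hx, hm⟩, if_pos hx, hm, hnorm, hinv]
      field_simp
      ring
  · rw [if_neg (fun h => hx h.1), if_neg hx]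
    simp

theorem sum_odd_lower {p N f : ℕ} [Fact N.Prime] (hN : N ≠ 2) (h8 : N % 8 = 3 ∨ N % 8 = 5) (hfo : Odd f)
    (hf : (p : ZMod N) ^ f = 1) :
    ((N : ℝ) - 1) / f ≤ ∑ χ : DirichletCharacter ℂ N,
      if χ (p : ZMod N) = 1 ∧ χ (-1) = -1 then ‖1 - χ 2‖ ^ 2 else 0 := by
  have hp : N.Prime := Fact.out
  have hf0 : 0 < f := hfo.pos
  have hN1 : (1 : ℝ) ≤ N := by exact_mod_cast hp.one_lt.le
  have h2 : (2 : ZMod N) ≠ 0 := by
    intro h
    have h3 : ((2 : ℕ) : ZMod N) = 0 := by exact_mod_cast h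
    rw [ZMod.natCast_eq_zero_iff] at h3
    have := (Nat.prime_dvd_prime_iff_eq hp Nat.prime_two).mp h3
    exact hN this
  have hq0 : (p : ZMod N) ≠ 0 := by
    intro h
    rw [h, zero_pow hf0.ne'] at hf
    exact zero_ne_one hf
  -- two is not a square
  have hns : ¬ IsSquare (2 : ZMod N) := by
    rw [ZMod.exists_sq_eq_two_iff hN]
    omega
  have hsq : IsSquare (p : ZMod N) := by
    obtain ⟨m, hm⟩ := hfo
    refine ⟨(p : ZMod N) ^ (m + 1), ?_⟩
    rw [← pow_add]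
    have : m + 1 + (m + 1) = f + 1 := by omega
    rw [this, pow_succ, hf, one_mul]
  have hsqi : ∀ i : ℕ, IsSquare ((p : ZMod N) ^ i) := fun i => hsq.pow i
  have hA : ∀ i : ℕ, (2 * (p : ZMod N) ^ i) ≠ 1 := by
    intro i h
    apply hns
    have h3 : (2 : ZMod N) = ((p : ZMod N) ^ i)⁻¹ := eq_inv_of_mul_eq_one_left h
    rw [h3]
    exact (hsqi i).inv
  have hB : ∀ i : ℕ, (2⁻¹ * (p : ZMod N) ^ i) ≠ 1 := by
    intro i h
    apply hns
    have h3 : (2 : ZMod N) = (p : ZMod N) ^ i := by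
      have := congrArg (fun z => 2 * z) h
      simp only [← mul_assoc, mul_inv_cancel₀ h2, one_mul, mul_one] at this
      exact this.symm
    rw [h3]
    exact hsqi i
  have hC : ∀ i : ℕ, (-((p : ZMod N) ^ i)) ≠ 1 := by
    intro i h
    have h3 : (p : ZMod N) ^ i = -1 := by
      rw [← neg_neg ((p : ZMod N) ^ i), h]
    have h4 : ((p : ZMod N) ^ i) ^ f = 1 := by
      rw [← pow_mul, mul_comm, pow_mul, hf, one_pow]
    rw [h3, hfo.neg_one_pow] at h4
    apply h2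
    have : (1 : ZMod N) + 1 = 0 := by
      nth_rewrite 1 [← h4]
      ring
    rw [← this]
    norm_num
  have hkey : ((∑ χ : DirichletCharacter ℂ N,
      (if χ (p : ZMod N) = 1 ∧ χ (-1) = -1 then ‖1 - χ 2‖ ^ 2 else 0 : ℝ) : ℝ) : ℂ) =
      (((1 / (2 * (f : ℝ))) * ∑ i ∈ range f,
        (2 * P2_E N ((p : ZMod N) ^ i) - P2_E N (2 * (p : ZMod N) ^ i)
          - P2_E N (2⁻¹ * (p : ZMod N) ^ i)
          - 2 * P2_E N (-((p : ZMod N) ^ i)) + P2_E N (-(2 * (p : ZMod N) ^ i))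
          + P2_E N (-(2⁻¹ * (p : ZMod N) ^ i))) : ℝ) : ℂ) := by
    rw [Complex.ofReal_sum]
    rw [Finset.sum_congr rfl (fun χ _ => P2_pt hN hf hf0 χ)]
    rw [← Finset.mul_sum, Finset.sum_comm]
    push_cast
    congr 1
    refine Finset.sum_congr rfl fun i _ => ?_
    rw [Finset.sum_add_distrib, Finset.sum_add_distrib, Finset.sum_sub_distrib,
      Finset.sum_sub_distrib, Finset.sum_sub_distrib, ← Finset.mul_sum, ← Finset.mul_sum]
    rw [P2_sum, P2_sum, P2_sum, P2_sum, P2_sum, P2_sum]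
  have hkey' := Complex.ofReal_injective hkey
  rw [hkey']
  have hEnn : ∀ a : ZMod N, 0 ≤ P2_E N a := by
    intro a
    unfold P2_E
    split_ifs
    · linarith
    · exact le_refl 0
  have hE0 : ∀ a : ZMod N, a ≠ 1 → P2_E N a = 0 := by
    intro a ha
    unfold P2_E
    rw [if_neg ha]
  have hlow : 2 * ((N : ℝ) - 1) ≤ ∑ i ∈ range f,
        (2 * P2_E N ((p : ZMod N) ^ i) - P2_E N (2 * (p : ZMod N) ^ i)
          - P2_E N (2⁻¹ * (p : ZMod N) ^ i)
          - 2 * P2_E N (-((p : ZMod N) ^ i)) + P2_E N (-(2 * (p : ZMod N) ^ i))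
          + P2_E N (-(2⁻¹ * (p : ZMod N) ^ i))) := by
    have hnn : ∀ i ∈ range f, 0 ≤ 
        (2 * P2_E N ((p : ZMod N) ^ i) - P2_E N (2 * (p : ZMod N) ^ i)
          - P2_E N (2⁻¹ * (p : ZMod N) ^ i)
          - 2 * P2_E N (-((p : ZMod N) ^ i)) + P2_E N (-(2 * (p : ZMod N) ^ i))
          + P2_E N (-(2⁻¹ * (p : ZMod N) ^ i))) := by
      intro i _
      rw [hE0 _ (hA i), hE0 _ (hB i), hE0 _ (hC i)]
      have a1 := hEnn ((p : ZMod N) ^ i)
      have a2 := hEnn (-(2 * (p : ZMod N) ^ i))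
      have a3 := hEnn (-(2⁻¹ * (p : ZMod N) ^ i))
      linarith
    refine le_trans ?_ (Finset.single_le_sum hnn (Finset.mem_range.mpr hf0))
    rw [hE0 _ (hA 0), hE0 _ (hB 0), hE0 _ (hC 0)]
    have a2 := hEnn (-(2 * (p : ZMod N) ^ 0))
    have a3 := hEnn (-(2⁻¹ * (p : ZMod N) ^ 0))
    have a1 : P2_E N ((p : ZMod N) ^ 0) = (N : ℝ) - 1 := by
      unfold P2_E
      rw [pow_zero, if_pos rfl]
    rw [a1]
    linarith
  have hfpos : (0 : ℝ) < f := by exact_mod_cast hf0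
  calc ((N : ℝ) - 1) / f = (1 / (2 * (f : ℝ))) * (2 * ((N : ℝ) - 1)) := by
        field_simp
    _ ≤ _ := mul_le_mul_of_nonneg_left hlow (by positivity)

end Pool.Agent.LibNF95
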