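import Pool.Agent.LibNF95.P1
import Pool.Agent.LibNF95.P2
import Pool.Agent.LibNF95.F3

/-!
ROW P3 (SHORT). Lower bound for the energy (cites P1, P2, F3 as stated).

PLAN. `parseval` for `T` (`T p N f 0 = 0`: `valMinAbs 0 = 0`), drop all characters except the odd ones with `χ p = 1`; for these
`‖∑ χ T‖ = f ‖bb χ‖ = f ‖1 - χ 2‖ ‖B1 χ‖ ≥ f ‖1 - χ 2‖ m` (`χ(-1) = -1` is `χ.Odd`); `sum_odd_lower`:
`(N - 1) ∑ T² ≥ f² m² (N - 1)/f`.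
-/

set_option autoImplicit false

open Finset Complex DirichletCharacter

namespace Pool.Agent.LibNF95

theorem energy_lower {p N f : ℕ} [Fact N.Prime] (hN : N ≠ 2) (h8 : N % 8 = 3 ∨ N % 8 = 5) (hfo : Odd f)
    (hp : (p : ZMod N) ≠ 0) (hf : (p : ZMod N) ^ f = 1) {m : ℝ} (hm : 0 ≤ m)
    (hB : ∀ χ : DirichletCharacter ℂ N, χ.Odd → m ≤ ‖B1 χ‖) :
    (f : ℝ) * m ^ 2 ≤ ∑ s : ZMod N, T p N f s ^ 2 := by
  have hf0 : 0 < f := hfo.pos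
  have hf0r : (0 : ℝ) < f := by exact_mod_cast hf0
  have hN1 : (0 : ℝ) < (N : ℝ) - 1 := by
    have h1 : 1 < N := (Fact.out : N.Prime).one_lt
    have h2 : (1 : ℝ) < N := by exact_mod_cast h1
    linarith
  have hT0 : T p N f 0 = 0 := by
    unfold T g
    simp
  have h1 := parseval (T p N f) hT0
  have h2 : ∀ χ : DirichletCharacter ℂ N,
      (f : ℝ) ^ 2 * m ^ 2 * (if χ (p : ZMod N) = 1 ∧ χ (-1) = -1 then ‖1 - χ 2‖ ^ 2 else 0) ≤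
        ‖∑ s : ZMod N, χ s * ((T p N f s : ℝ) : ℂ)‖ ^ 2 := by
    intro χ
    by_cases hc : χ (p : ZMod N) = 1 ∧ χ (-1) = -1
    · rw [if_pos hc, sum_chi_T hp hf χ, if_pos hc.1, norm_mul, norm_bb hN χ, Complex.norm_natCast]
      have h3 : m ≤ ‖B1 χ‖ := hB χ hc.2
      have h4 : (f : ℝ) * (‖1 - χ 2‖ * m) ≤ (f : ℝ) * (‖1 - χ 2‖ * ‖B1 χ‖) :=
        mul_le_mul_of_nonneg_left (mul_le_mul_of_nonneg_left h3 (norm_nonneg _)) hf0r.le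
      have h5 : 0 ≤ (f : ℝ) * (‖1 - χ 2‖ * m) := by positivity
      calc (f : ℝ) ^ 2 * m ^ 2 * ‖1 - χ 2‖ ^ 2 = ((f : ℝ) * (‖1 - χ 2‖ * m)) ^ 2 := by ring
        _ ≤ _ := pow_le_pow_left₀ h5 h4 2
    · rw [if_neg hc, mul_zero]
      positivity
  have h3 := Finset.sum_le_sum fun (χ : DirichletCharacter ℂ N) (_ : χ ∈ Finset.univ) => h2 χ
  rw [← Finset.mul_sum, h1] at h3
  have h4 := sum_odd_lower (p := p) hN h8 hfo hf
  have h5 : (f : ℝ) ^ 2 * m ^ 2 * (((N : ℝ) - 1) / f) ≤ ((N : ℝ) - 1) * ∑ s : ZMod N, T p N f s ^ 2 :=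
    (mul_le_mul_of_nonneg_left h4 (by positivity)).trans h3
  have h6 : (f : ℝ) ^ 2 * m ^ 2 * (((N : ℝ) - 1) / f) = ((N : ℝ) - 1) * ((f : ℝ) * m ^ 2) := by
    field_simp
  rw [h6] at h5
  exact le_of_mul_le_mul_left h5 hN1

end Pool.Agent.LibNF95
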