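import Pool.Agent.LibNF95.Defs

/-!
ROW U1 (MEDIUM/STRONG). Finite Fourier expansion of the sawtooth, with small total mass.

PLAN. `ĝ c = (1/N) ∑_x g x * stdAddChar (-(c * x))`; inversion from orthogonality of the additive characters
(`AddChar.sum_mulShift` or `ZMod.dft`). `ĝ 0 = 0` (`g (-x) = - g x` for `x ≠ 0`, `N` odd). For `c ≠ 0`: `g x - g (x - 1) = 1/N` except at one `x₀`
(`x₀ = (N+1)/2`, where it is `1/N - 1`), so `ĝ c * (1 - stdAddChar (-c)) = (1/N) (0 - stdAddChar (-(c x₀)))`, `‖ĝ c‖ = 1 / (N ‖1 - stdAddChar (-c)‖)`,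
and `‖1 - e^(iθ)‖ = 2 |sin (θ/2)| ≥ 4 |c'| / N`, `c' = c.valMinAbs` (`sin x ≥ 2x/π`: `Real.mul_le_sin`). So `‖ĝ c‖ ≤ 1 / (4 |c'|)`,
`∑_c ≤ 2 ∑_{j ≤ N/2} 1/(4 j) ≤ (1/2)(1 + log N)` (`harmonic_le_one_add_log`).
-/

set_option autoImplicit false

open Finset Complex

namespace Pool.Agent.LibNF95

private theorem U1_diff {k : ℕ} [NeZero (2 * k + 1)] (x : ZMod (2 * k + 1)) :
    g x - g (x - 1) = 1 / ((2 * k + 1 : ℕ) : ℝ) - (if x = -(k : ZMod (2 * k + 1)) then 1 else 0) := by
  have hN : (0 : ℝ) < ((2 * k + 1 : ℕ) : ℝ) := by positivity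
  have hm := ZMod.valMinAbs_mem_Ioc x
  have hx := ZMod.coe_valMinAbs x
  have hiff : x.valMinAbs = -(k : ℤ) ↔ x = -(k : ZMod (2 * k + 1)) := by
    rw [ZMod.valMinAbs_spec]
    constructor
    · intro h
      rw [h.1]; push_cast; rfl
    · intro h
      refine ⟨by rw [h]; push_cast; rfl, ?_⟩
      constructor <;> push_cast <;> omega
  unfold g
  by_cases h0 : x = -(k : ZMod (2 * k + 1))
  · rw [if_pos h0]
    have h1 := hiff.2 h0
    have h2 : (x - 1).valMinAbs = (k : ℤ) := by
      rw [ZMod.valMinAbs_spec]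
      constructor
      · rw [h0]
        have h3 : ((2 * k + 1 : ℕ) : ZMod (2 * k + 1)) = 0 := ZMod.natCast_self _
        push_cast at h3 ⊢
        linear_combination -h3
      · constructor <;> push_cast <;> omega
    rw [h1, h2]
    field_simp
    push_cast
    ring
  · rw [if_neg h0]
    have h1 : x.valMinAbs ≠ -(k : ℤ) := fun h => h0 (hiff.1 h)
    obtain ⟨ha, hb⟩ := hm
    push_cast at ha hb
    have h2 : (x - 1).valMinAbs = x.valMinAbs - 1 := by
      rw [ZMod.valMinAbs_spec]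
      constructor
      · push_cast
        rfl
      · constructor
        · push_cast; omega
        · push_cast; omega
    rw [h2]
    field_simp
    push_cast
    ring

private theorem U1_neg {N : ℕ} [NeZero N] (hodd : N % 2 = 1) (x : ZMod N) :
    g (-x) = - g x := by
  unfold g
  have : 2 * x.val ≠ N := by omega
  rw [ZMod.valMinAbs_neg_of_ne_half this]
  push_cast
  ring

private theorem U1_char {N : ℕ} [NeZero N] (c : ZMod N) (hc : c ≠ 0) :
    4 * |(c.valMinAbs : ℝ)| / N ≤ ‖ZMod.stdAddChar (N := N) (-c) - 1‖ := by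
  have hN : (0 : ℝ) < (N : ℝ) := by exact_mod_cast Nat.pos_of_ne_zero (NeZero.ne N)
  have h1 : (-c : ZMod N) = ((-c.valMinAbs : ℤ) : ZMod N) := by
    push_cast
    rfl
  have h2 : ZMod.stdAddChar (N := N) (-c)
      = Complex.exp (Complex.I * ((-(2 * Real.pi * (c.valMinAbs : ℝ) / N) : ℝ) : ℂ)) := by
    rw [h1, ZMod.stdAddChar_coe]
    congr 1
    push_cast
    ring
  rw [h2, Complex.norm_exp_I_mul_ofReal_sub_one, Real.norm_eq_abs, abs_mul]
  have hm := ZMod.valMinAbs_mem_Ioc c
  obtain ⟨ha, hb⟩ := hm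
  have ha' : -(N : ℝ) < (c.valMinAbs : ℝ) * 2 := by exact_mod_cast ha
  have hb' : (c.valMinAbs : ℝ) * 2 ≤ (N : ℝ) := by exact_mod_cast hb
  have habs : |(c.valMinAbs : ℝ)| ≤ N / 2 := by
    rw [abs_le]; constructor <;> linarith
  have hpi := Real.pi_pos
  have e1 : -(2 * Real.pi * (c.valMinAbs : ℝ) / N) / 2 = -(Real.pi * (c.valMinAbs : ℝ) / N) := by
    ring
  rw [e1]
  have e2 : |-(Real.pi * (c.valMinAbs : ℝ) / N)| = Real.pi * |(c.valMinAbs : ℝ)| / N := by
    rw [abs_neg, abs_div, abs_mul, abs_of_pos hpi, abs_of_pos hN]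
  have h3 : |-(Real.pi * (c.valMinAbs : ℝ) / N)| ≤ Real.pi / 2 := by
    rw [e2, div_le_div_iff₀ hN (by norm_num)]
    nlinarith [abs_nonneg (c.valMinAbs : ℝ)]
  have h4 := Real.mul_abs_le_abs_sin h3
  rw [e2] at h4
  have h5 : 2 / Real.pi * (Real.pi * |(c.valMinAbs : ℝ)| / N) = 2 * |(c.valMinAbs : ℝ)| / N := by
    field_simp
  rw [h5] at h4
  have h6 : |(2 : ℝ)| = 2 := abs_of_pos (by norm_num)
  rw [h6]
  have h7 : 4 * |(c.valMinAbs : ℝ)| / N = 2 * (2 * |(c.valMinAbs : ℝ)| / N) := by ring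
  rw [h7]
  exact mul_le_mul_of_nonneg_left h4 (by norm_num)

private theorem U1_sum {N : ℕ} [NeZero N] :
    ∑ c ∈ (Finset.univ : Finset (ZMod N)).erase 0, 1 / (c.val : ℝ) ≤ 1 + Real.log N := by
  have hN : 0 < N := Nat.pos_of_ne_zero (NeZero.ne N)
  have h1 : ∑ c ∈ (Finset.univ : Finset (ZMod N)).erase 0, 1 / (c.val : ℝ)
      = ∑ i ∈ Finset.range (N - 1), 1 / ((i + 1 : ℕ) : ℝ) := by
    refine Finset.sum_nbij' (fun c => c.val - 1) (fun i => ((i + 1 : ℕ) : ZMod N)) ?_ ?_ ?_ ?_ ?_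
    · intro c hc
      rw [Finset.mem_erase] at hc
      have h2 := ZMod.val_lt c
      have h3 : c.val ≠ 0 := by
        rw [Ne, ZMod.val_eq_zero]; exact hc.1
      rw [Finset.mem_range]
      omega
    · intro i hi
      rw [Finset.mem_range] at hi
      rw [Finset.mem_erase]
      refine ⟨?_, Finset.mem_univ _⟩
      intro h
      have h2 := congrArg ZMod.val h
      rw [ZMod.val_natCast_of_lt (by omega), ZMod.val_zero] at h2
      omega
    · intro c hc
      rw [Finset.mem_erase] at hc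
      have h3 : c.val ≠ 0 := by
        rw [Ne, ZMod.val_eq_zero]; exact hc.1
      have h4 : c.val - 1 + 1 = c.val := by omega
      change ((c.val - 1 + 1 : ℕ) : ZMod N) = c
      rw [h4, ZMod.natCast_zmod_val]
    · intro i hi
      rw [Finset.mem_range] at hi
      rw [ZMod.val_natCast_of_lt (by omega)]
      omega
    · intro c hc
      rw [Finset.mem_erase] at hc
      have h3 : c.val ≠ 0 := by
        rw [Ne, ZMod.val_eq_zero]; exact hc.1
      have h4 : c.val - 1 + 1 = c.val := by omega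
      change 1 / (c.val : ℝ) = 1 / ((c.val - 1 + 1 : ℕ) : ℝ)
      rw [h4]
  rw [h1]
  have h2 : ∑ i ∈ Finset.range (N - 1), 1 / ((i + 1 : ℕ) : ℝ) = ((harmonic (N - 1) : ℚ) : ℝ) := by
    unfold harmonic
    push_cast
    refine Finset.sum_congr rfl fun i _ => ?_
    rw [one_div]
  rw [h2]
  refine (harmonic_le_one_add_log (N - 1)).trans ?_
  rcases Nat.eq_zero_or_pos (N - 1) with h0 | h0
  · rw [h0]
    have : 0 ≤ Real.log N := Real.log_nonneg (by exact_mod_cast hN)
    simpa using this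
  · have : Real.log ((N - 1 : ℕ) : ℝ) ≤ Real.log (N : ℝ) := by
      apply Real.log_le_log
      · exact_mod_cast h0
      · exact_mod_cast Nat.sub_le N 1
    linarith

theorem g_fourier {N : ℕ} [Fact N.Prime] (hN : N ≠ 2) : ∃ G : ZMod N → ℂ,
    (∀ x : ZMod N, ((g x : ℝ) : ℂ) = ∑ c : ZMod N, G c * ZMod.stdAddChar (c * x)) ∧
      ∑ c : ZMod N, ‖G c‖ ≤ 1 + Real.log N := by
  classical
  have hp : N.Prime := Fact.out
  have hodd : N % 2 = 1 := by
    rcases hp.eq_two_or_odd with h | h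
    · exact absurd h hN
    · exact h
  obtain ⟨k, hk⟩ : ∃ k, N = 2 * k + 1 := ⟨N / 2, by omega⟩
  have : NeZero N := ⟨hp.ne_zero⟩
  have hNC : (N : ℂ) ≠ 0 := by exact_mod_cast hp.ne_zero
  have hNR : (0 : ℝ) < (N : ℝ) := by exact_mod_cast hp.pos
  have hprim := ZMod.isPrimitive_stdAddChar N
  -- the Fourier sum
  let S : ZMod N → ℂ := fun c => ∑ x : ZMod N, ((g x : ℝ) : ℂ) * ZMod.stdAddChar (-(c * x))
  refine ⟨fun c => (N : ℂ)⁻¹ * S c, ?_, ?_⟩
  · intro x
    have h1 : ∀ y : ZMod N, ∑ c : ZMod N, ZMod.stdAddChar (N := N) (c * (x - y))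
        = if x = y then (N : ℂ) else 0 := by
      intro y
      rw [AddChar.sum_mulShift (x - y) hprim, ZMod.card]
      by_cases h : x = y
      · rw [if_pos h, if_pos (sub_eq_zero.2 h)]
      · rw [if_neg h, if_neg (fun h' => h (sub_eq_zero.1 h'))]
        simp
    have h2 : ∑ c : ZMod N, (N : ℂ)⁻¹ * S c * ZMod.stdAddChar (c * x)
        = (N : ℂ)⁻¹ * ∑ y : ZMod N, ((g y : ℝ) : ℂ)
            * ∑ c : ZMod N, ZMod.stdAddChar (N := N) (c * (x - y)) := by
      rw [Finset.mul_sum]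
      simp only [S, Finset.mul_sum, Finset.sum_mul]
      rw [Finset.sum_comm]
      refine Finset.sum_congr rfl fun y _ => Finset.sum_congr rfl fun c _ => ?_
      have : ZMod.stdAddChar (N := N) (c * (x - y))
          = ZMod.stdAddChar (-(c * y)) * ZMod.stdAddChar (c * x) := by
        rw [← AddChar.map_add_eq_mul]
        congr 1
        ring
      rw [this]
      ring
    rw [h2]
    simp only [h1]
    simp only [mul_ite, mul_zero, Finset.sum_ite_eq, Finset.mem_univ, if_true]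
    field_simp
  · have hS0 : S 0 = 0 := by
      have h1 : S 0 = ∑ x : ZMod N, ((g x : ℝ) : ℂ) := by
        simp [S]
      have h2 : ∑ x : ZMod N, ((g x : ℝ) : ℂ) = - ∑ x : ZMod N, ((g x : ℝ) : ℂ) := by
        conv_lhs => rw [← Equiv.sum_comp (Equiv.neg (ZMod N))]
        rw [← Finset.sum_neg_distrib]
        refine Finset.sum_congr rfl fun x _ => ?_
        rw [Equiv.neg_apply, U1_neg hodd]
        push_cast
        ring
      rw [h1]
      have h3 : (2 : ℂ) * ∑ x : ZMod N, ((g x : ℝ) : ℂ) = 0 := by linear_combination h2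
      rcases mul_eq_zero.1 h3 with h | h
      · norm_num at h
      · exact h
    have hS : ∀ c : ZMod N, c ≠ 0 → ‖S c‖ * ‖ZMod.stdAddChar (N := N) (-c) - 1‖ = 1 := by
      intro c hc
      have hshift : ∑ x : ZMod N, ((g (x - 1) : ℝ) : ℂ) * ZMod.stdAddChar (-(c * x))
          = ZMod.stdAddChar (-c) * S c := by
        rw [← Equiv.sum_comp (Equiv.addRight (1 : ZMod N)), Finset.mul_sum]
        refine Finset.sum_congr rfl fun x _ => ?_
        rw [Equiv.coe_addRight, add_sub_cancel_right]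
        have : ZMod.stdAddChar (N := N) (-(c * (x + 1)))
            = ZMod.stdAddChar (-c) * ZMod.stdAddChar (-(c * x)) := by
          rw [← AddChar.map_add_eq_mul]
          congr 1
          ring
        rw [this]
        ring
      have h0 : ∑ x : ZMod N, ZMod.stdAddChar (N := N) (-(c * x)) = 0 := by
        have h1 := AddChar.sum_mulShift (-c) hprim
        rw [if_neg (neg_ne_zero.2 hc)] at h1
        rw [← Nat.cast_zero, ← h1]
        refine Finset.sum_congr rfl fun x _ => ?_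
        congr 1
        ring
      obtain ⟨x₀, hx₀⟩ : ∃ x₀ : ZMod N, ∀ x : ZMod N,
          g x - g (x - 1) = 1 / (N : ℝ) - (if x = x₀ then 1 else 0) := by
        subst hk
        exact ⟨-(k : ZMod (2 * k + 1)), fun x => U1_diff x⟩
      have h1 : S c - ZMod.stdAddChar (-c) * S c = - ZMod.stdAddChar (-(c * x₀)) := by
        rw [← hshift]
        simp only [S]
        rw [← Finset.sum_sub_distrib]
        have h2 : ∀ x : ZMod N, ((g x : ℝ) : ℂ) * ZMod.stdAddChar (-(c * x))
              - ((g (x - 1) : ℝ) : ℂ) * ZMod.stdAddChar (-(c * x))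
            = (1 / (N : ℂ)) * ZMod.stdAddChar (-(c * x))
              - (if x = x₀ then ZMod.stdAddChar (N := N) (-(c * x)) else 0) := by
          intro x
          rw [← sub_mul, ← Complex.ofReal_sub, hx₀ x]
          by_cases h : x = x₀
          · rw [if_pos h, if_pos h]; push_cast; ring
          · rw [if_neg h, if_neg h]; push_cast; ring
        rw [Finset.sum_congr rfl fun x _ => h2 x, Finset.sum_sub_distrib, ← Finset.mul_sum, h0]
        simp
      have h2 : S c * (ZMod.stdAddChar (N := N) (-c) - 1) = ZMod.stdAddChar (-(c * x₀)) := by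
        linear_combination -h1
      rw [← norm_mul, h2]
      rw [ZMod.stdAddChar_apply]
      exact Circle.norm_coe _
    have hb : ∀ c ∈ (Finset.univ : Finset (ZMod N)).erase 0, ‖(N : ℂ)⁻¹ * S c‖
        ≤ 1 / 4 * (1 / (c.val : ℝ) + 1 / ((-c).val : ℝ)) := by
      intro c hc
      have hc0 : c ≠ 0 := (Finset.mem_erase.1 hc).1
      have hv : 0 < c.val := Nat.pos_of_ne_zero (by rw [Ne, ZMod.val_eq_zero]; exact hc0)
      have hvn : 0 < (-c).val :=
        Nat.pos_of_ne_zero (by rw [Ne, ZMod.val_eq_zero]; exact neg_ne_zero.2 hc0)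
      have hvR : (0 : ℝ) < (c.val : ℝ) := by exact_mod_cast hv
      have hvnR : (0 : ℝ) < ((-c).val : ℝ) := by exact_mod_cast hvn
      have hm : 0 < |(c.valMinAbs : ℝ)| := by
        rw [abs_pos]
        exact_mod_cast fun h => hc0 ((ZMod.valMinAbs_eq_zero c).1 h)
      have h1 := U1_char c hc0
      have h2 := hS c hc0
      have h3 : 0 < 4 * |(c.valMinAbs : ℝ)| / N := by positivity
      have h4 : ‖S c‖ ≤ 1 / (4 * |(c.valMinAbs : ℝ)| / N) := by
        rw [le_div_iff₀ h3, ← h2]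
        exact mul_le_mul_of_nonneg_left h1 (norm_nonneg _)
      have h5 : ‖(N : ℂ)⁻¹ * S c‖ ≤ 1 / 4 * (1 / |(c.valMinAbs : ℝ)|) := by
        rw [norm_mul, norm_inv, Complex.norm_natCast]
        calc (N : ℝ)⁻¹ * ‖S c‖ ≤ (N : ℝ)⁻¹ * (1 / (4 * |(c.valMinAbs : ℝ)| / N)) :=
              mul_le_mul_of_nonneg_left h4 (by positivity)
          _ = 1 / 4 * (1 / |(c.valMinAbs : ℝ)|) := by field_simp
      refine h5.trans (mul_le_mul_of_nonneg_left ?_ (by norm_num))
      have h6 : |(c.valMinAbs : ℝ)| = ((min c.val (N - c.val) : ℕ) : ℝ) := by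
        rw [← ZMod.valMinAbs_natAbs_eq_min, Nat.cast_natAbs]
        push_cast
        rfl
      have h7 : (-c).val = N - c.val := by
        rw [ZMod.neg_val, if_neg hc0]
      rw [h6]
      rcases le_total c.val (N - c.val) with h | h
      · rw [min_eq_left h]
        have : 0 ≤ 1 / ((-c).val : ℝ) := by positivity
        linarith
      · rw [min_eq_right h, h7]
        have : 0 ≤ 1 / (c.val : ℝ) := by positivity
        linarith
    have hneg : ∑ c ∈ (Finset.univ : Finset (ZMod N)).erase 0, 1 / ((-c).val : ℝ)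
        = ∑ c ∈ (Finset.univ : Finset (ZMod N)).erase 0, 1 / (c.val : ℝ) := by
      refine Finset.sum_nbij' (fun c => -c) (fun c => -c) ?_ ?_ ?_ ?_ ?_
      · intro c hc
        rw [Finset.mem_erase] at hc ⊢
        exact ⟨neg_ne_zero.2 hc.1, Finset.mem_univ _⟩
      · intro c hc
        rw [Finset.mem_erase] at hc ⊢
        exact ⟨neg_ne_zero.2 hc.1, Finset.mem_univ _⟩
      · intro c _
        exact neg_neg c
      · intro c _
        exact neg_neg c
      · intro c _
        rfl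
    have hsum := U1_sum (N := N)
    have hlog : 0 ≤ Real.log N := Real.log_nonneg (by exact_mod_cast hp.one_lt.le)
    calc ∑ c : ZMod N, ‖(N : ℂ)⁻¹ * S c‖
        = ‖(N : ℂ)⁻¹ * S 0‖ + ∑ c ∈ (Finset.univ : Finset (ZMod N)).erase 0,
            ‖(N : ℂ)⁻¹ * S c‖ := (Finset.add_sum_erase _ _ (Finset.mem_univ _)).symm
      _ ≤ 0 + ∑ c ∈ (Finset.univ : Finset (ZMod N)).erase 0,
            1 / 4 * (1 / (c.val : ℝ) + 1 / ((-c).val : ℝ)) := by
          apply add_le_add
          · rw [hS0, mul_zero, norm_zero]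
          · exact Finset.sum_le_sum hb
      _ ≤ 1 + Real.log N := by
          rw [zero_add, ← Finset.mul_sum, Finset.sum_add_distrib, hneg]
          linarith

end Pool.Agent.LibNF95
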