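import Pool.Agent.LibNF95.U1
import Pool.Agent.LibNF95.F2

/-!
ROW U2 (SHORT/MEDIUM). Correlations of two sawtooths with a non-trivial character (cites U1 and `norm_gauss` of F2).

PLAN. Insert `g_fourier` for both factors: `∑_{c, d} G c G d ∑_s χ s stdAddChar ((c a + d b) s)`, and for every `u`
`‖∑_s χ s stdAddChar (u s)‖ ≤ √N`: `u = 0`: the sum is `0` (`χ ≠ 1`); `u ≠ 0`: `gaussSum_mulShift`, `‖χ u‖ = 1`, `norm_gauss`.
-/

set_option autoImplicit false

open Finset Complex DirichletCharacter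

namespace Pool.Agent.LibNF95

private theorem U2_twist {N : ℕ} [Fact N.Prime] {χ : DirichletCharacter ℂ N} (hχ : χ ≠ 1) (u : ZMod N) :
    ‖∑ s : ZMod N, χ s * ZMod.stdAddChar (u * s)‖ ≤ √N := by
  by_cases hu : u = 0
  · subst hu
    have h0 : ∑ s : ZMod N, χ s * ZMod.stdAddChar ((0 : ZMod N) * s) = 0 := by
      have h := MulChar.sum_eq_zero_of_ne_one hχ
      simpa using h
    rw [h0, norm_zero]
    exact Real.sqrt_nonneg _
  · obtain ⟨v, rfl⟩ := isUnit_iff_ne_zero.mpr hu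
    have h1 := gaussSum_mulShift χ (ZMod.stdAddChar (N := N)) v
    have h2 : ‖χ (v : ZMod N)‖ = 1 := DirichletCharacter.unit_norm_eq_one χ v
    have h3 : ‖gaussSum χ (AddChar.mulShift (ZMod.stdAddChar (N := N)) (v : ZMod N))‖ = √N := by
      have h4 := congrArg norm h1
      rw [norm_mul, h2, one_mul, norm_gauss hχ] at h4
      exact h4
    have h5 : ∑ s : ZMod N, χ s * ZMod.stdAddChar ((v : ZMod N) * s)
        = gaussSum χ (AddChar.mulShift (ZMod.stdAddChar (N := N)) (v : ZMod N)) := by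
      unfold gaussSum
      refine Finset.sum_congr rfl fun s _ => ?_
      rw [AddChar.mulShift_apply]
    rw [h5, h3]

theorem corr_le {N : ℕ} [Fact N.Prime] (hN : N ≠ 2) {χ : DirichletCharacter ℂ N} (hχ : χ ≠ 1) (a b : ZMod N) :
    ‖∑ s : ZMod N, χ s * ((g (a * s) * g (b * s) : ℝ) : ℂ)‖ ≤ √N * (1 + Real.log N) ^ 2 := by
  obtain ⟨G, hG, hsum⟩ := g_fourier hN
  have hkey : ∑ s : ZMod N, χ s * ((g (a * s) * g (b * s) : ℝ) : ℂ)
      = ∑ c : ZMod N, ∑ d : ZMod N, (G c * G d) * ∑ s : ZMod N, χ s * ZMod.stdAddChar ((c * a + d * b) * s) := by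
    have h1 : ∀ s : ZMod N, χ s * ((g (a * s) * g (b * s) : ℝ) : ℂ)
        = ∑ c : ZMod N, ∑ d : ZMod N, (G c * G d) * (χ s * ZMod.stdAddChar ((c * a + d * b) * s)) := by
      intro s
      rw [Complex.ofReal_mul, hG (a * s), hG (b * s), Finset.sum_mul_sum, Finset.mul_sum]
      refine Finset.sum_congr rfl fun c _ => ?_
      rw [Finset.mul_sum]
      refine Finset.sum_congr rfl fun d _ => ?_
      have h2 : (c * a + d * b) * s = c * (a * s) + d * (b * s) := by ring
      rw [h2, AddChar.map_add_eq_mul]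
      ring
    rw [Finset.sum_congr rfl fun s _ => h1 s, Finset.sum_comm]
    refine Finset.sum_congr rfl fun c _ => ?_
    rw [Finset.sum_comm]
    refine Finset.sum_congr rfl fun d _ => ?_
    rw [Finset.mul_sum]
  rw [hkey]
  have hS : (0 : ℝ) ≤ ∑ c : ZMod N, ‖G c‖ := Finset.sum_nonneg fun c _ => norm_nonneg _
  calc ‖∑ c : ZMod N, ∑ d : ZMod N, (G c * G d) * ∑ s : ZMod N, χ s * ZMod.stdAddChar ((c * a + d * b) * s)‖
      ≤ ∑ c : ZMod N, ‖∑ d : ZMod N, (G c * G d) * ∑ s : ZMod N, χ s * ZMod.stdAddChar ((c * a + d * b) * s)‖ :=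
        norm_sum_le _ _
    _ ≤ ∑ c : ZMod N, ∑ d : ZMod N, (‖G c‖ * ‖G d‖) * √N := by
        refine Finset.sum_le_sum fun c _ => (norm_sum_le _ _).trans (Finset.sum_le_sum fun d _ => ?_)
        rw [norm_mul, norm_mul]
        exact mul_le_mul_of_nonneg_left (U2_twist hχ _) (by positivity)
    _ = √N * (∑ c : ZMod N, ‖G c‖) ^ 2 := by
        rw [sq, Finset.sum_mul_sum, Finset.mul_sum]
        refine Finset.sum_congr rfl fun c _ => ?_
        rw [Finset.mul_sum]
        refine Finset.sum_congr rfl fun d _ => ?_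
        ring
    _ ≤ √N * (1 + Real.log N) ^ 2 := by
        refine mul_le_mul_of_nonneg_left ?_ (Real.sqrt_nonneg _)
        exact pow_le_pow_left₀ hS hsum 2

end Pool.Agent.LibNF95
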