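import Pool.Agent.LibMaier.LSum

/-!
ROW X1 (MEDIUM/STRONG). Explicit 3-4-1 lower bound for `|L(1, χ)|`, `χ` complex (model: NF95_G1.lean in team-store (row G1, done), `LibSW40/S6.lean`).

PLAN. `ℓ = 4 + log q`. For `1 ≤ σ ≤ 2` and `‖s - σ‖ ≤ 1/ℓ ≤ 1/4`: `s.re ≥ 3/4`, `(1 - s.re) log q ≤ 1`, `‖s‖ / s.re ≤ 5/3`, so for `χ ≠ 1`
(`LibMaier.LT_approx`, `N = q`) `‖L(s, χ)‖ ≤ e (1 + log q) + e (2 + 5/3) ≤ 3.18 ℓ`; Cauchy: `‖L'(σ, χ)‖ ≤ 3.18 ℓ²`, so `‖L(1 + δ, χ) - L(1, χ)‖ ≤ 3.18 ℓ² δ`.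
`‖L(1 + δ, χ²)‖ ≤ 3 + 1 + log q = ℓ`. `‖L(1 + δ, χ₀)‖ ≤ 2/δ`. 3-4-1 (`DirichletCharacter.norm_LSeries_product_ge_one`): `1 ≤ (2/δ)³ ‖L(1+δ, χ)‖⁴ ℓ`.
Take `δ = 1/(4096 ℓ^9)`, suppose `‖L(1, χ)‖ < 1/(4096 ℓ^7)`: then `‖L(1+δ, χ)‖ < 4.18/(4096 ℓ^7)` and
`(2/δ)³ ‖L(1+δ,χ)‖⁴ ℓ ≤ 8 * 4096³ ℓ^27 * (4.18/4096)⁴ ℓ^(-28) * ℓ = 8 * 4.18⁴ / 4096 < 0.6`, a contradiction.
-/

set_option autoImplicit false

open Finset Complex DirichletCharacter

namespace Pool.Agent.LibNF95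

/-- `q^(1/ℓ) ≤ e` for `ℓ = 4 + log q`. -/
private theorem X1_qpow {q : ℕ} [NeZero q] : (q : ℝ) ^ (1 / (4 + Real.log q)) ≤ 2.7183 := by
  have hq0 : 0 < q := Nat.pos_of_ne_zero (NeZero.ne q)
  have hq1 : (1 : ℝ) ≤ q := by exact_mod_cast hq0
  have hqp : (0 : ℝ) < q := by linarith
  have hl : 0 ≤ Real.log q := Real.log_nonneg hq1
  have h1 : (q : ℝ) ^ (1 / (4 + Real.log q)) ≤ Real.exp 1 := by
    rw [Real.rpow_def_of_pos hqp]
    apply Real.exp_le_exp.2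
    rw [mul_one_div, div_le_one (by linarith)]
    linarith
  have h2 := Real.exp_one_lt_d9
  linarith

private theorem X1_sum {q : ℕ} : ∑ n ∈ Finset.Icc 1 q, ((n : ℝ))⁻¹ ≤ 1 + Real.log q := by
  have h8 := harmonic_le_one_add_log q
  rw [harmonic_eq_sum_Icc] at h8
  push_cast at h8
  exact h8

private theorem X1_LT_le {q : ℕ} [NeZero q] (χ : DirichletCharacter ℂ q) {s : ℂ} {r M : ℝ}
    (hr : 0 ≤ r) (hs : 1 - r ≤ s.re) (hM : (q : ℝ) ^ r ≤ M) :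
    ‖Pool.Agent.LibMaier.LT χ q s‖ ≤ M * (1 + Real.log q) := by
  have hq0 : 0 < q := Nat.pos_of_ne_zero (NeZero.ne q)
  have hq1 : (1 : ℝ) ≤ q := by exact_mod_cast hq0
  have hqp : (0 : ℝ) < q := by linarith
  have hM0 : 0 ≤ M := le_trans (by positivity) hM
  have h1 : ‖Pool.Agent.LibMaier.LT χ q s‖ ≤ ∑ n ∈ Finset.Icc 1 q, M * ((n : ℝ))⁻¹ := by
    unfold Pool.Agent.LibMaier.LT
    refine (norm_sum_le _ _).trans (Finset.sum_le_sum fun n hn => ?_)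
    rw [Finset.mem_Icc] at hn
    have hn1 : (1 : ℝ) ≤ n := by exact_mod_cast hn.1
    have hn0 : (0 : ℝ) < n := by linarith
    have hnq : (n : ℝ) ≤ q := by exact_mod_cast hn.2
    rw [norm_mul]
    have h2 : ‖((n : ℕ) : ℂ) ^ (-s)‖ = (n : ℝ) ^ (-s.re) := by
      have h3 := Complex.norm_cpow_eq_rpow_re_of_pos hn0 (-s)
      rw [Complex.neg_re] at h3
      simpa using h3
    rw [h2]
    have h4 : (n : ℝ) ^ (-s.re) ≤ (n : ℝ) ^ (r - 1) :=
      Real.rpow_le_rpow_of_exponent_le hn1 (by linarith)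
    have h5 : (n : ℝ) ^ (r - 1) = (n : ℝ) ^ r * ((n : ℝ))⁻¹ := by
      rw [Real.rpow_sub hn0, Real.rpow_one, div_eq_mul_inv]
    have h6 : (n : ℝ) ^ r ≤ M := (Real.rpow_le_rpow hn0.le hnq hr).trans hM
    calc ‖χ (n : ZMod q)‖ * (n : ℝ) ^ (-s.re) ≤ 1 * (n : ℝ) ^ (-s.re) := by
          gcongr
          exact DirichletCharacter.norm_le_one χ _
      _ ≤ (n : ℝ) ^ r * ((n : ℝ))⁻¹ := by rw [one_mul, ← h5]; exact h4
      _ ≤ M * ((n : ℝ))⁻¹ := by gcongr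
  rw [← Finset.mul_sum] at h1
  exact h1.trans (mul_le_mul_of_nonneg_left X1_sum hM0)

private theorem X1_L_le {q : ℕ} [NeZero q] {χ : DirichletCharacter ℂ q} (hχ : χ ≠ 1) {s : ℂ}
    {r M D : ℝ} (hr : 0 ≤ r) (hs : 1 - r ≤ s.re) (hs0 : 0 < s.re) (hM : (q : ℝ) ^ r ≤ M)
    (hD : ‖s‖ / s.re ≤ D) :
    ‖LFunction χ s‖ ≤ M * (1 + Real.log q) + (2 + D) * M := by
  have hq0 : 0 < q := Nat.pos_of_ne_zero (NeZero.ne q)
  have hq1 : (1 : ℝ) ≤ q := by exact_mod_cast hq0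
  have hqp : (0 : ℝ) < q := by linarith
  have hM0 : 0 ≤ M := le_trans (by positivity) hM
  have hD0 : 0 ≤ D := le_trans (by positivity) hD
  have h1 := Pool.Agent.LibMaier.LT_approx hχ hs0 (N := q) hq0
  have h3 : (q : ℝ) * (q : ℝ) ^ (-s.re) ≤ M := by
    have h4 : (q : ℝ) * (q : ℝ) ^ (-s.re) = (q : ℝ) ^ (1 - s.re) := by
      rw [Real.rpow_sub hqp, Real.rpow_one, Real.rpow_neg hqp.le, div_eq_mul_inv]
    rw [h4]
    exact (Real.rpow_le_rpow_of_exponent_le hq1 (by linarith)).trans hM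
  have h4 : (q : ℝ) * (2 + ‖s‖ / s.re) * (q : ℝ) ^ (-s.re) ≤ (2 + D) * M := by
    calc (q : ℝ) * (2 + ‖s‖ / s.re) * (q : ℝ) ^ (-s.re)
        = (2 + ‖s‖ / s.re) * ((q : ℝ) * (q : ℝ) ^ (-s.re)) := by ring
      _ ≤ (2 + D) * M := by gcongr
  calc ‖LFunction χ s‖ = ‖Pool.Agent.LibMaier.LT χ q s +
        (LFunction χ s - Pool.Agent.LibMaier.LT χ q s)‖ := by
        congr 1
        ring
    _ ≤ ‖Pool.Agent.LibMaier.LT χ q s‖ +
        ‖LFunction χ s - Pool.Agent.LibMaier.LT χ q s‖ := norm_add_le _ _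
    _ ≤ M * (1 + Real.log q) + (2 + D) * M :=
        add_le_add (X1_LT_le χ hr hs hM) (h1.trans h4)

private theorem X1_deriv {q : ℕ} [NeZero q] {χ : DirichletCharacter ℂ q} (hχ : χ ≠ 1) {w : ℂ}
    (hw : 1 ≤ w.re) (hw0 : w.im = 0) :
    ‖deriv (LFunction χ) w‖ ≤ 3.18 * (4 + Real.log q) ^ 2 := by
  have hq0 : 0 < q := Nat.pos_of_ne_zero (NeZero.ne q)
  have hq1 : (1 : ℝ) ≤ q := by exact_mod_cast hq0
  have hl : 0 ≤ Real.log q := Real.log_nonneg hq1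
  set ℓ : ℝ := 4 + Real.log q with hℓ
  have hℓ4 : 4 ≤ ℓ := by linarith
  have hℓ0 : 0 < ℓ := by linarith
  have hR : 0 < 1 / ℓ := by positivity
  have hR4 : 1 / ℓ ≤ 1 / 4 := by
    apply one_div_le_one_div_of_le (by norm_num) hℓ4
  have hwn : ‖w‖ = w.re := by
    have e : w = ((w.re : ℝ) : ℂ) := by
      apply Complex.ext
      · simp
      · simp [hw0]
    rw [e, Complex.norm_real, Real.norm_eq_abs, Complex.ofReal_re, abs_of_nonneg (by linarith)]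
  have h1 : ∀ z ∈ Metric.sphere w (1 / ℓ), ‖LFunction χ z‖ ≤ 3.18 * ℓ := by
    intro z hz
    rw [mem_sphere_iff_norm] at hz
    have h2 : |(z - w).re| ≤ ‖z - w‖ := Complex.abs_re_le_norm _
    rw [hz, Complex.sub_re, abs_le] at h2
    have hre : w.re - 1 / ℓ ≤ z.re := by linarith [h2.1]
    have hre0 : 0 < z.re := by linarith
    have hzn : ‖z‖ ≤ w.re + 1 / ℓ := by
      calc ‖z‖ = ‖(z - w) + w‖ := by congr 1; ring
        _ ≤ ‖z - w‖ + ‖w‖ := norm_add_le _ _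
        _ = w.re + 1 / ℓ := by rw [hz, hwn]; ring
    have hD : ‖z‖ / z.re ≤ 5 / 3 := by
      rw [div_le_iff₀ hre0]
      linarith
    have h3 := X1_L_le hχ (s := z) hR.le (by linarith) hre0 (X1_qpow (q := q)) hD
    have h4 : (2.7183 : ℝ) * (1 + Real.log q) + (2 + 5 / 3) * 2.7183 ≤ 3.18 * ℓ := by
      rw [hℓ]
      norm_num
      linarith
    exact h3.trans h4
  have h2 := Complex.norm_deriv_le_of_forall_mem_sphere_norm_le hR
    (DirichletCharacter.differentiable_LFunction hχ).diffContOnCl h1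
  calc ‖deriv (LFunction χ) w‖ ≤ 3.18 * ℓ / (1 / ℓ) := h2
    _ = 3.18 * ℓ ^ 2 := by
      field_simp

private theorem X1_tsum {σ : ℝ} (hσ : 0 < σ) :
    ∑' n : ℕ, 1 / ((n : ℝ) + 1) ^ (1 + σ) ≤ 1 + 1 / σ := by
  have h1 := ZetaAsymptotics.zeta_limit_aux1 (s := 1 + σ) (by linarith)
  have h2 : 0 ≤ ZetaAsymptotics.termTSum (1 + σ) :=
    tsum_nonneg fun n => ZetaAsymptotics.term_nonneg (n + 1) (1 + σ)
  have h3 : 0 ≤ (1 + σ) * ZetaAsymptotics.termTSum (1 + σ) := by positivity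
  have h4 : 1 + σ - 1 = σ := by ring
  rw [h4] at h1
  linarith

private theorem X1_le (f : ℕ → ℂ) (hf : ∀ n, ‖f n‖ ≤ 1) {σ : ℝ} (hσ : 0 < σ) (hσ1 : σ ≤ 1) (s : ℂ)
    (hre : s.re = 1 + σ) : ‖LSeries f s‖ ≤ 2 / σ := by
  have hsum : Summable (fun n => LSeries.term f s n) :=
    LSeriesSummable_of_bounded_of_one_lt_re (m := 1) (fun n _ => hf n) (by rw [hre]; linarith)
  have hsn : Summable (fun n => ‖LSeries.term f s n‖) := hsum.norm
  have h1 : ‖LSeries f s‖ ≤ ∑' n, ‖LSeries.term f s n‖ := norm_tsum_le_tsum_norm hsn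
  have h2 : Summable fun n : ℕ => 1 / ((n : ℝ) + 1) ^ (1 + σ) := by
    have := (summable_nat_add_iff 1).2 (Real.summable_one_div_nat_rpow.2 (by linarith : 1 < 1 + σ))
    simpa using this
  have h3 : ∑' n, ‖LSeries.term f s n‖ ≤ ∑' n : ℕ, 1 / ((n : ℝ) + 1) ^ (1 + σ) := by
    rw [hsn.tsum_eq_zero_add]
    have e0 : ‖LSeries.term f s 0‖ = 0 := by simp
    rw [e0, zero_add]
    refine Summable.tsum_le_tsum (fun n => ?_) ((summable_nat_add_iff 1).2 hsn) h2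
    rw [LSeries.norm_term_eq, if_neg (by omega), hre]
    push_cast
    exact div_le_div_of_nonneg_right (hf _) (by positivity)
  refine h1.trans (h3.trans ((X1_tsum hσ).trans ?_))
  have : 1 ≤ 1 / σ := by rw [le_div_iff₀ hσ]; linarith
  have e : 2 / σ = 1 / σ + 1 / σ := by ring
  linarith

theorem L_one_complex_explicit {q : ℕ} [NeZero q] {χ : DirichletCharacter ℂ q} (h2 : χ ^ 2 ≠ 1) :
    1 ≤ 4096 * (4 + Real.log q) ^ 7 * ‖LFunction χ 1‖ := by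
  have hχ : χ ≠ 1 := by
    intro h
    exact h2 (by rw [h, one_pow])
  have hq0 : 0 < q := Nat.pos_of_ne_zero (NeZero.ne q)
  have hq1 : (1 : ℝ) ≤ q := by exact_mod_cast hq0
  have hqp : (0 : ℝ) < q := by linarith
  have hl : 0 ≤ Real.log q := Real.log_nonneg hq1
  set ℓ : ℝ := 4 + Real.log q with hℓ
  have hℓ4 : 4 ≤ ℓ := by linarith
  have hℓ0 : 0 < ℓ := by linarith
  set δ : ℝ := 1 / (4096 * ℓ ^ 9) with hδ
  have hδ0 : 0 < δ := by positivity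
  have hδ1 : δ ≤ 1 := by
    rw [hδ, div_le_one (by positivity)]
    have h1 : (1 : ℝ) ≤ ℓ ^ 9 := one_le_pow₀ (by linarith)
    linarith
  -- the point `1 + δ`
  set s : ℂ := ((1 + δ : ℝ) : ℂ) with hs
  have hsre : s.re = 1 + δ := by rw [hs, Complex.ofReal_re]
  have hsim : s.im = 0 := by rw [hs, Complex.ofReal_im]
  have hsn : ‖s‖ = 1 + δ := by
    rw [hs, Complex.norm_real, Real.norm_eq_abs, abs_of_nonneg (by linarith)]
  -- mean value
  have hmv : ‖LFunction χ s - LFunction χ 1‖ ≤ 3.18 * ℓ ^ 2 * δ := by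
    have hconv : Convex ℝ ({z : ℂ | 1 ≤ z.re} ∩ ({z : ℂ | z.im ≤ 0} ∩ {z : ℂ | 0 ≤ z.im})) :=
      (convex_halfSpace_re_ge 1).inter ((convex_halfSpace_im_le 0).inter (convex_halfSpace_im_ge 0))
    have hb : ∀ z ∈ ({z : ℂ | 1 ≤ z.re} ∩ ({z : ℂ | z.im ≤ 0} ∩ {z : ℂ | 0 ≤ z.im})),
        ‖deriv (LFunction χ) z‖ ≤ 3.18 * ℓ ^ 2 := by
      intro z hz
      exact X1_deriv hχ hz.1 (le_antisymm hz.2.1 hz.2.2)
    have h1 := hconv.norm_image_sub_le_of_norm_deriv_le (f := LFunction χ) (x := (1 : ℂ)) (y := s)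
      (fun z _ => (DirichletCharacter.differentiable_LFunction hχ) z) hb
      ⟨by simp, by simp, by simp⟩ ⟨by
        change 1 ≤ s.re
        rw [hsre]
        linarith, by
        change s.im ≤ 0
        rw [hsim], by
        change 0 ≤ s.im
        rw [hsim]⟩
    have h2 : ‖s - 1‖ = δ := by
      have e : s - 1 = ((δ : ℝ) : ℂ) := by
        rw [hs]
        push_cast
        ring
      rw [e, Complex.norm_real, Real.norm_eq_abs, abs_of_pos hδ0]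
    rw [h2] at h1
    exact h1
  -- 3-4-1
  have h341 := DirichletCharacter.norm_LSeries_product_ge_one χ hδ0 0
  have e1 : (1 + (δ : ℂ) + Complex.I * ((0 : ℝ) : ℂ)) = s := by
    rw [hs]
    push_cast
    ring
  have e2 : (1 + (δ : ℂ) + 2 * Complex.I * ((0 : ℝ) : ℂ)) = s := by
    rw [hs]
    push_cast
    ring
  have e3 : (1 + (δ : ℂ)) = s := by
    rw [hs]
    push_cast
    ring
  rw [e1, e2, e3, norm_mul, norm_mul, norm_pow, norm_pow] at h341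
  have hlt : 1 < s.re := by rw [hsre]; linarith
  have hL1 : LSeries (fun n => χ n) s = LFunction χ s :=
    (DirichletCharacter.LFunction_eq_LSeries χ hlt).symm
  have hL2 : LSeries (fun n => (χ ^ 2) n) s = LFunction (χ ^ 2) s :=
    (DirichletCharacter.LFunction_eq_LSeries (χ ^ 2) hlt).symm
  rw [hL1, hL2] at h341
  set a := ‖LSeries (fun n => (1 : DirichletCharacter ℂ q) n) s‖ with ha
  set b := ‖LFunction χ s‖ with hb
  set c := ‖LFunction (χ ^ 2) s‖ with hc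
  have ha2 : a ≤ 2 / δ := X1_le _ (fun n => DirichletCharacter.norm_le_one _ _) hδ0 hδ1 s hsre
  have ha0 : 0 ≤ a := norm_nonneg _
  have hb0 : 0 ≤ b := norm_nonneg _
  have hc0 : 0 ≤ c := norm_nonneg _
  have hc2 : c ≤ ℓ := by
    have h3 := X1_L_le h2 (s := s) (r := 0) (M := 1) (D := 1) le_rfl (by rw [hsre]; linarith)
      (by linarith) (by rw [Real.rpow_zero]) (by
        rw [hsn, hsre, div_self (by linarith)])
    rw [hℓ]
    linarith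
  have hprod : 1 ≤ (2 / δ) ^ 3 * b ^ 4 * ℓ := by
    refine h341.trans ?_
    gcongr
  by_contra hcon
  rw [not_le] at hcon
  have hb1 : 4096 * ℓ ^ 7 * b < 4.18 := by
    have h1 : b ≤ ‖LFunction χ s - LFunction χ 1‖ + ‖LFunction χ 1‖ := by
      have := norm_add_le (LFunction χ s - LFunction χ 1) (LFunction χ 1)
      rwa [sub_add_cancel] at this
    have h3 : 4096 * ℓ ^ 7 * (3.18 * ℓ ^ 2 * δ) = 3.18 := by
      rw [hδ]
      field_simp
    have hp : 0 < 4096 * ℓ ^ 7 := by positivity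
    calc 4096 * ℓ ^ 7 * b ≤ 4096 * ℓ ^ 7 * (3.18 * ℓ ^ 2 * δ + ‖LFunction χ 1‖) := by
          gcongr
          exact h1.trans (by linarith)
      _ = 4096 * ℓ ^ 7 * (3.18 * ℓ ^ 2 * δ) + 4096 * ℓ ^ 7 * ‖LFunction χ 1‖ := by ring
      _ < 4.18 := by
        rw [h3]
        norm_num at hcon ⊢
        linarith
  have hb4 : (4096 * ℓ ^ 7 * b) ^ 4 ≤ (4.18 : ℝ) ^ 4 := by
    gcongr
  have hid : (2 / δ) ^ 3 * b ^ 4 * ℓ = 8 / 4096 * (4096 * ℓ ^ 7 * b) ^ 4 := by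
    rw [hδ]
    field_simp
    ring
  rw [hid] at hprod
  norm_num at hb4 hprod
  linarith

end Pool.Agent.LibNF95
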