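import Pool.Agent.LibNF95.P3

/-!
ROW X2 (MEDIUM). Energy lower bound from the complex characters only (cites P1, P2, P3, F3 as stated; model: NF95_P3.lean in team-store).

PLAN. `N % 8 = 5`: every odd `χ` has `χ ^ 2 ≠ 1` (if `χ ^ 2 = 1`: `-1 = a ^ 2`, so `χ (-1) = (χ a) ^ 2 = 1`), so `energy_lower` applies (and `∑ T² ≥ 0`).
`N % 8 = 3` and `6 f ≤ N - 1`: `parseval` for `T`, keep the odd `χ` with `χ p = 1` and `χ ^ 2 ≠ 1`; among the odd `χ` with `χ p = 1` only one has `χ ^ 2 = 1` (at most one odd `χ` with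
`χ ^ 2 = 1`: the quotient of two is even and of order at most 2, so trivial on squares and on `-1`, which together generate the units as `N % 4 = 3`; or: it takes the value 1 on squares and -1 on
non-squares), and for it `‖1 - χ 2‖ ^ 2 ≤ 4`. So `∑ ‖1 - χ 2‖² ≥ (N-1)/f - 4 ≥ (N-1)/(3 f)` by `sum_odd_lower` and `(N-1)/f ≥ 6`; hence `(N-1) ∑ T² ≥ f² m² (N-1)/(3 f)`.
-/

set_option autoImplicit false

open Finset Complex DirichletCharacter

namespace Pool.Agent.LibNF95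

private theorem X2_sq {N : ℕ} [Fact N.Prime] {χ : DirichletCharacter ℂ N} (h : χ ^ 2 = 1)
    {a : ZMod N} (ha : a ≠ 0) : χ (a * a) = 1 := by
  have h1 : (χ ^ 2) a = 1 := by
    rw [h, MulChar.one_apply (isUnit_iff_ne_zero.2 ha)]
  rw [MulChar.pow_apply' χ two_ne_zero] at h1
  rw [map_mul, ← sq]
  exact h1

private theorem X2_odd_ne {N : ℕ} [Fact N.Prime] (h4 : N % 4 ≠ 3) {χ : DirichletCharacter ℂ N}
    (hχ : χ (-1) = -1) : χ ^ 2 ≠ 1 := by
  intro h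
  obtain ⟨a, ha⟩ := ZMod.exists_sq_eq_neg_one_iff.2 h4
  have ha0 : a ≠ 0 := by
    rintro rfl
    rw [mul_zero, neg_eq_zero] at ha
    exact one_ne_zero ha
  have h1 := X2_sq h ha0
  rw [← ha, hχ] at h1
  norm_num at h1

private theorem X2_uniq {N : ℕ} [Fact N.Prime] (hN : N ≠ 2) (h4 : N % 4 = 3)
    {χ χ' : DirichletCharacter ℂ N}
    (h1 : χ (-1) = -1) (h2 : χ ^ 2 = 1) (h1' : χ' (-1) = -1) (h2' : χ' ^ 2 = 1) : χ = χ' := by
  refine MulChar.ext fun u => ?_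
  have hu : (u : ZMod N) ≠ 0 := u.ne_zero
  by_cases hs : IsSquare (u : ZMod N)
  · obtain ⟨a, ha⟩ := hs
    have ha0 : a ≠ 0 := by
      rintro rfl
      rw [mul_zero] at ha
      exact hu ha
    rw [ha, X2_sq h2 ha0, X2_sq h2' ha0]
  · have hm1 : (-1 : ZMod N) ≠ 0 := neg_ne_zero.2 one_ne_zero
    have hc : ringChar (ZMod N) ≠ 2 := by rwa [ZMod.ringChar_zmod_n]
    have e1 : quadraticChar (ZMod N) (-1) = -1 := by
      rw [quadraticChar_neg_one_iff_not_isSquare]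
      intro h
      exact (ZMod.exists_sq_eq_neg_one_iff.1 h) h4
    have e2 : quadraticChar (ZMod N) (u : ZMod N) = -1 := by
      rw [quadraticChar_neg_one_iff_not_isSquare]
      exact hs
    have e3 : quadraticChar (ZMod N) (-(u : ZMod N)) = 1 := by
      rw [← neg_one_mul, map_mul, e1, e2]
      norm_num
    obtain ⟨a, ha⟩ := (quadraticChar_one_iff_isSquare (neg_ne_zero.2 hu)).1 e3
    have ha0 : a ≠ 0 := by
      rintro rfl
      rw [mul_zero, neg_eq_zero] at ha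
      exact hu ha
    have e4 : (u : ZMod N) = -1 * (a * a) := by
      rw [← ha, neg_one_mul, neg_neg]
    rw [e4, map_mul χ, map_mul χ', X2_sq h2 ha0, X2_sq h2' ha0, h1, h1']

private theorem X2_four {N : ℕ} [Fact N.Prime] (χ : DirichletCharacter ℂ N) :
    ‖1 - χ 2‖ ^ 2 ≤ 4 := by
  have h1 : ‖1 - χ 2‖ ≤ 2 := by
    refine (norm_sub_le _ _).trans ?_
    rw [norm_one]
    have := DirichletCharacter.norm_le_one χ 2
    linarith
  calc ‖1 - χ 2‖ ^ 2 ≤ 2 ^ 2 := pow_le_pow_left₀ (norm_nonneg _) h1 2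
    _ = 4 := by norm_num

theorem energy_lower_complex {p N f : ℕ} [Fact N.Prime] (hN : N ≠ 2) (h8 : N % 8 = 3 ∨ N % 8 = 5)
    (hfo : Odd f) (hp : (p : ZMod N) ≠ 0) (hf : (p : ZMod N) ^ f = 1)
    (he : 6 * f ≤ N - 1 ∨ N % 8 = 5) {m : ℝ} (hm : 0 ≤ m)
    (hB : ∀ χ : DirichletCharacter ℂ N, χ.Odd → χ ^ 2 ≠ 1 → m ≤ ‖B1 χ‖) :
    (f : ℝ) * m ^ 2 ≤ 3 * ∑ s : ZMod N, T p N f s ^ 2 := by
  have hT : 0 ≤ ∑ s : ZMod N, T p N f s ^ 2 := Finset.sum_nonneg fun s _ => sq_nonneg _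
  by_cases h5 : N % 8 = 5
  · have h4 : N % 4 ≠ 3 := by omega
    have h1 := energy_lower hN h8 hfo hp hf hm fun χ hχ => hB χ hχ (X2_odd_ne h4 hχ)
    linarith
  have h3 : N % 4 = 3 := by omega
  have he' : 6 * f ≤ N - 1 := he.resolve_right h5
  have hf0 : 0 < f := hfo.pos
  have hf0r : (0 : ℝ) < f := by exact_mod_cast hf0
  have hN1' : 1 < N := (Fact.out : N.Prime).one_lt
  have hN1 : (0 : ℝ) < (N : ℝ) - 1 := by
    have h2 : (1 : ℝ) < N := by exact_mod_cast hN1'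
    linarith
  have he2 : 6 * (f : ℝ) ≤ (N : ℝ) - 1 := by
    have h2 : 6 * f + 1 ≤ N := by omega
    have h3 : ((6 * f + 1 : ℕ) : ℝ) ≤ (N : ℝ) := by exact_mod_cast h2
    push_cast at h3
    linarith
  have hT0 : T p N f 0 = 0 := by
    unfold T g
    simp
  have h1 := parseval (T p N f) hT0
  have h2 : ∀ χ : DirichletCharacter ℂ N,
      (f : ℝ) ^ 2 * m ^ 2 * ((if χ (p : ZMod N) = 1 ∧ χ (-1) = -1 then ‖1 - χ 2‖ ^ 2 else 0) -
        (if χ (-1) = -1 ∧ χ ^ 2 = 1 then 4 else 0)) ≤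
        ‖∑ s : ZMod N, χ s * ((T p N f s : ℝ) : ℂ)‖ ^ 2 := by
    intro χ
    by_cases hc : χ (p : ZMod N) = 1 ∧ χ (-1) = -1
    · by_cases hs : χ ^ 2 = 1
      · rw [if_pos hc, if_pos ⟨hc.2, hs⟩]
        have h4 := X2_four χ
        have h5 : (f : ℝ) ^ 2 * m ^ 2 * (‖1 - χ 2‖ ^ 2 - 4) ≤ 0 :=
          mul_nonpos_of_nonneg_of_nonpos (by positivity) (by linarith)
        exact h5.trans (by positivity)
      · rw [if_pos hc, if_neg (fun h => hs h.2), sub_zero, sum_chi_T hp hf χ, if_pos hc.1,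
          norm_mul, norm_bb hN χ, Complex.norm_natCast]
        have h3 : m ≤ ‖B1 χ‖ := hB χ hc.2 hs
        have h4 : (f : ℝ) * (‖1 - χ 2‖ * m) ≤ (f : ℝ) * (‖1 - χ 2‖ * ‖B1 χ‖) :=
          mul_le_mul_of_nonneg_left (mul_le_mul_of_nonneg_left h3 (norm_nonneg _)) hf0r.le
        have h5 : 0 ≤ (f : ℝ) * (‖1 - χ 2‖ * m) := by positivity
        calc (f : ℝ) ^ 2 * m ^ 2 * ‖1 - χ 2‖ ^ 2 = ((f : ℝ) * (‖1 - χ 2‖ * m)) ^ 2 := by ring
          _ ≤ _ := pow_le_pow_left₀ h5 h4 2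
    · rw [if_neg hc, zero_sub]
      have h4 : (0 : ℝ) ≤ if χ (-1) = -1 ∧ χ ^ 2 = 1 then 4 else 0 := by
        split_ifs <;> norm_num
      have h5 : (f : ℝ) ^ 2 * m ^ 2 * (-(if χ (-1) = -1 ∧ χ ^ 2 = 1 then 4 else 0)) ≤ 0 :=
        mul_nonpos_of_nonneg_of_nonpos (by positivity) (by linarith)
      exact h5.trans (by positivity)
  have h4 := Finset.sum_le_sum fun (χ : DirichletCharacter ℂ N) (_ : χ ∈ Finset.univ) => h2 χ
  rw [← Finset.mul_sum, h1, Finset.sum_sub_distrib] at h4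
  have h6 := sum_odd_lower (p := p) hN h8 hfo hf
  have h7 : ∑ χ : DirichletCharacter ℂ N, (if χ (-1) = -1 ∧ χ ^ 2 = 1 then (4 : ℝ) else 0) ≤ 4 := by
    rw [← Finset.sum_filter, Finset.sum_const, nsmul_eq_mul]
    have h8 : (Finset.univ.filter fun χ : DirichletCharacter ℂ N =>
        χ (-1) = -1 ∧ χ ^ 2 = 1).card ≤ 1 := by
      rw [Finset.card_le_one]
      intro χ hχ χ' hχ'
      rw [Finset.mem_filter] at hχ hχ'
      exact X2_uniq hN h3 hχ.2.1 hχ.2.2 hχ'.2.1 hχ'.2.2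
    have h9 : ((Finset.univ.filter fun χ : DirichletCharacter ℂ N =>
        χ (-1) = -1 ∧ χ ^ 2 = 1).card : ℝ) ≤ 1 := by exact_mod_cast h8
    linarith
  have h8 : ((N : ℝ) - 1) / (3 * f) ≤ ((N : ℝ) - 1) / f - 4 := by
    have h9 : (6 : ℝ) ≤ ((N : ℝ) - 1) / f := by
      rw [le_div_iff₀ hf0r]
      exact he2
    have h10 : ((N : ℝ) - 1) / (3 * f) = ((N : ℝ) - 1) / f / 3 := by
      rw [mul_comm, div_div]
    rw [h10]
    linarith
  have h9 : (f : ℝ) ^ 2 * m ^ 2 * (((N : ℝ) - 1) / (3 * f)) ≤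
      ((N : ℝ) - 1) * ∑ s : ZMod N, T p N f s ^ 2 := by
    refine (mul_le_mul_of_nonneg_left ?_ (by positivity)).trans h4
    linarith
  have h10 : (f : ℝ) ^ 2 * m ^ 2 * (((N : ℝ) - 1) / (3 * f)) =
      ((N : ℝ) - 1) * ((f : ℝ) * m ^ 2 / 3) := by
    field_simp
  rw [h10] at h9
  have h11 := le_of_mul_le_mul_left h9 hN1
  linarith

end Pool.Agent.LibNF95
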