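import Mathlib

/-!
ROW X3 (MEDIUM). The numerical end, explicit (real inequalities only).

PLAN. `ℓ = 4 + log N`. First: `N/(π² 4096² ℓ^14) ≤ 3 w * 2 √N ℓ`, `w ≤ 2 ℓ`: `√N ≤ 12 π² 4096² ℓ^16`. Second: from the first inequality `f ≤ 3 w² N/m²`, from the second
`m² ≤ 3 f √N (1 + log N)²`, so `m⁴ ≤ 9 w² N √N ℓ²`: `√N ≤ 36 π⁴ 4096⁴ ℓ^32`. Both fail for `N ≥ 10^210`: at `N = 10^210`: `ℓ < 488`, `36 π⁴ 4096⁴ 488^32 < 10^104.1 < 10^105`; for larger `N`: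
`ℓ^32 / √N` is decreasing for `ℓ ≥ 64 + 4` (e.g. `log N ≤ log N₀ + ...`, or write `√N = e^((ℓ-4)/2)` and use `(1 + x)^32 ≤ e^(32 x)` with `ℓ = 488 (1 + x)`: `e^(32 x) ≤ e^(244 x)`).
-/

set_option autoImplicit false

namespace Pool.Agent.LibNF95

private theorem X3_log10 : 210 * Real.log 10 ≤ 485.21 := by
  have h1 : Real.log ((10 : ℝ) ^ 3) ≤ Real.log (2 ^ 10) := Real.log_le_log (by norm_num) (by norm_num)
  rw [Real.log_pow, Real.log_pow] at h1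
  push_cast at h1
  have h2 := Real.log_two_lt_d9
  linarith

/-- `S = √N ≥ 10 ^ 105` -/
private theorem X3_key {S : ℝ} (hS : (10 : ℝ) ^ 105 ≤ S) :
    36 * (Real.pi ^ 2 * 4096 ^ 2 * (4 + 2 * Real.log S) ^ 16) ^ 2 < S := by
  have h10 : (0 : ℝ) < (10 : ℝ) ^ 105 := by positivity
  have hS0 : 0 < S := lt_of_lt_of_le h10 hS
  obtain ⟨y, hy1, hy⟩ : ∃ y : ℝ, 1 ≤ y ∧ y ^ 32 = S / 10 ^ 105 := by
    have hq : 1 ≤ S / 10 ^ 105 := (one_le_div h10).2 hS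
    refine ⟨(S / 10 ^ 105) ^ (((32 : ℕ) : ℝ)⁻¹), Real.one_le_rpow hq (by positivity), ?_⟩
    exact Real.rpow_inv_natCast_pow (by linarith) (by norm_num)
  have hSy : S = 10 ^ 105 * y ^ 32 := by
    rw [hy, mul_div_cancel₀ _ h10.ne']
  have hy0 : 0 < y := by linarith
  have hlog : Real.log S = 105 * Real.log 10 + 32 * Real.log y := by
    rw [hSy, Real.log_mul h10.ne' (by positivity), Real.log_pow, Real.log_pow]
    norm_num
  have h1 := Real.log_le_sub_one_of_pos hy0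
  have h2 := X3_log10
  have h3 : 4 + 2 * Real.log S ≤ 490 * y := by
    rw [hlog]
    linarith
  have h4 : 0 ≤ 4 + 2 * Real.log S := by
    have h5 : 0 ≤ Real.log S := Real.log_nonneg (le_trans (by norm_num) hS)
    linarith
  have h5 : (4 + 2 * Real.log S) ^ 16 ≤ (490 * y) ^ 16 := pow_le_pow_left₀ h4 h3 16
  have hpi : Real.pi ^ 2 ≤ 9.8697 := by
    have e1 := Real.pi_lt_d4
    have e2 := Real.pi_pos
    nlinarith
  have h6 : Real.pi ^ 2 * 4096 ^ 2 * (4 + 2 * Real.log S) ^ 16 ≤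
      9.8697 * 4096 ^ 2 * (490 * y) ^ 16 :=
    mul_le_mul (mul_le_mul_of_nonneg_right hpi (by norm_num)) h5 (by positivity) (by positivity)
  have h7 : (Real.pi ^ 2 * 4096 ^ 2 * (4 + 2 * Real.log S) ^ 16) ^ 2 ≤
      (9.8697 * 4096 ^ 2 * (490 * y) ^ 16) ^ 2 := pow_le_pow_left₀ (by positivity) h6 2
  have h8 : (9.8697 * 4096 ^ 2 * (490 * y) ^ 16) ^ 2 =
      (9.8697 * 4096 ^ 2 * 490 ^ 16) ^ 2 * y ^ 32 := by ring
  have h9 : 36 * (9.8697 * 4096 ^ 2 * (490 : ℝ) ^ 16) ^ 2 < 10 ^ 105 := by norm_num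
  have h10 : 36 * (9.8697 * 4096 ^ 2 * (490 : ℝ) ^ 16) ^ 2 * y ^ 32 < 10 ^ 105 * y ^ 32 :=
    mul_lt_mul_of_pos_right h9 (by positivity)
  calc 36 * (Real.pi ^ 2 * 4096 ^ 2 * (4 + 2 * Real.log S) ^ 16) ^ 2
      ≤ 36 * (9.8697 * 4096 ^ 2 * (490 * y) ^ 16) ^ 2 := mul_le_mul_of_nonneg_left h7 (by norm_num)
    _ = 36 * (9.8697 * 4096 ^ 2 * (490 : ℝ) ^ 16) ^ 2 * y ^ 32 := by
        rw [h8]
        ring
    _ < 10 ^ 105 * y ^ 32 := h10
    _ = S := hSy.symm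

theorem numeric_explicit {N : ℕ} {f w : ℝ} (hf : 0 < f) (hw0 : 0 ≤ w)
    (hw : w ≤ 2 * Real.log ((N : ℝ) + 1)) (hN : 10 ^ 210 ≤ N) :
    (¬ f * (√N / Real.pi * (1 / (4096 * (4 + Real.log N) ^ 7))) ^ 2 ≤
      3 * (w * (f * (2 * (√N * (4 + Real.log N)))))) ∧
    ¬ (f * (√N / Real.pi * (1 / (4096 * (4 + Real.log N) ^ 7))) ^ 2 ≤ 3 * (w ^ 2 * N) ∧
      f * (√N / Real.pi * (1 / (4096 * (4 + Real.log N) ^ 7))) ^ 2 ≤
        3 * (f ^ 2 * (√N * (1 + Real.log N) ^ 2))) := by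
  have hNR : (10 : ℝ) ^ 210 ≤ N := by exact_mod_cast hN
  have hN0 : (0 : ℝ) < N := lt_of_lt_of_le (by positivity) hNR
  have hN1 : (1 : ℝ) ≤ N := le_trans (by norm_num) hNR
  obtain ⟨S, hSdef⟩ : ∃ S : ℝ, S = √(N : ℝ) := ⟨_, rfl⟩
  have hSS : S * S = N := by
    rw [hSdef]
    exact Real.mul_self_sqrt hN0.le
  have hS0 : 0 < S := by
    rw [hSdef]
    exact Real.sqrt_pos.2 hN0
  have hS105 : (10 : ℝ) ^ 105 ≤ S := by
    rw [hSdef]
    apply Real.le_sqrt_of_sq_le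
    rw [← pow_mul]
    exact hNR
  have hlogN : Real.log N = 2 * Real.log S := by
    rw [← hSS, Real.log_mul hS0.ne' hS0.ne']
    ring
  have hkey := X3_key hS105
  rw [← hlogN] at hkey
  have hlog0 : 0 ≤ Real.log N := Real.log_nonneg hN1
  obtain ⟨l, hl⟩ : ∃ l : ℝ, l = 4 + Real.log N := ⟨_, rfl⟩
  rw [← hl] at hkey
  have hl1 : 1 ≤ l := by linarith
  have hwl : w ≤ 2 * l := by
    have h1 : Real.log ((N : ℝ) + 1) ≤ Real.log (2 * N) :=
      Real.log_le_log (by linarith) (by linarith)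
    rw [Real.log_mul (by norm_num) hN0.ne'] at h1
    have h2 := Real.log_two_lt_d9
    linarith
  rw [← hSdef, ← hl]
  obtain ⟨P, hP⟩ : ∃ P : ℝ, P = Real.pi * (4096 * l ^ 7) := ⟨_, rfl⟩
  have hpi := Real.pi_pos
  have hP0 : 0 < P := by
    rw [hP]
    positivity
  have hm : S / Real.pi * (1 / (4096 * l ^ 7)) = S / P := by
    rw [hP]
    field_simp
  rw [hm]
  obtain ⟨m, hmdef⟩ : ∃ m : ℝ, m = S / P := ⟨_, rfl⟩
  rw [← hmdef]
  have hmP : m * P = S := by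
    rw [hmdef]
    field_simp
  obtain ⟨X, hX⟩ : ∃ X : ℝ, X = Real.pi ^ 2 * 4096 ^ 2 * l ^ 16 := ⟨_, rfl⟩
  rw [← hX] at hkey
  have hXP : P ^ 2 * l ^ 2 = X := by
    rw [hP, hX]
    ring
  have hX1 : 1 ≤ X := by
    rw [hX]
    have h1 : (1 : ℝ) ≤ l ^ 16 := one_le_pow₀ hl1
    have h2 := Real.pi_gt_three
    have h3 : (1 : ℝ) ≤ Real.pi ^ 2 * 4096 ^ 2 := by nlinarith
    have h4 := mul_le_mul h3 h1 (by norm_num) (by linarith)
    linarith
  constructor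
  · intro h
    have h1 : m ^ 2 ≤ 6 * w * S * l := by
      have e : 3 * (w * (f * (2 * (S * l)))) = f * (6 * w * S * l) := by ring
      rw [e] at h
      exact le_of_mul_le_mul_left h hf
    have h2 : 6 * w * S * l ≤ 12 * S * l ^ 2 := by
      have h3 := mul_le_mul_of_nonneg_right hwl (by positivity : 0 ≤ 6 * (S * l))
      linarith
    have h3 := mul_le_mul_of_nonneg_right (h1.trans h2) (by positivity : 0 ≤ P ^ 2)
    have h4 : S * S ≤ S * (12 * X) := by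
      calc S * S = m ^ 2 * P ^ 2 := by
            rw [← hmP]
            ring
        _ ≤ 12 * S * l ^ 2 * P ^ 2 := h3
        _ = S * (12 * X) := by
            rw [← hXP]
            ring
    have h5 : S ≤ 12 * X := le_of_mul_le_mul_left h4 hS0
    nlinarith
  · rintro ⟨hA, hB⟩
    have hw2 : w ^ 2 ≤ (2 * l) ^ 2 := pow_le_pow_left₀ hw0 hwl 2
    have hA2 : f * m ^ 2 ≤ 12 * l ^ 2 * S ^ 2 := by
      refine hA.trans ?_
      rw [← hSS]
      have h1 := mul_le_mul_of_nonneg_right hw2 (by positivity : 0 ≤ 3 * (S * S))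
      linarith
    have hlog2 : (1 + Real.log N) ^ 2 ≤ l ^ 2 := by
      apply pow_le_pow_left₀ (by linarith)
      linarith
    have hB2 : m ^ 2 ≤ 3 * f * S * l ^ 2 := by
      have h1 : f * m ^ 2 ≤ f * (3 * f * S * l ^ 2) := by
        refine hB.trans ?_
        have h2 := mul_le_mul_of_nonneg_left hlog2 (by positivity : 0 ≤ 3 * f ^ 2 * S)
        linarith
      exact le_of_mul_le_mul_left h1 hf
    have h3 : m ^ 2 * m ^ 2 ≤ 36 * l ^ 4 * S ^ 3 := by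
      have h4 := mul_le_mul_of_nonneg_right hB2 (by positivity : 0 ≤ m ^ 2)
      have h5 := mul_le_mul_of_nonneg_left hA2 (by positivity : 0 ≤ 3 * S * l ^ 2)
      calc m ^ 2 * m ^ 2 ≤ 3 * f * S * l ^ 2 * m ^ 2 := h4
        _ = 3 * S * l ^ 2 * (f * m ^ 2) := by ring
        _ ≤ 3 * S * l ^ 2 * (12 * l ^ 2 * S ^ 2) := h5
        _ = 36 * l ^ 4 * S ^ 3 := by ring
    have h6 := mul_le_mul_of_nonneg_right h3 (by positivity : 0 ≤ P ^ 4)
    have h7 : S ^ 3 * S ≤ S ^ 3 * (36 * X ^ 2) := by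
      calc S ^ 3 * S = m ^ 2 * m ^ 2 * P ^ 4 := by
            rw [← hmP]
            ring
        _ ≤ 36 * l ^ 4 * S ^ 3 * P ^ 4 := h6
        _ = S ^ 3 * (36 * X ^ 2) := by
            rw [← hXP]
            ring
    have h8 : S ≤ 36 * X ^ 2 := le_of_mul_le_mul_left h7 (by positivity)
    linarith

end Pool.Agent.LibNF95
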