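import Pool.Agent.LibNF95.X1
import Pool.Agent.LibNF95.X2
import Pool.Agent.LibNF95.X3
import Pool.Agent.LibNF95.U3
import Pool.Agent.LibNF95.E2

/-!
ROW X4 (MEDIUM). Assembly: an explicit bound for index different from 2 (cites X1, X2, X3, U3, F2, E2 as stated; model: NF95_E3.lean in team-store).

PLAN. `m = √N/π * (1/(4096 ℓ^7))`, `ℓ = 4 + log N`: for odd `χ` with `χ ^ 2 ≠ 1`: `‖B1 χ‖ = √N/π ‖L(1, χ⁻¹)‖ ≥ m` (`norm_B1`, `L_one_complex_explicit` for `χ⁻¹`).
`N % 8 = 3`: `f ∣ N - 1`, `f` odd, `(N-1)/f` is `2 * odd`, not `2`, so `6 f ≤ N - 1`. `energy_lower_complex`, then as in E3: `crit_three`, `energy_three`, or `crit_one`,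
`∑ T² ≤ w² N` and `energy_five`; `numeric_explicit`.
-/

set_option autoImplicit false

open Finset Complex DirichletCharacter

namespace Pool.Agent.LibNF95

open Pool.Agent.CycU

private theorem X4_index {p N f : ℕ} [Fact N.Prime] (hp : (p : ZMod N) ≠ 0)
    (hf : f = orderOf (p : ZMod N)) (hfo : Odd f) (h8 : N % 8 = 3) (he : 2 * f ≠ N - 1) :
    6 * f ≤ N - 1 := by
  have h1 : f ∣ N - 1 := by rw [hf]; exact ZMod.orderOf_dvd_card_sub_one hp
  obtain ⟨k, hk⟩ := h1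
  obtain ⟨j, hj⟩ := hfo
  have hN := (Fact.out : N.Prime).two_le
  have hN8 : ∃ t, N - 1 = 8 * t + 2 := ⟨N / 8, by omega⟩
  obtain ⟨t, ht⟩ := hN8
  have hk2 : k % 2 = 0 := by
    by_contra hodd
    obtain ⟨i, hi⟩ : ∃ i, k = 2 * i + 1 := ⟨k / 2, by omega⟩
    have h2 : f * k = 2 * (2 * (j * i) + j + i) + 1 := by rw [hj, hi]; ring
    omega
  obtain ⟨i, hi⟩ : ∃ i, k = 2 * i := ⟨k / 2, by omega⟩
  have h3 : f * i = 4 * t + 1 := by
    have h2 : f * k = 2 * (f * i) := by rw [hi]; ring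
    omega
  have hi1 : i ≠ 0 := by rintro rfl; omega
  have hi2 : i ≠ 1 := by
    rintro rfl
    apply he
    rw [ht]; omega
  have hi3 : i ≠ 2 := by rintro rfl; omega
  have hi4 : 3 ≤ i := by omega
  have h5 : f * 3 ≤ f * i := Nat.mul_le_mul_left f hi4
  have h6 : N - 1 = 2 * (f * i) := by rw [hk, hi]; ring
  omega

theorem bounded_explicit (p N f : ℕ) [Fact p.Prime] [Fact N.Prime] (hN : N ≠ 2)
    (hp : (p : ZMod N) ≠ 0) (hf : f = orderOf (p : ZMod N)) (hfo : Odd f)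
    (h8 : N % 8 = 3 ∨ N % 8 = 5) (he : 2 * f ≠ N - 1) (hC : Crit p N f 1 ∨ Crit p N f (-1)) :
    N < 10 ^ 210 := by
  have hpi := Real.pi_pos
  have hNp : N.Prime := Fact.out
  have hN3 : 3 ≤ N := by
    have := hNp.two_le
    omega
  have hNpos : 0 < N := by omega
  have hNr : (0 : ℝ) < N := by exact_mod_cast hNpos
  have hNr1 : (1 : ℝ) ≤ N := by exact_mod_cast hNpos
  have hlog : 0 ≤ Real.log N := Real.log_nonneg hNr1
  have hf1 : (p : ZMod N) ^ f = 1 := by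
    rw [hf]; exact pow_orderOf_eq_one _
  have hfpos : 0 < f := hfo.pos
  have hfr : (0 : ℝ) < f := by exact_mod_cast hfpos
  have hl : (0 : ℝ) < 4096 * (4 + Real.log N) ^ 7 := by positivity
  have hm : 0 ≤ √N / Real.pi * (1 / (4096 * (4 + Real.log N) ^ 7)) := by positivity
  have hB : ∀ χ : DirichletCharacter ℂ N, χ.Odd → χ ^ 2 ≠ 1 →
      √N / Real.pi * (1 / (4096 * (4 + Real.log N) ^ 7)) ≤ ‖B1 χ‖ := by
    intro χ hχ h2
    rw [norm_B1 χ hχ]
    apply mul_le_mul_of_nonneg_left _ (by positivity)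
    rw [div_le_iff₀ hl, mul_comm]
    apply L_one_complex_explicit
    rw [inv_pow]
    intro h3
    exact h2 (inv_eq_one.1 h3)
  have hidx : 6 * f ≤ N - 1 ∨ N % 8 = 5 := by
    rcases h8 with h8 | h8
    · exact Or.inl (X4_index hp hf hfo h8 he)
    · exact Or.inr h8
  have hE := energy_lower_complex hN h8 hfo hp hf1 hidx hm hB
  have hw0 : (0 : ℝ) ≤ (wN p N : ℝ) := by positivity
  have hwle := w_le (p := p) hN3
  by_contra hlt
  rw [not_lt] at hlt
  have hnum := numeric_explicit (N := N) (f := (f : ℝ)) (w := (wN p N : ℝ)) hfr hw0 hwle hlt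
  have aux3 : ∀ ε : ℤ, (ε = 1 ∨ ε = -1) → N % 8 = 3 → Crit p N f ε → False := by
    intro ε hε h83 hC
    have h4 : N % 4 = 3 := by omega
    obtain ⟨hT, hpsi⟩ := crit_three h4 ε hε hC
    have hε' : -ε = 1 ∨ -ε = -1 := by
      rcases hε with h | h
      · right; rw [h]
      · left; rw [h]; norm_num
    have h5 := energy_three h4 hfo hp hf1 (-ε) hε' hw0 hT hpsi
    refine hnum.1 (hE.trans ?_)
    exact mul_le_mul_of_nonneg_left h5 (by norm_num)
  have aux5 : ∀ ε : ℤ, (ε = 1 ∨ ε = -1) → N % 8 = 5 → Crit p N f ε → False := by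
    intro ε hε h85 hC
    have h4 : N % 4 = 1 := by omega
    obtain ⟨hT, hpsi⟩ := crit_one h4 ε hε hC
    have h5 := energy_five hN ε hε hpsi
    have h6 : ∑ s : ZMod N, T p N f s ^ 2 ≤ (wN p N : ℝ) ^ 2 * N := by
      have h7 : ∑ s : ZMod N, T p N f s ^ 2 ≤ ∑ _s : ZMod N, (wN p N : ℝ) ^ 2 := by
        apply Finset.sum_le_sum
        intro s _
        rw [← sq_abs (T p N f s)]
        exact pow_le_pow_left₀ (abs_nonneg _) (hT s) 2
      rw [Finset.sum_const, Finset.card_univ, ZMod.card, nsmul_eq_mul] at h7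
      linarith
    exact hnum.2 ⟨hE.trans (mul_le_mul_of_nonneg_left h6 (by norm_num)),
      hE.trans (mul_le_mul_of_nonneg_left h5 (by norm_num))⟩
  rcases h8 with h8 | h8 <;> rcases hC with hC | hC
  · exact aux3 1 (Or.inl rfl) h8 hC
  · exact aux3 (-1) (Or.inr rfl) h8 hC
  · exact aux5 1 (Or.inl rfl) h8 hC
  · exact aux5 (-1) (Or.inr rfl) h8 hC

end Pool.Agent.LibNF95
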