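import Pool.Agent.LibSW40.Defs

/-!
ROW Z1 (MEDIUM). `ζ L(χ²) L(χ) L(χ⁻¹) = ∑ a_n n^(-s)` with `a_n ≥ 0`, `a_1 = 1`, for `χ^4 = 1`.

PLAN. Adapt `LibSW40/S2b.lean` (all its private lemmas may be copied under the prefix Z1_). `ψ = χ ^ 2`, `ψ ^ 2 = 1`, `z = zetaMul ψ = 1 * ψ`,
`a = z * (χ · z)` (Dirichlet convolution), `χ · z = χ * (χ ψ) = χ * χ³ = χ * χ⁻¹`. `a` is multiplicative; at `p^k`, with `α = χ p`, `α = 0` or `α ^ 4 = 1`
(`α ∈ {1, -1, I, -I}`), `a (p^k) = ∑_{i + j = k} r_i α^j r_j`, `r_i = ∑_{l ≤ i} (α²)^l`: `α = 0`: `r_i = 1`, the sum is `1`;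
`α = 1`: clear; `α = -1`: `r_i = i + 1`, `∑ (i+1)(-1)^j(j+1) ≥ 0` (`s2b_alt'`); `α = ± I`: `r_i = 1` for `i` even, `0` for `i` odd:
the sum is `0` for `k` odd, `∑_{j ≤ k, j even} (-1)^(j/2) ∈ {0, 1}` for `k` even. (It is the coefficient of `X^k` in `1/(1 - X^4)`.)
-/

set_option autoImplicit false

namespace Pool.Agent.LibNF95

open Complex DirichletCharacter
open scoped ComplexOrder

section Z1sec

open ArithmeticFunction

private theorem Z1_zm {q : ℕ} (χ : DirichletCharacter ℂ q) {p : ℕ} (hp : p.Prime) (i : ℕ) :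
    zetaMul χ (p ^ i) = ∑ j ∈ Finset.range (i + 1), χ (p : ZMod q) ^ j := by
  simp only [zetaMul, toArithmeticFunction, coe_zeta_mul_apply, coe_mk,
    Nat.sum_divisors_prime_pow hp, pow_eq_zero_iff', hp.ne_zero, ne_eq, false_and, ↓reduceIte,
    Nat.cast_pow, map_pow]

private theorem Z1_alt (c : ℂ) (n : ℕ) :
    ∑ j ∈ Finset.range n, (-1 : ℂ) ^ j * (((j : ℂ) + 1) * (c - j + 1)) =
      (c + 2) / 4 + (-1 : ℂ) ^ n * ((n : ℂ) ^ 2 / 2 - (c + 1) * n / 2 - (c + 2) / 4) := by
  induction n with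
  | zero => simp
  | succ n ih =>
    rw [Finset.sum_range_succ, ih, pow_succ]
    push_cast
    ring

private theorem Z1_alt' (k : ℕ) :
    (0 : ℂ) ≤ ∑ i ∈ Finset.range (k + 1), ((i : ℂ) + 1) * ((-1 : ℂ) ^ (k - i) *
      (((k - i : ℕ) : ℂ) + 1)) := by
  have h1 : ∑ i ∈ Finset.range (k + 1), ((i : ℂ) + 1) * ((-1 : ℂ) ^ (k - i) *
      (((k - i : ℕ) : ℂ) + 1)) =
      ∑ j ∈ Finset.range (k + 1), (-1 : ℂ) ^ j * (((j : ℂ) + 1) * ((k : ℂ) - j + 1)) := by
    rw [← Finset.sum_range_reflect]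
    refine Finset.sum_congr rfl fun j hj => ?_
    have hj' : j ≤ k := Nat.lt_succ_iff.1 (Finset.mem_range.1 hj)
    have e1 : k + 1 - 1 - j = k - j := by omega
    have e2 : k - (k - j) = j := by omega
    rw [e1, e2, Nat.cast_sub hj']
    ring
  rw [h1, Z1_alt]
  have h2 : ((k : ℂ) + 2) / 4 + (-1 : ℂ) ^ (k + 1) * (((k + 1 : ℕ) : ℂ) ^ 2 / 2 -
      ((k : ℂ) + 1) * ((k + 1 : ℕ) : ℂ) / 2 - ((k : ℂ) + 2) / 4) =
      ((k : ℂ) + 2) / 4 * (1 + (-1 : ℂ) ^ k) := by
    rw [pow_succ]
    push_cast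
    ring
  rw [h2]
  rcases Nat.even_or_odd k with hk | hk
  · rw [hk.neg_one_pow]
    have h3 : ((k : ℂ) + 2) / 4 * (1 + 1) = ((((k : ℝ) + 2) / 4 * (1 + 1) : ℝ) : ℂ) := by
      push_cast
      ring
    rw [h3]
    exact Complex.zero_le_real.2 (by positivity)
  · rw [hk.neg_one_pow]
    simp


private theorem Z1_I (β : ℂ) (hβ : β ^ 2 = -1) (m : ℕ) :
    ∑ j ∈ Finset.range (2 * m + 1), (if _root_.Even (j + 1) then (0 : ℂ) else 1) * β ^ j =
      if _root_.Even m then 1 else 0 := by
  induction m with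
  | zero => simp
  | succ m ih =>
    have e : 2 * (m + 1) + 1 = (2 * m + 1) + 1 + 1 := by ring
    rw [e, Finset.sum_range_succ, Finset.sum_range_succ, ih]
    have h1 : _root_.Even (2 * m + 1 + 1) := ⟨m + 1, by ring⟩
    have h2 : ¬ _root_.Even (2 * m + 1 + 1 + 1) := by
      rw [Nat.even_add_one, not_not]
      exact h1
    rw [if_pos h1, if_neg h2]
    have h3 : β ^ (2 * m + 1 + 1) = (-1 : ℂ) ^ (m + 1) := by
      have : 2 * m + 1 + 1 = 2 * (m + 1) := by ring
      rw [this, pow_mul, hβ]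
    rw [h3]
    by_cases hm : _root_.Even m
    · have hm' : ¬ _root_.Even (m + 1) := by
        rw [Nat.even_add_one, not_not]
        exact hm
      have h4 : (-1 : ℂ) ^ (m + 1) = -1 := by
        rw [pow_succ, hm.neg_one_pow, one_mul]
      rw [if_pos hm, if_neg hm', h4]
      ring
    · have hm' : _root_.Even (m + 1) := by
        rw [Nat.even_add_one]
        exact hm
      rw [if_neg hm, if_pos hm', hm'.neg_one_pow]
      ring

private theorem Z1_pp (β : ℂ) (hβ : β = 0 ∨ β ^ 4 = 1) (k : ℕ) :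
    0 ≤ ∑ i ∈ Finset.range (k + 1), (∑ j ∈ Finset.range (i + 1), (β ^ 2) ^ j) *
      (β ^ (k - i) * ∑ j ∈ Finset.range (k - i + 1), (β ^ 2) ^ j) := by
  rcases hβ with hb | hb
  · subst hb
    have hr : ∀ i : ℕ, 0 ≤ ∑ j ∈ Finset.range (i + 1), ((0 : ℂ) ^ 2) ^ j := by
      intro i
      refine Finset.sum_nonneg fun i _ ↦ ?_
      rw [zero_pow two_ne_zero]
      exact pow_nonneg le_rfl _
    refine Finset.sum_nonneg fun i _ ↦ mul_nonneg (hr i) (mul_nonneg ?_ (hr (k - i)))
    exact pow_nonneg le_rfl _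
  · have h2 : β ^ 2 = 1 ∨ β ^ 2 = -1 := by
      have : (β ^ 2 - 1) * (β ^ 2 + 1) = 0 := by
        have e : (β ^ 2 - 1) * (β ^ 2 + 1) = β ^ 4 - 1 := by ring
        rw [e, hb, sub_self]
      rcases mul_eq_zero.mp this with h | h
      · left; exact sub_eq_zero.mp h
      · right; exact eq_neg_of_add_eq_zero_left h
    rcases h2 with h2 | h2
    · simp only [h2, one_pow, Finset.sum_const, Finset.card_range, nsmul_eq_mul, mul_one]
      have h2' : β = 1 ∨ β = -1 := by
        have : (β - 1) * (β + 1) = 0 := by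
          have e : (β - 1) * (β + 1) = β ^ 2 - 1 := by ring
          rw [e, h2, sub_self]
        rcases mul_eq_zero.mp this with h | h
        · left; exact sub_eq_zero.mp h
        · right; exact eq_neg_of_add_eq_zero_left h
      rcases h2' with h3 | h3
      · subst h3
        refine Finset.sum_nonneg fun i _ ↦ ?_
        rw [one_pow, one_mul]
        exact mul_nonneg (Nat.cast_nonneg _) (Nat.cast_nonneg _)
      · subst h3
        have h4 := Z1_alt' k
        push_cast at h4 ⊢
        exact h4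
    · simp only [h2, neg_one_geom_sum]
      by_cases hk : _root_.Even k
      · obtain ⟨m, hm⟩ := hk
        have hk2 : k = 2 * m := by omega
        have h5 : ∑ i ∈ Finset.range (k + 1), (if _root_.Even (i + 1) then (0 : ℂ) else 1) *
            (β ^ (k - i) * (if _root_.Even (k - i + 1) then (0 : ℂ) else 1)) =
            ∑ i ∈ Finset.range (k + 1), (if _root_.Even (i + 1) then (0 : ℂ) else 1) * β ^ i := by
          rw [← Finset.sum_range_reflect (fun i => (if _root_.Even (i + 1) then (0 : ℂ) else 1) * β ^ i)]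
          refine Finset.sum_congr rfl fun i hi => ?_
          have hi' : i ≤ k := Nat.lt_succ_iff.1 (Finset.mem_range.1 hi)
          have e1 : k + 1 - 1 - i = k - i := by omega
          rw [e1]
          by_cases h6 : _root_.Even (k - i + 1)
          · rw [if_pos h6]
            ring
          · rw [if_neg h6]
            have h7 : ¬ _root_.Even (i + 1) := by
              intro h8
              apply h6
              have h9 : k - i + 1 = 2 * m - i + 1 := by rw [hk2]
              obtain ⟨a, ha⟩ := h8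
              exact ⟨m - a + 1, by omega⟩
            rw [if_neg h7]
            ring
        rw [h5, hk2, Z1_I β h2 m]
        split_ifs
        exacts [zero_le_one, le_rfl]
      · apply le_of_eq
        symm
        apply Finset.sum_eq_zero
        intro i hi
        have hi' : i ≤ k := Nat.lt_succ_iff.1 (Finset.mem_range.1 hi)
        by_cases h6 : _root_.Even (i + 1)
        · rw [if_pos h6, zero_mul]
        · have h7 : _root_.Even (k - i + 1) := by
            rw [Nat.even_add_one, not_not] at h6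
            rw [Nat.even_add_one]
            intro h8
            apply hk
            obtain ⟨a, ha⟩ := h6
            obtain ⟨b, hb⟩ := h8
            exact ⟨a + b, by omega⟩
          rw [if_pos h7, mul_zero, mul_zero]

private theorem Z1_main {q : ℕ} [NeZero q] (ψ χ η : DirichletCharacter ℂ q)
    (hsq : ∀ x : ZMod q, ψ x = χ x ^ 2) (hval : ∀ x : ZMod q, η x = ψ x * χ x)
    (h4' : ∀ x : ZMod q, χ x = 0 ∨ χ x ^ 4 = 1) :
    ∃ a : ℕ → ℂ, (∀ n, 0 ≤ a n) ∧ a 1 = 1 ∧ ∀ s : ℂ, 1 < s.re →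
      LSeriesSummable a s ∧
        LSeries a s = riemannZeta s * LFunction ψ s * LFunction χ s * LFunction η s := by
  set c₂ : ArithmeticFunction ℂ := toArithmeticFunction (χ ·) with hc₂
  set c₃ : ArithmeticFunction ℂ := toArithmeticFunction (η ·) with hc₃
  have hb : c₂ * c₃ = c₂.pmul (zetaMul ψ) := by
    ext n
    rcases eq_or_ne n 0 with rfl | hn
    · simp
    rw [ArithmeticFunction.mul_apply, pmul_apply, zetaMul, ArithmeticFunction.mul_apply,
      Finset.mul_sum]
    refine Finset.sum_congr rfl fun x hx => ?_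
    obtain ⟨hx1, _⟩ := Nat.mem_divisorsAntidiagonal.1 hx
    have hx2 : x.1 ≠ 0 := by
      intro h
      rw [h, zero_mul] at hx1
      exact hn hx1.symm
    have hx3 : x.2 ≠ 0 := by
      intro h
      rw [h, mul_zero] at hx1
      exact hn hx1.symm
    rw [hc₂, hc₃, ← apply_eq_toArithmeticFunction_apply _ hx2,
      ← apply_eq_toArithmeticFunction_apply _ hx3, ← apply_eq_toArithmeticFunction_apply _ hn,
      ← apply_eq_toArithmeticFunction_apply _ hx3, hval, natCoe_apply, zeta_apply_ne hx2,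
      ← hx1, Nat.cast_mul, map_mul, Nat.cast_one]
    ring
  have hmul : (zetaMul ψ * (c₂ * c₃)).IsMultiplicative := by
    rw [hb]
    exact (isMultiplicative_zetaMul ψ).mul
      ((isMultiplicative_toArithmeticFunction χ).pmul (isMultiplicative_zetaMul ψ))
  refine ⟨fun n => (zetaMul ψ * (c₂ * c₃)) n, ?_, ?_, ?_⟩
  · intro n
    rcases eq_or_ne n 0 with rfl | hn
    · simp only [ArithmeticFunction.map_zero, le_refl]
    have hpp : ∀ p ∈ n.primeFactors, 0 ≤ (zetaMul ψ * (c₂ * c₃)) (p ^ n.factorization p) := by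
      intro p hp
      have hpr := Nat.prime_of_mem_primeFactors hp
      set k := n.factorization p
      have hβ : χ (p : ZMod q) = 0 ∨ χ (p : ZMod q) ^ 4 = 1 := h4' _
      have h1 := Z1_pp (χ (p : ZMod q)) hβ k
      have h2 : (zetaMul ψ * (c₂ * c₃)) (p ^ k) =
          ∑ i ∈ Finset.range (k + 1), (∑ j ∈ Finset.range (i + 1), (χ (p : ZMod q) ^ 2) ^ j) *
            (χ (p : ZMod q) ^ (k - i) *
              ∑ j ∈ Finset.range (k - i + 1), (χ (p : ZMod q) ^ 2) ^ j) := by
        rw [hb, ArithmeticFunction.mul_apply, Nat.sum_divisorsAntidiagonal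
          (f := fun x y => (zetaMul ψ) x * (c₂.pmul (zetaMul ψ)) y),
          Nat.sum_divisors_prime_pow hpr]
        refine Finset.sum_congr rfl fun i hi => ?_
        have hi' : i ≤ k := Nat.lt_succ_iff.1 (Finset.mem_range.1 hi)
        have h3 : p ^ k / p ^ i = p ^ (k - i) := Nat.pow_div hi' hpr.pos
        have h4 : p ^ (k - i) ≠ 0 := pow_ne_zero _ hpr.ne_zero
        rw [h3, pmul_apply, Z1_zm ψ hpr, Z1_zm ψ hpr, hc₂,
          ← apply_eq_toArithmeticFunction_apply _ h4, Nat.cast_pow, map_pow, hsq]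
      rw [h2]
      exact h1
    have h5 := hmul.multiplicative_factorization _ hn
    show 0 ≤ (zetaMul ψ * (c₂ * c₃)) n
    rw [h5]
    exact Finset.prod_nonneg fun p hp => hpp p hp
  · exact hmul.map_one
  · intro s hs
    have hs1 : LSeriesSummable (fun n => zetaMul ψ n) s := LSeriesSummable_zetaMul ψ hs
    have hs2 : LSeriesSummable (fun n => c₂ n) s :=
      (LSeriesSummable_congr _ fun h => (χ.apply_eq_toArithmeticFunction_apply h).symm).mpr <|
        ZMod.LSeriesSummable_of_one_lt_re χ hs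
    have hs3 : LSeriesSummable (fun n => c₃ n) s :=
      (LSeriesSummable_congr _ fun h =>
        (η.apply_eq_toArithmeticFunction_apply h).symm).mpr <|
        ZMod.LSeriesSummable_of_one_lt_re η hs
    have hs4 : LSeriesSummable (fun n => (c₂ * c₃) n) s :=
      ArithmeticFunction.LSeriesSummable_mul hs2 hs3
    refine ⟨ArithmeticFunction.LSeriesSummable_mul hs1 hs4, ?_⟩
    rw [ArithmeticFunction.LSeries_mul' hs1 hs4, ArithmeticFunction.LSeries_mul' hs2 hs3]
    have e2 : LSeries (fun n => c₂ n) s = LFunction χ s := by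
      rw [LFunction_eq_LSeries χ hs]
      exact LSeries_congr (fun h => (χ.apply_eq_toArithmeticFunction_apply h).symm) s
    have e3 : LSeries (fun n => c₃ n) s = LFunction η s := by
      rw [LFunction_eq_LSeries η hs]
      exact LSeries_congr
        (fun h => (η.apply_eq_toArithmeticFunction_apply h).symm) s
    have e1 : LSeries (fun n => zetaMul ψ n) s = riemannZeta s * LFunction ψ s := by
      rw [zetaMul, ← ArithmeticFunction.coe_mul, LSeries_convolution',
        LFunction_eq_LSeries ψ hs]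
      · congr 1
        · simp_rw [← LSeries_zeta_eq_riemannZeta hs, ← natCoe_apply]
        · exact LSeries_congr (fun h => (ψ.apply_eq_toArithmeticFunction_apply h).symm) s
      · exact LSeriesSummable_zeta_iff.mpr hs
      · exact (LSeriesSummable_congr _ fun h =>
          (ψ.apply_eq_toArithmeticFunction_apply h).symm).mpr <|
          ZMod.LSeriesSummable_of_one_lt_re ψ hs
    rw [e1, e2, e3]
    ring

private theorem Z1_fin {q : ℕ} [NeZero q] (χ : DirichletCharacter ℂ q) (h : χ ^ 4 = 1) :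
    ∃ a : ℕ → ℂ, (∀ n, 0 ≤ a n) ∧ a 1 = 1 ∧ ∀ s : ℂ, 1 < s.re →
      LSeriesSummable a s ∧
        LSeries a s = riemannZeta s * LFunction (χ ^ 2) s * LFunction χ s * LFunction χ⁻¹ s := by
  have hinv : χ⁻¹ = χ ^ 2 * χ := by
    apply inv_eq_of_mul_eq_one_left
    rw [← pow_succ, ← pow_succ]
    exact h
  refine Z1_main (χ ^ 2) χ χ⁻¹ ?_ ?_ ?_
  · intro x
    rw [MulChar.pow_apply' χ two_ne_zero]
  · intro x
    rw [hinv, MulChar.mul_apply]
  · intro x
    by_cases hu : IsUnit x
    · right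
      rw [← MulChar.pow_apply' χ (by norm_num : (4 : ℕ) ≠ 0), h, MulChar.one_apply hu]
    · left
      exact MulChar.map_nonunit χ hu

end Z1sec

theorem coef4q {q : ℕ} [NeZero q] (χ : DirichletCharacter ℂ q) (h : χ ^ 4 = 1) :
    ∃ a : ℕ → ℂ, (∀ n, 0 ≤ a n) ∧ a 1 = 1 ∧ ∀ s : ℂ, 1 < s.re →
      LSeriesSummable a s ∧
        LSeries a s = riemannZeta s * LFunction (χ ^ 2) s * LFunction χ s * LFunction χ⁻¹ s :=
  Z1_fin χ h

end Pool.Agent.LibNF95
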