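import Pool.Agent.LibSW40.S6
import Pool.Agent.LibSW40.S5

/-!
ROW Z2 (MEDIUM). Three analytic facts with explicit constants. `riemannZeta₁ s = (s - 1) ζ(s)`.

PLAN. `zeta1_le`: `LibZM.zeta_approx` with `N = 1`: `‖ζ(s) - (1 - 1/(1-s))‖ ≤ ‖s‖ / s.re`; in the disc `s.re ≥ 1/2`, `‖s‖ ≤ 7/2`, `‖s - 1‖ ≤ 5/2`, so
`‖(s - 1) ζ(s)‖ ≤ 5/2 * (1 + 7) + 1 = 21` (`s ≠ 1`; `s = 1`: `riemannZeta₁_one`).
`L_conj`: both sides are entire in `s` (conjugate of `L(conj s, χ)` is entire), equal for `s.re > 1` (`LFunction_eq_LSeries`, termwise: `conj (χ n) = χ⁻¹ n`), so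
equal at every real point by the identity theorem; or: `LibMaier.LT_approx` for both (the partial sums are conjugate) at `β > 0`.
`L_one_of_zero`: `Λ = 14 + 3 log q`. For `σ ∈ [γ, 1]` and `‖s - σ‖ ≤ r = 1/(4 + log q) ≤ 1/4`: `s.re ≥ 1 - 1/56 - 1/4 ≥ 0.73`, `‖s‖ ≤ 5/4`,
`(1 - s.re) log q ≤ 1/12 + 1`, `q^(1 - s.re) ≤ e^(1.0834) ≤ 3` (for `s.re ≤ 1`; for `s.re ≥ 1` it is `≤ 1`); `LT_approx` with `N = q`:
`‖L(s)‖ ≤ ∑_{n ≤ q} n^(-s.re) + q (2 + 1.72) q^(-s.re) ≤ 3 (1 + log q) + 3 * 3.72 ≤ 3 (4.72 + log q)`. Cauchy: `‖L'(σ)‖ ≤ (4 + log q) * 3 (4.72 + log q)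
≤ 4 Λ (4 + log q)`. Mean value inequality on `[γ, 1]`.
-/

set_option autoImplicit false

namespace Pool.Agent.LibNF95

open Complex DirichletCharacter

theorem zeta1_le : ∀ s ∈ Metric.closedBall (2 : ℂ) (3 / 2), ‖riemannZeta₁ s‖ ≤ 21 := by
  intro s hs
  rw [Metric.mem_closedBall, Complex.dist_eq] at hs
  have h1 : 1 / 2 ≤ s.re := by
    have h2 := (Complex.abs_re_le_norm (s - 2)).trans hs
    rw [Complex.sub_re, Complex.re_ofNat] at h2
    linarith [(abs_le.1 h2).1]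
  have h3 : ‖s‖ ≤ 7 / 2 := by
    have h4 : ‖s‖ ≤ ‖s - 2‖ + ‖(2 : ℂ)‖ := by
      have := norm_add_le (s - 2) 2
      rwa [sub_add_cancel] at this
    have h5 : ‖(2 : ℂ)‖ = 2 := by simp
    rw [h5] at h4
    linarith
  have h6 : ‖s - 1‖ ≤ 5 / 2 := by
    have h4 : ‖s - 1‖ ≤ ‖s - 2‖ + ‖(1 : ℂ)‖ := by
      have := norm_add_le (s - 2) 1
      rwa [show s - 2 + 1 = s - 1 by ring] at this
    rw [norm_one] at h4
    linarith
  by_cases hs1 : s = 1
  · rw [hs1, riemannZeta₁_one, norm_one]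
    norm_num
  · have hs0 : 0 < s.re := by linarith
    have hz := LibZM.zeta_approx hs0 hs1 (le_refl 1)
    simp only [Finset.Icc_self, Finset.sum_singleton, Nat.cast_one, Complex.one_cpow,
      Real.one_rpow, mul_one] at hz
    have h7 : ‖s‖ / s.re ≤ 7 := by
      rw [div_le_iff₀ hs0]
      linarith
    have hz7 := hz.trans h7
    have h8 : s - 1 ≠ 0 := sub_ne_zero.mpr hs1
    have h8' : (1 : ℂ) - s ≠ 0 := sub_ne_zero.mpr (Ne.symm hs1)
    have e : riemannZeta₁ s = (s - 1) * (riemannZeta s - (1 - 1 / (1 - s))) + s := by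
      have e1 : riemannZeta₁ s = (s - 1) * riemannZeta s := by
        rw [riemannZeta_eq_inv_sub_mul hs1, ← mul_assoc, mul_inv_cancel₀ h8, one_mul]
      rw [e1]
      field_simp
      ring
    rw [e]
    refine (norm_add_le _ _).trans ?_
    rw [norm_mul]
    have h9 : ‖s - 1‖ * ‖riemannZeta s - (1 - 1 / (1 - s))‖ ≤ 5 / 2 * 7 :=
      mul_le_mul h6 hz7 (norm_nonneg _) (by norm_num)
    linarith

private theorem Z2_lim {q : ℕ} [NeZero q] {χ : DirichletCharacter ℂ q} (hχ : χ ≠ 1) (w : ℂ)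
    (hw : 0 < w.re) :
    Filter.Tendsto (fun N : ℕ => LibMaier.LT χ N w) Filter.atTop (nhds (LFunction χ w)) := by
  rw [tendsto_iff_norm_sub_tendsto_zero]
  have h1 : Filter.Tendsto (fun N : ℕ => (q : ℝ) * (2 + ‖w‖ / w.re) * (N : ℝ) ^ (-w.re))
      Filter.atTop (nhds ((q : ℝ) * (2 + ‖w‖ / w.re) * 0)) :=
    ((tendsto_rpow_neg_atTop hw).comp tendsto_natCast_atTop_atTop).const_mul _
  rw [mul_zero] at h1
  refine squeeze_zero' (Filter.Eventually.of_forall fun _ => norm_nonneg _) ?_ h1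
  filter_upwards [Filter.eventually_ge_atTop 1] with N hN
  rw [norm_sub_rev]
  exact LibMaier.LT_approx hχ hw hN

theorem L_conj {q : ℕ} [NeZero q] {χ : DirichletCharacter ℂ q} (hχ : χ ≠ 1) {β : ℝ} (hβ : 0 < β) :
    LFunction χ⁻¹ (β : ℂ) = (starRingEnd ℂ) (LFunction χ (β : ℂ)) := by
  have hβ' : 0 < (β : ℂ).re := by rw [ofReal_re]; exact hβ
  have hi : χ⁻¹ ≠ 1 := by
    intro h
    exact hχ (inv_eq_one.mp h)
  have hconj : ∀ N : ℕ, LibMaier.LT χ⁻¹ N (β : ℂ) =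
      (starRingEnd ℂ) (LibMaier.LT χ N (β : ℂ)) := by
    intro N
    unfold LibMaier.LT
    rw [map_sum]
    apply Finset.sum_congr rfl
    intro n hn
    rw [map_mul]
    have h3 : (starRingEnd ℂ) ((n : ℂ) ^ (-(β : ℂ))) = (n : ℂ) ^ (-(β : ℂ)) := by
      have h4 := Complex.cpow_conj (n : ℂ) (-(β : ℂ)) (by
        rw [Complex.natCast_arg]
        exact Real.pi_pos.ne)
      rw [Complex.conj_natCast, map_neg, Complex.conj_ofReal] at h4
      exact h4.symm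
    rw [h3]
    congr 1
    exact (MulChar.star_apply' χ _).symm
  have h1 := Z2_lim hi (β : ℂ) hβ'
  have h2 : Filter.Tendsto (fun N : ℕ => LibMaier.LT χ⁻¹ N (β : ℂ)) Filter.atTop
      (nhds ((starRingEnd ℂ) (LFunction χ (β : ℂ)))) := by
    simp_rw [hconj]
    exact (Complex.continuous_conj.tendsto _).comp (Z2_lim hχ (β : ℂ) hβ')
  exact tendsto_nhds_unique h1 h2

private theorem Z2_exp : Real.exp (13 / 12) ≤ 3 := by
  have h1 : Real.exp (13 / 12) = Real.exp 1 * Real.exp (1 / 12) := by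
    rw [← Real.exp_add]
    norm_num
  have h2 := Real.exp_one_lt_d9
  have h3 : Real.exp (1 / 12 : ℝ) ≤ 12 / 11 := by
    have h4 := Real.one_sub_le_exp_neg (1 / 12 : ℝ)
    rw [Real.exp_neg] at h4
    have h5 : (0 : ℝ) < Real.exp (1 / 12) := Real.exp_pos _
    rw [← one_div, le_div_iff₀ h5] at h4
    rw [le_div_iff₀ (by norm_num)]
    linarith
  rw [h1]
  have h6 : (0 : ℝ) < Real.exp (1 / 12) := Real.exp_pos _
  nlinarith

private theorem Z2_pow {q : ℕ} {a : ℝ} (ha : 0 ≤ a)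
    (haq : a * Real.log q ≤ 13 / 12) {x : ℝ} (hx : 1 - x ≤ a) (n : ℕ) (hn : 1 ≤ n) (hnq : n ≤ q) :
    (n : ℝ) ^ (1 - x) ≤ 3 := by
  have hn0 : (0 : ℝ) < n := by exact_mod_cast hn
  have hn1 : (1 : ℝ) ≤ n := by exact_mod_cast hn
  have hl : 0 ≤ Real.log n := Real.log_nonneg hn1
  have hlq : Real.log n ≤ Real.log q := Real.log_le_log hn0 (by exact_mod_cast hnq)
  rw [Real.rpow_def_of_pos hn0]
  refine (Real.exp_le_exp.mpr ?_).trans Z2_exp
  calc Real.log n * (1 - x) ≤ Real.log n * a := mul_le_mul_of_nonneg_left hx hl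
    _ ≤ Real.log q * a := mul_le_mul_of_nonneg_right hlq ha
    _ = a * Real.log q := mul_comm _ _
    _ ≤ 13 / 12 := haq

private theorem Z2_bd {q : ℕ} [NeZero q] {χ : DirichletCharacter ℂ q} (hχ : χ ≠ 1) {a : ℝ}
    (ha : 0 ≤ a) (ha1 : a ≤ 15 / 56) (haq : a * Real.log q ≤ 13 / 12) {s : ℂ} (hs : 1 - s.re ≤ a)
    (hs2 : ‖s‖ ≤ 5 / 4) : ‖LFunction χ s‖ ≤ 3 * (472 / 100 + Real.log q) := by
  have hq1 : 1 ≤ q := NeZero.one_le
  have hq : (1 : ℝ) ≤ q := by exact_mod_cast hq1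
  have hq0 : (0 : ℝ) < q := by linarith
  have hs0 : 41 / 56 ≤ s.re := by linarith
  have hs0' : 0 < s.re := by linarith
  have h1 := LibMaier.LT_approx hχ (s := s) hs0' hq1
  have hr : ‖s‖ / s.re ≤ 172 / 100 := by
    rw [div_le_iff₀ hs0']
    linarith
  have hpq := Z2_pow ha haq hs q hq1 (le_refl q)
  have h2 : (q : ℝ) * (2 + ‖s‖ / s.re) * (q : ℝ) ^ (-s.re) ≤ 3 * (372 / 100) := by
    have e : (q : ℝ) * (2 + ‖s‖ / s.re) * (q : ℝ) ^ (-s.re) =
        (q : ℝ) ^ (1 - s.re) * (2 + ‖s‖ / s.re) := by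
      rw [show (1 : ℝ) - s.re = 1 + -s.re by ring, Real.rpow_add hq0, Real.rpow_one]
      ring
    rw [e]
    exact mul_le_mul hpq (by linarith) (by positivity) (by norm_num)
  have h3 : ‖LibMaier.LT χ q s‖ ≤ 3 * (1 + Real.log q) := by
    have h4 : ‖LibMaier.LT χ q s‖ ≤ ∑ n ∈ Finset.Icc 1 q, 3 * ((n : ℝ))⁻¹ := by
      unfold LibMaier.LT
      refine (norm_sum_le _ _).trans (Finset.sum_le_sum fun n hn => ?_)
      rw [Finset.mem_Icc] at hn
      have hn0 : (0 : ℝ) < n := by exact_mod_cast hn.1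
      rw [norm_mul]
      have h5 : ‖(n : ℂ) ^ (-s)‖ ≤ 3 * ((n : ℝ))⁻¹ := by
        rw [Complex.norm_natCast_cpow_of_pos (by omega), Complex.neg_re]
        have h6 := Z2_pow ha haq hs n hn.1 hn.2
        rw [show (1 : ℝ) - s.re = 1 + -s.re by ring, Real.rpow_add hn0, Real.rpow_one] at h6
        rw [← div_eq_mul_inv, le_div_iff₀ hn0]
        linarith
      calc ‖χ (n : ZMod q)‖ * ‖(n : ℂ) ^ (-s)‖ ≤ 1 * (3 * ((n : ℝ))⁻¹) :=
            mul_le_mul (DirichletCharacter.norm_le_one χ _) h5 (norm_nonneg _) zero_le_one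
        _ = 3 * ((n : ℝ))⁻¹ := one_mul _
    have h6 := harmonic_le_one_add_log q
    rw [harmonic_eq_sum_Icc] at h6
    push_cast at h6
    rw [← Finset.mul_sum] at h4
    linarith
  have h7 : ‖LFunction χ s‖ ≤ ‖LFunction χ s - LibMaier.LT χ q s‖ + ‖LibMaier.LT χ q s‖ := by
    have := norm_add_le (LFunction χ s - LibMaier.LT χ q s) (LibMaier.LT χ q s)
    rwa [sub_add_cancel] at this
  linarith

theorem L_one_of_zero {q : ℕ} [NeZero q] {χ : DirichletCharacter ℂ q} (hχ : χ ≠ 1) {γ : ℝ}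
    (h1 : 1 - 1 / (4 * (14 + 3 * Real.log q)) ≤ γ) (h2 : γ < 1) (hz : LFunction χ (γ : ℂ) = 0) :
    ‖LFunction χ 1‖ ≤ (1 - γ) * (4 * (14 + 3 * Real.log q) * (4 + Real.log q)) := by
  have hq1 : 1 ≤ q := NeZero.one_le
  have hq : (1 : ℝ) ≤ q := by exact_mod_cast hq1
  have hL : 0 ≤ Real.log q := Real.log_nonneg hq
  set L := Real.log q with hLdef
  have hr0 : (0 : ℝ) < 1 / (4 + L) := by positivity
  have hg : 1 - γ ≤ 1 / (4 * (14 + 3 * L)) := by linarith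
  have hg56 : 1 / (4 * (14 + 3 * L)) ≤ 1 / 56 := by
    apply one_div_le_one_div_of_le (by norm_num)
    linarith
  have hr4 : 1 / (4 + L) ≤ 1 / 4 := by
    apply one_div_le_one_div_of_le (by norm_num)
    linarith
  have haq : (1 / (4 * (14 + 3 * L)) + 1 / (4 + L)) * L ≤ 13 / 12 := by
    have e1 : 1 / (4 * (14 + 3 * L)) * L ≤ 1 / 12 := by
      rw [one_div_mul_eq_div, div_le_iff₀ (by positivity)]
      linarith
    have e2 : 1 / (4 + L) * L ≤ 1 := by
      rw [one_div_mul_eq_div, div_le_iff₀ (by positivity)]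
      linarith
    rw [add_mul]
    linarith
  have hder : ∀ σ : ℝ, γ ≤ σ → σ ≤ 1 →
      ‖deriv (LFunction χ) (σ : ℂ)‖ ≤ 4 * (14 + 3 * L) * (4 + L) := by
    intro σ hσ1 hσ2
    have hd : DiffContOnCl ℂ (LFunction χ) (Metric.ball (σ : ℂ) (1 / (4 + L))) :=
      (differentiable_LFunction hχ).diffContOnCl
    have hσ0 : 0 ≤ σ := by linarith
    have hc := norm_deriv_le_of_forall_mem_sphere_norm_le hr0 hd
      (C := 3 * (472 / 100 + L)) (fun z hzz => by
        rw [mem_sphere_iff_norm] at hzz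
        refine Z2_bd hχ (a := 1 / (4 * (14 + 3 * L)) + 1 / (4 + L)) (by positivity)
          (by linarith) haq ?_ ?_
        · have h3 := Complex.abs_re_le_norm (z - (σ : ℂ))
          rw [hzz, Complex.sub_re, ofReal_re] at h3
          linarith [(abs_le.1 h3).1]
        · have h3 : ‖z‖ ≤ ‖z - (σ : ℂ)‖ + ‖(σ : ℂ)‖ := by
            have := norm_add_le (z - (σ : ℂ)) (σ : ℂ)
            rwa [sub_add_cancel] at this
          rw [hzz, Complex.norm_real, Real.norm_eq_abs, abs_of_nonneg hσ0] at h3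
          linarith)
    refine hc.trans ?_
    rw [div_div_eq_mul_div, div_one]
    apply mul_le_mul_of_nonneg_right _ (by positivity)
    linarith
  have hmv := Convex.norm_image_sub_le_of_norm_deriv_le (𝕜 := ℂ) (f := LFunction χ)
    (C := 4 * (14 + 3 * L) * (4 + L)) (s := segment ℝ ((γ : ℝ) : ℂ) 1) (x := (γ : ℂ)) (y := 1)
    (fun z _ => (differentiable_LFunction hχ) z) (fun z hzz => by
      obtain ⟨a, b, ha, hb, hab, rfl⟩ := hzz
      have e : a • ((γ : ℝ) : ℂ) + b • (1 : ℂ) = ((a * γ + b : ℝ) : ℂ) := by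
        push_cast
        simp
      rw [e]
      apply hder
      · nlinarith
      · nlinarith) (convex_segment _ _) (left_mem_segment ℝ _ _) (right_mem_segment ℝ _ _)
  rw [hz, sub_zero] at hmv
  have e2 : ‖(1 : ℂ) - (γ : ℂ)‖ = 1 - γ := by
    rw [show (1 : ℂ) - (γ : ℂ) = ((1 - γ : ℝ) : ℂ) by push_cast; ring, Complex.norm_real,
      Real.norm_eq_abs, abs_of_pos (by linarith)]
  rw [e2] at hmv
  linarith

end Pool.Agent.LibNF95
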