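import Pool.Agent.LibNF95.Z1
import Pool.Agent.LibNF95.Z2
import Pool.Agent.LibSW40.S1
import Pool.Agent.LibSW40.S3
import Pool.Agent.LibSW40.S4

/-!
ROW Z3 (MEDIUM/STRONG). Explicit lower bound for `|L(1, χ)|`, `χ` of order 4 (cites Z1, Z2 as stated; model: `LibSW40/S7.lean`, `S8.lean`).

PLAN. `ψ = χ ^ 2`, `P s = riemannZeta₁ s * L(s, ψ) * L(s, χ) * L(s, χ⁻¹)`, `M = 21 (10 q)^3` on the disc (`zeta1_le`, `LibSW40.L_disc`), `B = 4 M`,
`8 B = 672000 q^3`, `log (8 B) ≤ Λ = 14 + 3 log q` (`log 672000 < 14`, e.g. `672000 ≤ exp 14` from `exp 1 ≥ 2.7182818283`). `lam = (P 1).re = (L(1, ψ)).re * ‖L(1, χ)‖²`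
(`L_conj`, `L_im`, `riemannZeta₁_one`), `(L(1, ψ)).re > 0` (`LibSW40.L_pos`). `LibSW40.siegel_ineq` for `G = dslope P 1` with `β = β₀ = 1 - 1/(4 Λ)` (no zero
of `L(s, ψ)` on `[β₀, 1)`: `P β₀` is real and `≥ 0`: `zeta1_real`, `L_pos`, `L_conj`) or `β = γ` (zero `γ ∈ [β₀, 1)`, `P γ = 0`): `(1 - β)/6 * (8 B)^(-(4 (1-β))) ≤ lam`,
and `(8 B)^(-(4(1 - β))) = exp(-4 (1 - β) log (8 B)) ≥ exp(-1)`. First case: `lam ≤ (4 + log q) ‖L(1, χ)‖²` (`LibSW40.L_one_le`), `1 - β₀ = 1/(4 Λ)`.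
Second case: `lam ≤ (1 - γ) * (4 Λ (4 + log q)) ‖L(1, χ)‖²` (`L_one_of_zero`), divide by `1 - γ`. Both give `1 ≤ 24 e Λ (4 + log q) ‖L(1, χ)‖²`.
-/

set_option autoImplicit false

namespace Pool.Agent.LibNF95

open Complex DirichletCharacter

/-- The product of the four functions. -/
private noncomputable def Z3_P {q : ℕ} [NeZero q] (χ : DirichletCharacter ℂ q) (s : ℂ) : ℂ :=
  riemannZeta₁ s * LFunction (χ ^ 2) s * LFunction χ s * LFunction χ⁻¹ s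

private theorem Z3_ne {q : ℕ} {χ : DirichletCharacter ℂ q} (h2 : χ ^ 2 ≠ 1) : χ ≠ 1 := by
  rintro rfl
  exact h2 (one_pow 2)

private theorem Z3_sq {q : ℕ} {χ : DirichletCharacter ℂ q} (h4 : χ ^ 4 = 1) : (χ ^ 2) ^ 2 = 1 := by
  rw [← pow_mul]
  exact h4

private theorem Z3_re {q : ℕ} [NeZero q] {χ : DirichletCharacter ℂ q} (h4 : χ ^ 4 = 1)
    (h2 : χ ^ 2 ≠ 1) {β : ℝ} (h : 7 / 8 ≤ β) (h1 : β ≤ 1) :
    (Z3_P χ (β : ℂ)).re =
      (riemannZeta₁ (β : ℂ)).re * (LFunction (χ ^ 2) (β : ℂ)).re * ‖LFunction χ (β : ℂ)‖ ^ 2 := by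
  have hβ : 0 < β := by linarith
  have e1 := (LibSW40.zeta1_real h h1).1
  have e2 := LibSW40.L_im h2 (Z3_sq h4) hβ
  have e3 : LFunction χ (β : ℂ) * (starRingEnd ℂ) (LFunction χ (β : ℂ)) =
      ((‖LFunction χ (β : ℂ)‖ ^ 2 : ℝ) : ℂ) := by
    rw [Complex.mul_conj']
    push_cast
    rfl
  unfold Z3_P
  rw [L_conj (Z3_ne h2) hβ, mul_assoc, e3, Complex.re_mul_ofReal, Complex.mul_re, e1, e2,
    mul_zero, sub_zero]

/-- The main inequality at a point `β` with `(G β).re ≤ lam / (1 - β)`. -/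
private theorem Z3_main {q : ℕ} [NeZero q] {χ : DirichletCharacter ℂ q} (h4 : χ ^ 4 = 1)
    (h2 : χ ^ 2 ≠ 1) {β : ℝ} (h : 1 - 1 / (4 * (14 + 3 * Real.log q)) ≤ β) (h1 : β < 1)
    (hP0 : 0 ≤ (Z3_P χ (β : ℂ)).re) :
    (1 - β) / 6 * Real.exp (-1) ≤ (LFunction (χ ^ 2) 1).re * ‖LFunction χ 1‖ ^ 2 := by
  have hq0 : (0 : ℝ) < q := by exact_mod_cast Nat.pos_of_ne_zero (NeZero.ne q)
  have hq1 : (1 : ℝ) ≤ q := by exact_mod_cast Nat.one_le_iff_ne_zero.2 (NeZero.ne q)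
  have hlq : 0 ≤ Real.log q := Real.log_nonneg hq1
  have hχ := Z3_ne h2
  have hχi : χ⁻¹ ≠ 1 := fun h => hχ (inv_eq_one.1 h)
  obtain ⟨Λ, hΛ⟩ : ∃ Λ, Λ = 14 + 3 * Real.log q := ⟨_, rfl⟩
  rw [← hΛ] at h
  have hΛ14 : 14 ≤ Λ := by
    rw [hΛ]
    linarith
  have hβ1 : 4 * (1 - β) * Λ ≤ 1 := by
    have e1 : 1 - β ≤ 1 / (4 * Λ) := by linarith
    rw [le_div_iff₀ (by linarith)] at e1
    linarith
  have hβ78 : 7 / 8 ≤ β := by
    have e1 : 1 / (4 * Λ) ≤ 1 / 56 := by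
      apply one_div_le_one_div_of_le (by norm_num)
      linarith
    linarith
  have hP : Differentiable ℂ (Z3_P χ) := by
    unfold Z3_P
    exact ((differentiable_riemannZeta₁.mul (differentiable_LFunction h2)).mul
      (differentiable_LFunction hχ)).mul (differentiable_LFunction hχi)
  have hP1 : (Z3_P χ 1).re = (LFunction (χ ^ 2) 1).re * ‖LFunction χ 1‖ ^ 2 := by
    have e1 := Z3_re h4 h2 (β := 1) (by norm_num) le_rfl
    rw [Complex.ofReal_one, riemannZeta₁_one, Complex.one_re, one_mul] at e1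
    exact e1
  have hpos : 0 < (LFunction (χ ^ 2) 1).re :=
    (LibSW40.L_pos h2 (Z3_sq h4) (β := 1) one_pos le_rfl
      (fun γ h h' => absurd h' (not_lt.2 h))).2
  have hlam : 0 ≤ (Z3_P χ 1).re := by
    rw [hP1]
    positivity
  obtain ⟨a, ha, ha1, hL⟩ := coef4q χ h4
  have hL' : ∀ s : ℂ, 1 < s.re → LSeriesSummable a s ∧ LSeries a s = Z3_P χ s / (s - 1) := by
    intro s hs
    refine ⟨(hL s hs).1, ?_⟩
    have hs1 : s ≠ 1 := by
      intro h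
      rw [h] at hs
      simp at hs
    rw [(hL s hs).2, riemannZeta_eq_inv_sub_mul hs1]
    unfold Z3_P
    rw [div_eq_inv_mul]
    ring
  obtain ⟨hco, h0⟩ := LibSW40.coef_hyp hP ha ha1 hL'
  have hMB : ∀ s ∈ Metric.closedBall (2 : ℂ) (3 / 2),
      ‖Z3_P χ s‖ ≤ 21 * (10 * q) * (10 * q) * (10 * q) := by
    intro s hs
    unfold Z3_P
    rw [norm_mul, norm_mul, norm_mul]
    have e0 := zeta1_le s hs
    have e1 := LibSW40.L_disc h2 s hs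
    have e2 := LibSW40.L_disc hχ s hs
    have e3 := LibSW40.L_disc hχi s hs
    gcongr
  have hMe : 8 * (4 * (21 * (10 * (q : ℝ)) * (10 * q) * (10 * q))) = 672000 * (q : ℝ) ^ 3 := by
    ring
  have hM1 : 1 ≤ 4 * (21 * (10 * (q : ℝ)) * (10 * q) * (10 * q)) := by
    have e1 : (1 : ℝ) ≤ (q : ℝ) ^ 3 := one_le_pow₀ hq1
    nlinarith
  have hβne : (β : ℂ) ≠ 1 := by
    intro h
    have : β = 1 := by exact_mod_cast h
    linarith
  have hb : 0 < 1 - β := by linarith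
  have hF : (dslope (Z3_P χ) 1 (β : ℂ)).re ≤ (Z3_P χ 1).re / (1 - β) := by
    rw [dslope_of_ne _ hβne, slope_def_field]
    have e1 : (Z3_P χ (β : ℂ) - Z3_P χ 1) / ((β : ℂ) - 1) =
        (Z3_P χ 1 - Z3_P χ (β : ℂ)) / ((1 - β : ℝ) : ℂ) := by
      push_cast
      rw [← neg_sub (Z3_P χ 1), ← neg_sub (1 : ℂ), neg_div_neg_eq]
    rw [e1, Complex.div_ofReal_re, Complex.sub_re]
    gcongr
    linarith
  have hfin := LibSW40.siegel_ineq (LibSW40.differentiable_dslope_one hP) hM1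
    (LibSW40.bound_dslope hP hMB) hlam hco h0 hβ78 h1 hF
  rw [hMe, hP1] at hfin
  refine le_trans (mul_le_mul_of_nonneg_left ?_ (by positivity)) hfin
  have hX : 0 < 672000 * (q : ℝ) ^ 3 := by positivity
  rw [Real.rpow_def_of_pos hX, Real.exp_le_exp]
  have hlog : Real.log (672000 * (q : ℝ) ^ 3) ≤ Λ := by
    rw [Real.log_mul (by norm_num) (by positivity), Real.log_pow, hΛ]
    have e1 : Real.log 672000 ≤ 14 := by
      rw [Real.log_le_iff_le_exp (by norm_num)]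
      have e2 : Real.exp 14 = Real.exp 1 ^ 14 := by
        rw [← Real.exp_nat_mul]
        norm_num
      rw [e2]
      have e3 : (2.7 : ℝ) ≤ Real.exp 1 := by
        have := Real.exp_one_gt_d9
        linarith
      have e4 : (2.7 : ℝ) ^ 14 ≤ Real.exp 1 ^ 14 := pow_le_pow_left₀ (by norm_num) e3 14
      refine le_trans ?_ e4
      norm_num
    push_cast
    linarith
  have e5 : Real.log (672000 * (q : ℝ) ^ 3) * (4 * (1 - β)) ≤ Λ * (4 * (1 - β)) :=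
    mul_le_mul_of_nonneg_right hlog (by linarith)
  linarith

theorem quartic_lower {q : ℕ} [NeZero q] {χ : DirichletCharacter ℂ q} (h4 : χ ^ 4 = 1) (h2 : χ ^ 2 ≠ 1) :
    1 ≤ 24 * Real.exp 1 * (14 + 3 * Real.log q) * (4 + Real.log q) * ‖LFunction χ 1‖ ^ 2 := by
  have hq1 : (1 : ℝ) ≤ q := by exact_mod_cast Nat.one_le_iff_ne_zero.2 (NeZero.ne q)
  have hlq : 0 ≤ Real.log q := Real.log_nonneg hq1
  obtain ⟨Λ, hΛ⟩ : ∃ Λ, Λ = 14 + 3 * Real.log q := ⟨_, rfl⟩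
  obtain ⟨Q, hQ⟩ : ∃ Q, Q = 4 + Real.log q := ⟨_, rfl⟩
  obtain ⟨X, hX⟩ : ∃ X, X = ‖LFunction χ 1‖ ^ 2 := ⟨_, rfl⟩
  have hX0 : 0 ≤ X := by
    rw [hX]
    positivity
  have hΛ14 : 14 ≤ Λ := by
    rw [hΛ]
    linarith
  have hQ4 : 4 ≤ Q := by
    rw [hQ]
    linarith
  have hee : Real.exp 1 * Real.exp (-1) = 1 := by
    rw [← Real.exp_add]
    norm_num
  have he0 : 0 < Real.exp 1 := Real.exp_pos 1
  rw [← hΛ, ← hQ, ← hX]
  by_cases hz : ∃ γ : ℝ, 1 - 1 / (4 * Λ) ≤ γ ∧ γ < 1 ∧ LFunction (χ ^ 2) (γ : ℂ) = 0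
  · obtain ⟨γ, h1, h3, h0⟩ := hz
    have hP0 : (Z3_P χ (γ : ℂ)).re = 0 := by
      unfold Z3_P
      rw [h0]
      simp
    rw [hΛ] at h1
    have k1 := Z3_main h4 h2 h1 h3 hP0.ge
    have k2 := L_one_of_zero h2 h1 h3 h0
    rw [← hΛ, ← hQ] at k2
    rw [← hX] at k1
    have k3 : (LFunction (χ ^ 2) 1).re ≤ (1 - γ) * (4 * Λ * Q) :=
      (Complex.re_le_norm _).trans k2
    have k4 : (1 - γ) / 6 * Real.exp (-1) ≤ (1 - γ) * (4 * Λ * Q) * X :=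
      k1.trans (mul_le_mul_of_nonneg_right k3 hX0)
    have hb : 0 < 1 - γ := by linarith
    have k5 : (1 - γ) * (1 / 6 * Real.exp (-1)) ≤ (1 - γ) * (4 * Λ * Q * X) := by linarith
    have k6 : 1 / 6 * Real.exp (-1) ≤ 4 * Λ * Q * X := le_of_mul_le_mul_left k5 hb
    have k7 := mul_le_mul_of_nonneg_left k6 (by positivity : 0 ≤ 6 * Real.exp 1)
    linarith
  · push Not at hz
    have hΛ0 : 0 < Λ := by linarith
    have k0 : 1 / (4 * Λ) ≤ 1 / 56 := by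
      apply one_div_le_one_div_of_le (by norm_num)
      linarith
    have k00 : 0 < 1 / (4 * Λ) := by positivity
    have hβ78 : 7 / 8 ≤ 1 - 1 / (4 * Λ) := by linarith
    have hβ1 : 1 - 1 / (4 * Λ) < 1 := by linarith
    have hP0 : 0 ≤ (Z3_P χ ((1 - 1 / (4 * Λ) : ℝ) : ℂ)).re := by
      rw [Z3_re h4 h2 hβ78 hβ1.le]
      have e1 := (LibSW40.zeta1_real hβ78 hβ1.le).2
      have e2 := (LibSW40.L_pos h2 (Z3_sq h4) (β := 1 - 1 / (4 * Λ)) (by linarith) hβ1.le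
        (fun γ h1 h3 => hz γ h1 h3)).1
      positivity
    have h1 : 1 - 1 / (4 * (14 + 3 * Real.log q)) ≤ 1 - 1 / (4 * Λ) := by rw [hΛ]
    have k1 := Z3_main h4 h2 h1 hβ1 hP0
    rw [← hX] at k1
    have k2 : (LFunction (χ ^ 2) 1).re ≤ Q :=
      (Complex.re_le_norm _).trans (by rw [hQ]; exact LibSW40.L_one_le h2)
    have k3 := k1.trans (mul_le_mul_of_nonneg_right k2 hX0)
    have k4 : (1 - (1 - 1 / (4 * Λ))) / 6 * Real.exp (-1) * (24 * Λ * Real.exp 1) = 1 := by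
      have : (1 - (1 - 1 / (4 * Λ))) / 6 * Real.exp (-1) * (24 * Λ * Real.exp 1) =
          (Λ / Λ) * (Real.exp 1 * Real.exp (-1)) := by ring
      rw [this, hee, div_self hΛ0.ne', one_mul]
    have k5 := mul_le_mul_of_nonneg_right k3 (by positivity : 0 ≤ 24 * Λ * Real.exp 1)
    rw [k4] at k5
    linarith

end Pool.Agent.LibNF95
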