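import Pool.Agent.LibNF95.P1
import Pool.Agent.LibNF95.F2
import Pool.Agent.LibNF95.F3

/-!
ROW Z4 (MEDIUM). Index 4: upper bound for `|L(1, χ)|` (cites P1, F2, F3 as stated).

PLAN. `N % 8 = 5` (from `4 f = N - 1`, `f` odd). A character `χ` of order 4 exists (`MulChar.exists_mulChar_orderOf`, `Complex.isPrimitiveRoot_I` or the like:
`IsPrimitiveRoot Complex.I 4`). `χ ^ 2` has order 2, so `χ ^ 2` is the quadratic character (`ZMod N` has a cyclic unit group: e.g. `MulChar` of order 2 and value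
`-1` at a generator), `(χ 2) ^ 2 = -1` (`2` is a non-residue, `N % 8 = 5`, see `LibCycU`: `quadChar_two'`), so `‖1 - χ 2‖ ^ 2 = 2`. `-1 = a ^ 2` with `a`
a non-residue (`a ^ ((N-1)/2) = (-1)^f = -1`), so `χ (-1) = (χ ^ 2) a = -1`: `χ` is odd. `χ p = 1`: `(χ p)^f = 1`, `(χ p)^4 = 1`, `f` odd.
`sum_chi_T`: `f ‖bb χ‖ = ‖∑ χ T‖ ≤ ∑ |T| ≤ w (N - 1)/2 = 2 f w` because `T s = 0` unless `quadraticChar s = ε` (`h`: `quadraticChar s * T = ε T`; `s = 0`: `T 0 = 0`), and exactly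
`(N-1)/2` elements have `quadraticChar s = ε`. So `2 w ≥ ‖bb χ‖ = √2 ‖B1 χ‖ = √2 (√N/π) ‖L(1, χ⁻¹)‖`: `N ‖L(1, χ⁻¹)‖² ≤ 2 π² w²`; the witness is `χ⁻¹`.
-/

set_option autoImplicit false

open Finset Complex DirichletCharacter

namespace Pool.Agent.LibNF95

private theorem Z4_two {N : ℕ} [Fact N.Prime] (h8 : N % 8 = 5) :
    quadraticChar (ZMod N) 2 = -1 := by
  have hN : N ≠ 2 := by rintro rfl; omega
  rw [quadraticChar_two (by rwa [ZMod.ringChar_zmod_n]), ZMod.card, ZMod.χ₈_nat_eq_if_mod_eight]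
  split_ifs <;> omega

private theorem Z4_pow_apply {N : ℕ} [Fact N.Prime] (χ : DirichletCharacter ℂ N) (n : ℕ)
    {a : ZMod N} (ha : a ≠ 0) : (χ ^ n) a = (χ a) ^ n :=
  MulChar.pow_apply_coe χ n (Units.mk0 a ha)

private theorem Z4_four {N : ℕ} [Fact N.Prime] (χ : DirichletCharacter ℂ N) (h4 : χ ^ 4 = 1)
    {a : ZMod N} (ha : a ≠ 0) : (χ a) ^ 4 = 1 := by
  rw [← Z4_pow_apply χ 4 ha, h4]
  exact MulChar.one_apply (Units.mk0 a ha).isUnit

private theorem Z4_sq {N : ℕ} [Fact N.Prime] (χ : DirichletCharacter ℂ N) (h4 : χ ^ 4 = 1)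
    {a : ZMod N} (ha : a ≠ 0) (hq : quadraticChar (ZMod N) a = 1) : (χ a) ^ 2 = 1 := by
  rw [quadraticChar_one_iff_isSquare ha] at hq
  obtain ⟨b, rfl⟩ := hq
  have hb : b ≠ 0 := by rintro rfl; simp at ha
  have h1 := Z4_four χ h4 hb
  rw [map_mul]
  linear_combination h1

private theorem Z4_nonsq {N : ℕ} [Fact N.Prime] (χ : DirichletCharacter ℂ N) (h4 : χ ^ 4 = 1)
    (h2 : χ ^ 2 ≠ 1) {a : ZMod N} (hq : quadraticChar (ZMod N) a = -1) : (χ a) ^ 2 = -1 := by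
  have ha : a ≠ 0 := by
    rintro rfl
    simp at hq
  obtain ⟨u, hu⟩ := (MulChar.ne_one_iff (χ := χ ^ 2)).1 h2
  have hu0 : (u : ZMod N) ≠ 0 := u.ne_zero
  rw [Z4_pow_apply χ 2 hu0] at hu
  have hqu : quadraticChar (ZMod N) (u : ZMod N) = -1 := by
    rcases quadraticChar_dichotomy (F := ZMod N) hu0 with h | h
    · exact absurd (Z4_sq χ h4 hu0 h) hu
    · exact h
  have hau : (χ (a * u)) ^ 2 = 1 := by
    apply Z4_sq χ h4 (mul_ne_zero ha hu0)
    rw [map_mul, hq, hqu]; norm_num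
  have hu4 := Z4_four χ h4 hu0
  have hu2 : (χ (u : ZMod N)) ^ 2 = -1 := by
    have h5 : ((χ (u : ZMod N)) ^ 2 - 1) * ((χ (u : ZMod N)) ^ 2 + 1) = 0 := by
      linear_combination hu4
    rcases mul_eq_zero.1 h5 with h | h
    · exact absurd (sub_eq_zero.1 h) hu
    · linear_combination h
  rw [map_mul, mul_pow, hu2] at hau
  linear_combination -hau

private theorem Z4_norm_I {z : ℂ} (hz : z ^ 2 = -1) : ‖1 - z‖ ^ 2 = 2 := by
  have h5 : (z - I) * (z + I) = 0 := by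
    have := I_mul_I
    linear_combination hz - this
  rw [← Complex.normSq_eq_norm_sq, Complex.normSq_apply]
  rcases mul_eq_zero.1 h5 with h | h
  · rw [sub_eq_zero.1 h]; simp; norm_num
  · rw [eq_neg_of_add_eq_zero_left h]; simp; norm_num

theorem quartic_upper {p N f : ℕ} [Fact N.Prime] (he : 4 * f = N - 1) (hfo : Odd f)
    (hf : (p : ZMod N) ^ f = 1) {w : ℝ} (hw : 0 ≤ w) (ε : ℤ) (hε : ε = 1 ∨ ε = -1)
    (hT : ∀ s : ZMod N, |T p N f s| ≤ w)
    (h : ∀ s : ZMod N, (quadraticChar (ZMod N) s : ℝ) * T p N f s = ε * T p N f s) :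
    ∃ χ : DirichletCharacter ℂ N, χ ^ 4 = 1 ∧ χ ^ 2 ≠ 1 ∧
      (N : ℝ) * ‖LFunction χ 1‖ ^ 2 ≤ 2 * Real.pi ^ 2 * w ^ 2 := by
  have hprime : N.Prime := Fact.out
  obtain ⟨k, hk⟩ := hfo
  have hN1 := hprime.two_le
  have h8 : N % 8 = 5 := by omega
  have hN2 : N ≠ 2 := by rintro rfl; omega
  have hf0 : f ≠ 0 := by omega
  have hfR : (0 : ℝ) < f := by exact_mod_cast Nat.pos_of_ne_zero hf0
  have hp0 : (p : ZMod N) ≠ 0 := by
    intro h0
    rw [h0, zero_pow hf0] at hf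
    exact zero_ne_one hf
  obtain ⟨χ, hχ⟩ := MulChar.exists_mulChar_orderOf (F := ZMod N) (R := ℂ) (n := 4)
    (by rw [ZMod.card]; exact ⟨f, he.symm⟩) isPrimitiveRoot_I
  have h4 : χ ^ 4 = 1 := by rw [← hχ]; exact pow_orderOf_eq_one χ
  have h2 : χ ^ 2 ≠ 1 := by
    intro h
    have := orderOf_dvd_of_pow_eq_one h
    rw [hχ] at this
    omega
  have hq2 : quadraticChar (ZMod N) 2 = -1 := Z4_two h8
  have hχ2 : (χ 2) ^ 2 = -1 := Z4_nonsq χ h4 h2 hq2
  -- `χ` is odd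
  have hodd : DirichletCharacter.Odd χ := by
    have h1 : (2 : ZMod N) ^ (2 * f) = -1 := by
      have h := quadraticChar_eq_pow_of_char_ne_two' (F := ZMod N)
        (by rwa [ZMod.ringChar_zmod_n]) 2
      rw [hq2, ZMod.card] at h
      have h3 : N / 2 = 2 * f := by omega
      rw [h3] at h
      rw [← h]; simp
    show χ (-1) = -1
    rw [← h1, map_pow, pow_mul, hχ2, Odd.neg_one_pow ⟨k, hk⟩]
  -- `χ p = 1`
  have hχp : χ (p : ZMod N) = 1 := by
    have h1 : (χ (p : ZMod N)) ^ f = 1 := by rw [← map_pow, hf, map_one]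
    have h3 := Z4_four χ h4 hp0
    have h5 : orderOf (χ (p : ZMod N)) ∣ Nat.gcd f 4 :=
      Nat.dvd_gcd (orderOf_dvd_of_pow_eq_one h1) (orderOf_dvd_of_pow_eq_one h3)
    have h6 : Nat.gcd f 4 = 1 := by
      have : Nat.Coprime f (2 ^ 2) := by
        apply Nat.Coprime.pow_right
        exact Nat.coprime_two_right.2 ⟨k, hk⟩
      simpa using this
    rw [h6, Nat.dvd_one, orderOf_eq_one_iff] at h5
    exact h5
  -- the bound for `bb`
  have hsum := sum_chi_T hp0 hf χ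
  rw [if_pos hχp] at hsum
  have hε2 : (ε : ℝ) * ε = 1 := by
    rcases hε with h | h <;> rw [h] <;> norm_num
  have hTle : ∀ s : ZMod N, |T p N f s| ≤
      w * (((quadraticChar (ZMod N) s : ℝ)) ^ 2 + ε * (quadraticChar (ZMod N) s : ℝ)) / 2 := by
    intro s
    by_cases hs : s = 0
    · subst hs
      have h1 := h 0
      have hq0 : ((quadraticChar (ZMod N) 0 : ℤ) : ℝ) = 0 := by simp
      rw [hq0] at h1 ⊢
      have h3 : T p N f 0 = 0 := by
        have : (ε : ℝ) * ((ε : ℝ) * T p N f 0) = 0 := by rw [← h1]; ring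
        rw [← mul_assoc, hε2, one_mul] at this
        exact this
      rw [h3]; simp
    · have h1 := h s
      have h5 := hT s
      rcases quadraticChar_dichotomy (F := ZMod N) hs with hq | hq <;>
      rcases hε with h3 | h3 <;> rw [hq, h3] at h1 <;> rw [hq, h3] <;> push_cast at h1 ⊢
      · linarith
      · have h6 : T p N f s = 0 := by linarith
        rw [h6]; norm_num
      · have h6 : T p N f s = 0 := by linarith
        rw [h6]; norm_num
      · linarith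
  have hq_sum : ∑ s : ZMod N, ((quadraticChar (ZMod N) s : ℤ) : ℝ) = 0 := by
    have h1 := quadraticChar_sum_zero (F := ZMod N) (by rwa [ZMod.ringChar_zmod_n])
    exact_mod_cast h1
  have hq_sq : ∑ s : ZMod N, ((quadraticChar (ZMod N) s : ℤ) : ℝ) ^ 2 = (N : ℝ) - 1 := by
    have h1 : ∀ s : ZMod N, ((quadraticChar (ZMod N) s : ℤ) : ℝ) ^ 2 = 1 - if s = 0 then 1 else 0 := by
      intro s
      by_cases hs : s = 0
      · subst hs; simp
      · rw [if_neg hs]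
        have h3 := quadraticChar_sq_one (F := ZMod N) hs
        have h5 : ((quadraticChar (ZMod N) s : ℤ) : ℝ) ^ 2 = 1 := by exact_mod_cast h3
        rw [h5]; ring
    rw [Finset.sum_congr rfl (fun s _ => h1 s), Finset.sum_sub_distrib]
    simp [ZMod.card]
  have hT1 : ∑ s : ZMod N, |T p N f s| ≤ w * ((N : ℝ) - 1) / 2 := by
    calc ∑ s : ZMod N, |T p N f s| ≤ ∑ s : ZMod N,
        w * (((quadraticChar (ZMod N) s : ℝ)) ^ 2 + ε * (quadraticChar (ZMod N) s : ℝ)) / 2 :=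
          Finset.sum_le_sum fun s _ => hTle s
      _ = w * ((N : ℝ) - 1) / 2 := by
          rw [← Finset.sum_div, ← Finset.mul_sum, Finset.sum_add_distrib, ← Finset.mul_sum,
            hq_sum, hq_sq]
          ring
  have hNf : (N : ℝ) - 1 = 4 * f := by
    have : 4 * f + 1 = N := by omega
    rw [← this]; push_cast; ring
  have hbb : ‖bb χ‖ ≤ 2 * w := by
    have h1 : (f : ℝ) * ‖bb χ‖ ≤ ∑ s : ZMod N, |T p N f s| := by
      have h3 : (f : ℝ) * ‖bb χ‖ = ‖∑ s : ZMod N, χ s * ((T p N f s : ℝ) : ℂ)‖ := by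
        rw [hsum, norm_mul, Complex.norm_natCast]
      rw [h3]
      refine (norm_sum_le _ _).trans (Finset.sum_le_sum fun s _ => ?_)
      rw [norm_mul, Complex.norm_real, Real.norm_eq_abs]
      exact mul_le_of_le_one_left (abs_nonneg _) (DirichletCharacter.norm_le_one χ s)
    have h3 : (f : ℝ) * ‖bb χ‖ ≤ f * (2 * w) := by
      refine (h1.trans hT1).trans_eq ?_
      rw [hNf]; ring
    exact le_of_mul_le_mul_left h3 hfR
  have hb2 : ‖bb χ‖ ^ 2 = 2 * ((N : ℝ) / Real.pi ^ 2 * ‖LFunction χ⁻¹ 1‖ ^ 2) := by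
    rw [norm_bb hN2 χ, norm_B1 χ hodd, mul_pow, Z4_norm_I hχ2, mul_pow, div_pow,
      Real.sq_sqrt (Nat.cast_nonneg N)]
  have hfin : (N : ℝ) * ‖LFunction χ⁻¹ 1‖ ^ 2 ≤ 2 * Real.pi ^ 2 * w ^ 2 := by
    have h1 : ‖bb χ‖ ^ 2 ≤ (2 * w) ^ 2 := pow_le_pow_left₀ (norm_nonneg _) hbb 2
    rw [hb2] at h1
    have hpi : 0 < Real.pi ^ 2 := by positivity
    have h3 : (N : ℝ) * ‖LFunction χ⁻¹ 1‖ ^ 2 =
        Real.pi ^ 2 * ((N : ℝ) / Real.pi ^ 2 * ‖LFunction χ⁻¹ 1‖ ^ 2) := by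
      field_simp
    rw [h3]
    have h5 := mul_le_mul_of_nonneg_left h1 hpi.le
    linarith
  refine ⟨χ⁻¹, ?_, ?_, hfin⟩
  · rw [inv_pow, h4, inv_one]
  · rw [inv_pow]
    intro h1
    exact h2 (inv_eq_one.1 h1)

end Pool.Agent.LibNF95
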