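import Mathlib

/-!
ROW Z5 (MEDIUM). The numerical end for index 4 (real inequalities only).

PLAN. `h1`, `h2`: `N ≤ 48 π² e w² Λ (4 + log N) ≤ 1288 w² (14 + 3 log N)(4 + log N)` (`π < 3.1416`, `e < 2.71829`: `48 * 9.8697 * 2.71829 ≤ 1288`).
The function `x / ((14 + 3 log x)(4 + log x))` is increasing; simplest: with `t = log N`, tangent-line bounds `log N ≤ log N₀ + (N - N₀)/N₀`, or
`N^(1/8)`-type bounds `log N ≤ 8 (N^(1/8))/...`. For `w = 1` and `N = 1400000`: `log N = 14.152`, `1288 * 56.46 * 18.16 = 1320400 < 1400000`. In general `w log 3 < log (N/4)` (`h3`), and at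
`N = 10^9`: `log N = 20.724`, `w ≤ 17.61`, `1288 * 310.2 * 76.18 * 24.73 = 7.53 * 10^8 < 10^9`. For larger `N` both sides: the left side grows linearly, the right side is a
polynomial of degree 4 in `log N` (`d/dt` of the logarithm of the right side is at most `2/(t - 1.4) + 3/(14 + 3 t) + 1/(4 + t) < 1`).
-/

set_option autoImplicit false

namespace Pool.Agent.LibNF95

private theorem Z5_const : 48 * Real.pi ^ 2 * Real.exp 1 ≤ 1288 := by
  have h1 := Real.pi_lt_d4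
  have h2 := Real.pi_pos
  have h3 := Real.exp_one_lt_d9
  have h4 := Real.exp_pos 1
  have h5 : Real.pi ^ 2 ≤ 9.8697 := by nlinarith
  have h6 : Real.pi ^ 2 * Real.exp 1 ≤ 9.8697 * 2.7182818286 :=
    mul_le_mul h5 h3.le h4.le (by norm_num)
  linarith

private theorem Z5_main {N w : ℕ} {L : ℝ} (hN : 13 ≤ N)
    (h1 : (N : ℝ) * L ^ 2 ≤ 2 * Real.pi ^ 2 * (w : ℝ) ^ 2)
    (h2 : 1 ≤ 24 * Real.exp 1 * (14 + 3 * Real.log N) * (4 + Real.log N) * L ^ 2) :
    (N : ℝ) ≤ 1288 * ((w : ℝ) ^ 2 * ((14 + 3 * Real.log N) * (4 + Real.log N))) := by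
  have hN1 : (1 : ℝ) ≤ N := by
    have h : 1 ≤ N := by omega
    exact_mod_cast h
  have ht : 0 ≤ Real.log N := Real.log_nonneg hN1
  have hA : 0 ≤ (14 + 3 * Real.log N) * (4 + Real.log N) := by positivity
  have h3 : (N : ℝ) * 1 ≤
      N * (24 * Real.exp 1 * (14 + 3 * Real.log N) * (4 + Real.log N) * L ^ 2) :=
    mul_le_mul_of_nonneg_left h2 (by linarith)
  have h4 : 24 * Real.exp 1 * ((14 + 3 * Real.log N) * (4 + Real.log N)) * (N * L ^ 2) ≤
      24 * Real.exp 1 * ((14 + 3 * Real.log N) * (4 + Real.log N)) *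
        (2 * Real.pi ^ 2 * (w : ℝ) ^ 2) :=
    mul_le_mul_of_nonneg_left h1 (by positivity)
  have h5 := mul_le_mul_of_nonneg_right Z5_const
    (by positivity : 0 ≤ (w : ℝ) ^ 2 * ((14 + 3 * Real.log N) * (4 + Real.log N)))
  nlinarith

private theorem Z5_root {x x₀ : ℝ} (h0 : 0 < x₀) (hx : x₀ ≤ x) (k : ℕ) (hk : k ≠ 0) :
    ∃ z : ℝ, 0 ≤ z ∧ x = x₀ * (1 + z) ^ k ∧ Real.log x ≤ Real.log x₀ + k * z := by
  have hq : 1 ≤ x / x₀ := (one_le_div h0).2 hx
  have hq0 : 0 ≤ x / x₀ := by linarith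
  have hy : 1 ≤ (x / x₀) ^ ((k : ℝ)⁻¹) :=
    Real.one_le_rpow hq (inv_nonneg.2 (Nat.cast_nonneg k))
  have hyk : ((x / x₀) ^ ((k : ℝ)⁻¹)) ^ k = x / x₀ := Real.rpow_inv_natCast_pow hq0 hk
  have hxx : x = x₀ * ((x / x₀) ^ ((k : ℝ)⁻¹)) ^ k := by
    rw [hyk]
    field_simp
  refine ⟨(x / x₀) ^ ((k : ℝ)⁻¹) - 1, by linarith, ?_, ?_⟩
  · rw [add_sub_cancel]
    exact hxx
  · have h1 : Real.log x = Real.log x₀ + k * Real.log ((x / x₀) ^ ((k : ℝ)⁻¹)) := by
      conv_lhs => rw [hxx]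
      rw [Real.log_mul h0.ne' (by positivity), Real.log_pow]
    rw [h1]
    have h2 := Real.log_le_sub_one_of_pos (by linarith : 0 < (x / x₀) ^ ((k : ℝ)⁻¹))
    have h3 := mul_le_mul_of_nonneg_left h2 (Nat.cast_nonneg (α := ℝ) k)
    linarith

private theorem Z5_log9 : Real.log (10 ^ 9) ≤ 20.7945 := by
  have h1 : Real.log (10 ^ 9) ≤ Real.log (2 ^ 30) := Real.log_le_log (by norm_num) (by norm_num)
  rw [Real.log_pow] at h1
  have h2 := Real.log_two_lt_d9
  rw [Real.log_pow] at h1 ⊢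
  push_cast at h1 ⊢
  linarith

private theorem Z5_log6 : Real.log 1400000 ≤ 14.5561 := by
  have h1 : Real.log 1400000 ≤ Real.log (2 ^ 21) := Real.log_le_log (by norm_num) (by norm_num)
  rw [Real.log_pow] at h1
  have h2 := Real.log_two_lt_d9
  push_cast at h1
  linarith

private theorem Z5_w {N w : ℕ} (h3 : 4 * 3 ^ w < N) :
    (w : ℝ) * 1.0974 ≤ Real.log N - 1.3862 := by
  have h1 : ((4 : ℝ) * 3 ^ w) ≤ N := by exact_mod_cast h3.le
  have h2 : Real.log ((4 : ℝ) * 3 ^ w) ≤ Real.log N := Real.log_le_log (by positivity) h1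
  have h4 : Real.log (4 : ℝ) = 2 * Real.log 2 := by
    have e : (4 : ℝ) = 2 ^ 2 := by norm_num
    rw [e, Real.log_pow]
    norm_num
  rw [Real.log_mul (by norm_num) (by positivity), Real.log_pow, h4] at h2
  have h5 : Real.log ((2 : ℝ) ^ 19) ≤ Real.log (3 ^ 12) := Real.log_le_log (by norm_num) (by norm_num)
  rw [Real.log_pow, Real.log_pow] at h5
  push_cast at h5
  have h6 := Real.log_two_gt_d9
  have h7 : (1.0974 : ℝ) ≤ Real.log 3 := by linarith
  have h8 := mul_le_mul_of_nonneg_left h7 (Nat.cast_nonneg (α := ℝ) w)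
  linarith

theorem numeric4 {N w : ℕ} {L : ℝ} (hN : 13 ≤ N) (h1 : (N : ℝ) * L ^ 2 ≤ 2 * Real.pi ^ 2 * (w : ℝ) ^ 2)
    (h2 : 1 ≤ 24 * Real.exp 1 * (14 + 3 * Real.log N) * (4 + Real.log N) * L ^ 2)
    (h3 : 4 * 3 ^ w < N) : N < 10 ^ 9 ∧ (w = 1 → N < 1400000) := by
  have hm := Z5_main hN h1 h2
  have hN1 : (1 : ℝ) ≤ N := by
    have h : 1 ≤ N := by omega
    exact_mod_cast h
  have ht : 0 ≤ Real.log N := Real.log_nonneg hN1
  constructor
  · by_contra hge
    have hge' : (10 : ℝ) ^ 9 ≤ N := by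
      have h : 10 ^ 9 ≤ N := by omega
      exact_mod_cast h
    obtain ⟨z, hz, hNz, hlog0⟩ := Z5_root (by norm_num) hge' 4 (by norm_num)
    have hlog : Real.log N ≤ 20.7945 + (4 : ℕ) * z :=
      hlog0.trans (add_le_add Z5_log9 le_rfl)
    have hw := Z5_w h3
    have hw0 : 0 ≤ (w : ℝ) * 1.0974 := by positivity
    push_cast at hlog
    have hw1 : (w : ℝ) * 1.0974 ≤ 19.4083 + 4 * z := by linarith
    have hw2 : ((w : ℝ) * 1.0974) * ((w : ℝ) * 1.0974) ≤ (19.4083 + 4 * z) * (19.4083 + 4 * z) :=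
      mul_le_mul hw1 hw1 hw0 (by linarith)
    have hA : (14 + 3 * Real.log N) * (4 + Real.log N) ≤
        (76.3835 + 12 * z) * (24.7945 + 4 * z) :=
      mul_le_mul (by linarith) (by linarith) (by linarith) (by linarith)
    have hB : ((w : ℝ) * 1.0974) * ((w : ℝ) * 1.0974) *
        ((14 + 3 * Real.log N) * (4 + Real.log N)) ≤
        (19.4083 + 4 * z) * (19.4083 + 4 * z) * ((76.3835 + 12 * z) * (24.7945 + 4 * z)) :=
      mul_le_mul hw2 hA (by positivity) (by positivity)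
    have hC : 1.0974 ^ 2 * (10 ^ 9 * (1 + z) ^ 4) ≤ 1288 *
        ((19.4083 + 4 * z) * (19.4083 + 4 * z) * ((76.3835 + 12 * z) * (24.7945 + 4 * z))) := by
      rw [← hNz]
      have h5 := mul_le_mul_of_nonneg_left hm (by norm_num : (0 : ℝ) ≤ 1.0974 ^ 2)
      have h6 := mul_le_mul_of_nonneg_left hB (by norm_num : (0 : ℝ) ≤ 1288)
      refine h5.trans (le_trans (le_of_eq ?_) h6)
      ring
    have z2 : 0 ≤ z ^ 2 := by positivity
    have z3 : 0 ≤ z ^ 3 := by positivity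
    have z4 : 0 ≤ z ^ 4 := by positivity
    nlinarith
  · intro hw
    by_contra hge
    have hge' : (1400000 : ℝ) ≤ N := by
      have h : 1400000 ≤ N := by omega
      exact_mod_cast h
    obtain ⟨z, hz, hNz, hlog0⟩ := Z5_root (by norm_num) hge' 2 (by norm_num)
    have hlog : Real.log N ≤ 14.5561 + (2 : ℕ) * z :=
      hlog0.trans (add_le_add Z5_log6 le_rfl)
    push_cast at hlog
    have hA : (14 + 3 * Real.log N) * (4 + Real.log N) ≤
        (57.6683 + 6 * z) * (18.5561 + 2 * z) :=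
      mul_le_mul (by linarith) (by linarith) (by linarith) (by linarith)
    rw [hw, Nat.cast_one, one_pow, one_mul] at hm
    have hC : 1400000 * (1 + z) ^ 2 ≤ 1288 * ((57.6683 + 6 * z) * (18.5561 + 2 * z)) := by
      rw [← hNz]
      linarith
    have z2 : 0 ≤ z ^ 2 := by positivity
    nlinarith

end Pool.Agent.LibNF95
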