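import Mathlib

/-!
ROW Z6 (SHORT/MEDIUM). Two finite checks by `decide +kernel` (or `norm_num`, `interval_cases`); no `native_decide`.

PLAN. `square_check`: `p ≥ 3`, `4 p^w < 10^9`, so `w ≤ 17`, and for `w = 3`: `p < 630`, `w = 5`: `p < 48`, `w = 7`: `p < 16`, `w = 9`: `p < 9`, `w = 11`: `p ≤ 5`, `w = 13, 15, 17`: `p = 3`
(`p ^ w` monotone). Check `∀ p < 630, ...` with a Boolean function (`Nat.sqrt (4 p^w - 3) ^ 2 ≠ 4 p^w - 3` except `(7, 3)`; `A ≤ Nat.sqrt ..` from `A² = 4 p^w - 3`).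
`small_residue`: `A < 1184` odd; a Boolean function of `A` over `A < 1184`: `N = A² + 4`, `p = (A² + 3)/4`; if `N` or `p` has a factor `< 1200` (trial division, kernel: a `List.all` over
`List.range`), nothing; otherwise a prime `l` from the list `[11, 17, 23, 29, 31, 43, 47, 73]` has `16 l < N` and `l^p % N = 1` (`Nat` powers of that size are fine in the kernel, at most
`288907` as exponent). The 32 values of `A` with both prime: 3, 5, 7, 13 (the exceptions `N = 13, 29, 53, 173`), then (A, l): (17,17) (35,31) (67,11) (115,73) (125,23) (155,11) (203,73) (235,23)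
(277,29) (287,11) (307,11) (347,23) (385,11) (407,11) (463,11) (533,31) (577,23) (665,17) (685,23) (703,11) (763,17) (767,17) (785,47) (805,31) (853,23) (953,23) (1075,43) (1145,11).
-/

set_option autoImplicit false

namespace Pool.Agent.LibNF95

/-- `f a d₀`, `f (a + 2) d₁`, `f (a + 4) d₂`, ... are true for the certificates `d₀, d₁, d₂, ...` -/
private def Z6_all (f : ℕ → ℕ → Bool) : List ℕ → ℕ → Bool
  | [], _ => true
  | d :: l, a => f a d && Z6_all f l (a + 2)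

private theorem Z6_all_get (f : ℕ → ℕ → Bool) : ∀ (l : List ℕ) (a : ℕ), Z6_all f l a = true →
    ∀ k, k < l.length → ∃ d, f (a + 2 * k) d = true := by
  intro l
  induction l with
  | nil => intro a _ k hk; simp at hk
  | cons d l ih =>
    intro a h k hk
    rw [Z6_all, Bool.and_eq_true] at h
    cases k with
    | zero => exact ⟨d, by simpa using h.1⟩
    | succ k =>
      obtain ⟨e, he⟩ := ih (a + 2) h.2 k (by simpa using hk)
      refine ⟨e, ?_⟩
      have : a + 2 * (k + 1) = a + 2 + 2 * k := by ring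
      rw [this]; exact he

/-- `s` certifies that `4 p ^ w - 3` is not a square -/
private def Z6_sq (w p s : ℕ) : Bool :=
  (Nat.blt (s * s) (4 * Nat.pow p w - 3) && Nat.blt (4 * Nat.pow p w - 3) ((s + 1) * (s + 1))) ||
    (Nat.beq p 7 && Nat.beq w 3)

private theorem Z6_sq_spec {w p s A : ℕ} (h : Z6_sq w p s = true) (hA : A ^ 2 = 4 * p ^ w - 3) :
    p = 7 ∧ w = 3 := by
  rw [Z6_sq, Bool.or_eq_true, Bool.and_eq_true, Bool.and_eq_true, Nat.blt_eq, Nat.blt_eq,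
    Nat.beq_eq, Nat.beq_eq] at h
  rcases h with ⟨h1, h2⟩ | h
  · exfalso
    have hA' : A * A = 4 * Nat.pow p w - 3 := by rw [← sq]; exact hA
    rw [← hA'] at h1 h2
    have h3 : s < A := by
      by_contra hcon
      have := Nat.mul_le_mul (not_lt.1 hcon) (not_lt.1 hcon)
      omega
    have h4 : A < s + 1 := by
      by_contra hcon
      have := Nat.mul_le_mul (not_lt.1 hcon) (not_lt.1 hcon)
      omega
    omega
  · exact h

private theorem Z6_case {w p A : ℕ} (B : ℕ) (L : List ℕ) (hL : Z6_all (Z6_sq w) L 3 = true)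
    (hB : 10 ^ 9 ≤ 4 * B ^ w) (hlen : B ≤ 2 * L.length + 3) (hp : 3 ≤ p) (hp2 : Odd p)
    (h : 4 * p ^ w + 1 = A ^ 2 + 4) (hlt : 4 * p ^ w < 10 ^ 9) : p = 7 ∧ w = 3 := by
  have hpB : p < B := by
    by_contra hcon
    have := Nat.pow_le_pow_left (not_lt.1 hcon) w
    omega
  obtain ⟨k, hk⟩ := hp2
  obtain ⟨s, hs⟩ := Z6_all_get (Z6_sq w) L 3 hL (k - 1) (by omega)
  have e : 3 + 2 * (k - 1) = p := by omega
  rw [e] at hs
  exact Z6_sq_spec (A := A) hs (by omega)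

private def Z6_L3 : List ℕ := [
  10, 22, 37, 53, 72, 93, 116, 140, 165, 192, 220, 249, 280, 312, 345, 379, 414, 450, 487, 525,
  563, 603, 644, 685, 728, 771, 815, 860, 906, 952, 1000, 1048, 1096, 1146, 1196, 1247, 1299,
  1351, 1404, 1457, 1512, 1567, 1622, 1679, 1736, 1793, 1851, 1910, 1970, 2030, 2090, 2151,
  2213, 2275, 2338, 2402, 2466, 2531, 2596, 2661, 2728, 2795, 2862, 2930, 2998, 3067, 3137,
  3207, 3277, 3348, 3420, 3492, 3564, 3637, 3711, 3785, 3859, 3934, 4009, 4085, 4162, 4238,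
  4316, 4393, 4472, 4550, 4630, 4709, 4789, 4870, 4951, 5032, 5114, 5196, 5279, 5362, 5446,
  5530, 5614, 5699, 5784, 5870, 5956, 6042, 6129, 6217, 6305, 6393, 6481, 6570, 6660, 6749,
  6840, 6930, 7021, 7113, 7204, 7297, 7389, 7482, 7575, 7669, 7763, 7858, 7953, 8048, 8144,
  8240, 8336, 8433, 8530, 8627, 8725, 8823, 8922, 9021, 9120, 9220, 9320, 9420, 9521, 9622,
  9724, 9825, 9928, 10030, 10133, 10236, 10340, 10444, 10548, 10653, 10758, 10863, 10969,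
  11075, 11181, 11288, 11395, 11502, 11610, 11718, 11826, 11935, 12044, 12153, 12263, 12372,
  12483, 12593, 12704, 12816, 12927, 13039, 13151, 13264, 13377, 13490, 13604, 13717, 13832,
  13946, 14061, 14176, 14291, 14407, 14523, 14640, 14756, 14873, 14990, 15108, 15226, 15344,
  15463, 15581, 15700, 15820, 15940, 16060, 16180, 16300, 16421, 16543, 16664, 16786, 16908,
  17030, 17153, 17276, 17399, 17523, 17647, 17771, 17895, 18020, 18145, 18270, 18396, 18521,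
  18648, 18774, 18901, 19028, 19155, 19283, 19410, 19539, 19667, 19796, 19925, 20054, 20183,
  20313, 20443, 20574, 20704, 20835, 20966, 21098, 21230, 21362, 21494, 21626, 21759, 21892,
  22026, 22159, 22293, 22427, 22562, 22696, 22831, 22967, 23102, 23238, 23374, 23510, 23647,
  23784, 23921, 24058, 24196, 24333, 24472, 24610, 24749, 24888, 25027, 25166, 25306, 25446,
  25586, 25726, 25867, 26008, 26149, 26291, 26433, 26575, 26717, 26859, 27002, 27145, 27288,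
  27432, 27576, 27720, 27864, 28008, 28153, 28298, 28443, 28589, 28735, 28880, 29027, 29173,
  29320, 29467, 29614, 29762, 29909, 30057, 30205, 30354, 30503, 30651, 30801, 30950, 31100,
  31249, 31400, 31550]

private def Z6_L5 : List ℕ := [
  31, 111, 259, 485, 802, 1218, 1742, 2383, 3147, 4041, 5073, 6249, 7575, 9057, 10701, 12511,
  14494, 16654, 18997, 21527, 24249, 27168, 30288]

private def Z6_L7 : List ℕ := [
  93, 559, 1814, 4373, 8828, 15842, 26142]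

private def Z6_L9 : List ℕ := [
  280, 2795, 12704]

private def Z6_L11 : List ℕ := [
  841, 13975]

private def Z6_L13 : List ℕ := [
  2525]

private def Z6_L15 : List ℕ := [
  7575]

private def Z6_L17 : List ℕ := [
  22727]

private theorem Z6_c3 : Z6_all (Z6_sq 3) Z6_L3 3 = true := by decide +kernel

private theorem Z6_c5 : Z6_all (Z6_sq 5) Z6_L5 3 = true := by decide +kernel

private theorem Z6_c7 : Z6_all (Z6_sq 7) Z6_L7 3 = true := by decide +kernel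

private theorem Z6_c9 : Z6_all (Z6_sq 9) Z6_L9 3 = true := by decide +kernel

private theorem Z6_c11 : Z6_all (Z6_sq 11) Z6_L11 3 = true := by decide +kernel

private theorem Z6_c13 : Z6_all (Z6_sq 13) Z6_L13 3 = true := by decide +kernel

private theorem Z6_c15 : Z6_all (Z6_sq 15) Z6_L15 3 = true := by decide +kernel

private theorem Z6_c17 : Z6_all (Z6_sq 17) Z6_L17 3 = true := by decide +kernel

theorem square_check {p w A : ℕ} (hp : 3 ≤ p) (hp2 : Odd p) (hw : 3 ≤ w) (hwo : Odd w)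
    (h : 4 * p ^ w + 1 = A ^ 2 + 4) (hlt : 4 * p ^ w < 10 ^ 9) : p = 7 ∧ w = 3 := by
  have hw2 : w < 18 := by
    by_contra hcon
    have h1 : 3 ^ 18 ≤ 3 ^ w := Nat.pow_le_pow_right (by norm_num) (not_lt.1 hcon)
    have h2 : 3 ^ w ≤ p ^ w := Nat.pow_le_pow_left hp w
    norm_num at h1
    omega
  have hwc : w = 3 ∨ w = 5 ∨ w = 7 ∨ w = 9 ∨ w = 11 ∨ w = 13 ∨ w = 15 ∨ w = 17 := by
    obtain ⟨k, hk⟩ := hwo
    omega
  rcases hwc with rfl | rfl | rfl | rfl | rfl | rfl | rfl | rfl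
  · exact Z6_case 631 Z6_L3 Z6_c3 (by norm_num) (by decide +kernel) hp hp2 h hlt
  · exact Z6_case 49 Z6_L5 Z6_c5 (by norm_num) (by decide +kernel) hp hp2 h hlt
  · exact Z6_case 17 Z6_L7 Z6_c7 (by norm_num) (by decide +kernel) hp hp2 h hlt
  · exact Z6_case 9 Z6_L9 Z6_c9 (by norm_num) (by decide +kernel) hp hp2 h hlt
  · exact Z6_case 7 Z6_L11 Z6_c11 (by norm_num) (by decide +kernel) hp hp2 h hlt
  · exact Z6_case 5 Z6_L13 Z6_c13 (by norm_num) (by decide +kernel) hp hp2 h hlt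
  · exact Z6_case 5 Z6_L15 Z6_c15 (by norm_num) (by decide +kernel) hp hp2 h hlt
  · exact Z6_case 5 Z6_L17 Z6_c17 (by norm_num) (by decide +kernel) hp hp2 h hlt

/-- certificates: a nontrivial factor of `A² + 4` or of `(A² + 3) / 4`, or a prime `l` -/
private def Z6_t (A d : ℕ) : Bool :=
  (Nat.blt 1 d && Nat.blt d (A * A + 4) && Nat.beq ((A * A + 4) % d) 0) ||
  (Nat.blt 1 d && Nat.blt d ((A * A + 3) / 4) && Nat.beq (((A * A + 3) / 4) % d) 0) ||
  Nat.beq A 1 || Nat.beq A 3 || Nat.beq A 5 || Nat.beq A 7 || Nat.beq A 13 ||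
  ((Nat.beq d 11 || Nat.beq d 17 || Nat.beq d 23 || Nat.beq d 29 || Nat.beq d 31 || Nat.beq d 43 ||
    Nat.beq d 47 || Nat.beq d 73) && Nat.blt (16 * d) (A * A + 4) &&
    Nat.beq (Nat.pow d ((A * A + 3) / 4) % (A * A + 4)) 1)

private def Z6_F : List ℕ :=
  [
    0, 0, 0, 0, 5, 5, 0, 3, 17, 5, 5, 13, 17, 3, 5, 5, 3, 31, 7, 5, 5, 17, 3, 7, 5, 5, 29, 13,
    3, 5, 5, 29, 7, 11, 5, 5, 31, 13, 17, 5, 5, 61, 13, 3, 5, 5, 17, 37, 13, 5, 5, 7, 41, 13,
    5, 5, 53, 73, 3, 5, 5, 37, 23, 13, 5, 5, 13, 3, 13, 5, 5, 113, 17, 3, 5, 5, 13, 11, 89, 5,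
    5, 7, 73, 19, 5, 5, 37, 109, 3, 5, 5, 3, 13, 41, 5, 5, 67, 17, 37, 5] ++
  [
    5, 73, 13, 3, 5, 5, 17, 7, 61, 5, 5, 41, 197, 29, 5, 5, 7, 23, 13, 5, 5, 3, 43, 17, 5, 5,
    13, 3, 13, 5, 5, 13, 97, 3, 5, 5, 73, 7, 29, 5, 5, 13, 29, 11, 5, 5, 13, 29, 17, 5, 5, 3,
    41, 11, 5, 5, 7, 13, 7, 5, 5, 101, 53, 61, 5, 5, 173, 13, 137, 5, 5, 29, 37, 23, 5, 5, 29,
    193, 3, 5, 5, 313, 17, 13, 5, 5, 7, 3, 89, 5, 5, 17, 11, 13, 5, 5, 13, 37, 277, 5] ++
  [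
    5, 19, 61, 11, 5, 5, 13, 157, 17, 5, 5, 3, 7, 79, 5, 5, 17, 3, 353, 5, 5, 229, 13, 3, 5, 5,
    3, 73, 73, 5, 5, 11, 13, 17, 5, 5, 229, 13, 3, 5, 5, 3, 17, 13, 5, 5, 37, 3, 13, 5, 5, 43,
    181, 3, 5, 5, 89, 41, 13, 5, 5, 13, 101, 29, 5, 5, 31, 17, 53, 5, 5, 13, 317, 19, 5, 5, 17,
    89, 461, 5, 5, 197, 73, 37, 5, 5, 3, 13, 23, 5, 5, 449, 29, 17, 5, 5, 7, 13, 41, 5] ++
  [
    5, 17, 13, 7, 5, 5, 37, 3, 37, 5, 5, 19, 577, 13, 5, 5, 29, 97, 17, 5, 5, 29, 541, 13, 5,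
    5, 13, 17, 149, 5, 5, 3, 17, 7, 5, 5, 13, 457, 7, 5, 5, 613, 23, 101, 5, 5, 61, 409, 109,
    5, 5, 11, 13, 19, 5, 5, 73, 37, 3, 5, 5, 17, 13, 101, 5, 5, 89, 53, 281, 5, 5, 79, 19, 593,
    5, 5, 3, 31, 13, 5, 5, 17, 37, 17, 5, 5, 17, 349, 13, 5, 5, 13, 47, 13, 5, 5, 557, 3, 41, 5] ++
  [
    5, 13, 31, 17, 5, 5, 3, 61, 29, 5, 5, 313, 17, 61, 5, 5, 149, 13, 3, 5, 5, 41, 7, 43, 5, 5,
    23, 13, 73, 5, 5, 37, 29, 181, 5, 5, 661, 17, 233, 5, 5, 421, 137, 13, 5, 5, 17, 73, 3, 5,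
    5, 3, 7, 13, 5, 5, 13, 109, 97, 5, 5, 29, 41, 17, 5, 5, 13, 19, 37, 5, 5, 17, 3, 53, 5, 5,
    23, 149, 197, 5, 5, 3, 13, 157, 5, 5, 19, 353, 17, 5, 5, 37, 13, 37, 5, 5, 3, 17, 67, 5] ++
  [
    5, 73, 617, 41, 5, 5, 197, 61, 13, 5, 5, 97, 173, 7, 5, 5, 137, 3, 13, 5, 5, 13, 17, 89, 5,
    5, 53, 7, 37, 5, 5, 13, 397, 53, 5, 5, 7, 43, 241, 5, 5, 3, 37, 7, 5, 5, 521, 13, 17, 5, 5,
    1013, 31, 29, 5, 5, 17, 13, 19, 5, 5, 103, 41, 193, 5, 5, 109, 37, 61, 5, 5, 353, 11, 13,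
    5, 5, 457, 29, 7, 5, 5, 401, 17, 13, 5, 5, 13, 547, 13, 5, 5, 181]

private theorem Z6_F_ok : Z6_all Z6_t Z6_F 1 = true := by decide +kernel

private theorem Z6_F_len : Z6_F.length = 592 := by decide +kernel

theorem small_residue {A N p : ℕ} (hN : N.Prime) (hp : p.Prime) (h1 : N = 4 * p + 1)
    (h2 : N = A ^ 2 + 4) (h3 : N < 1400000) :
    N = 13 ∨ N = 29 ∨ N = 53 ∨ N = 173 ∨
      ∃ l : ℕ, l.Prime ∧ l ≠ 2 ∧ 16 * l < N ∧ l ^ p % N = 1 := by
  have hA : A < 1184 := by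
    by_contra hcon
    have := Nat.pow_le_pow_left (not_lt.1 hcon) 2
    norm_num at this
    omega
  have hodd : Odd A := by
    by_contra hcon
    rw [Nat.not_odd_iff_even] at hcon
    obtain ⟨k, hk⟩ := hcon
    have : A ^ 2 = 4 * k ^ 2 := by rw [hk]; ring
    omega
  obtain ⟨k, hk⟩ := hodd
  obtain ⟨d, hd⟩ := Z6_all_get Z6_t Z6_F 1 Z6_F_ok k (by rw [Z6_F_len]; omega)
  have e : 1 + 2 * k = A := by omega
  rw [e] at hd
  have e1 : A * A + 4 = N := by rw [h2]; ring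
  have e2 : (A * A + 3) / 4 = p := by omega
  rw [Z6_t, e1, e2] at hd
  simp only [Bool.or_eq_true, Bool.and_eq_true, Nat.blt_eq, Nat.beq_eq] at hd
  rcases hd with ((((((⟨⟨a1, a2⟩, a3⟩ | ⟨⟨a1, a2⟩, a3⟩) | a1) | a1) | a1) | a1) | a1) | ⟨⟨a1, a2⟩, a3⟩
  · exfalso
    rcases (Nat.dvd_prime hN).1 (Nat.dvd_of_mod_eq_zero a3) with hh | hh <;> omega
  · exfalso
    rcases (Nat.dvd_prime hp).1 (Nat.dvd_of_mod_eq_zero a3) with hh | hh <;> omega
  · exfalso
    subst a1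
    have : p = 1 := by omega
    rw [this] at hp
    exact Nat.not_prime_one hp
  · left; subst a1; omega
  · right; left; subst a1; omega
  · right; right; left; subst a1; omega
  · right; right; right; left; subst a1; omega
  · right; right; right; right
    refine ⟨d, ?_, ?_, a2, a3⟩
    · rcases a1 with ((((((a1 | a1) | a1) | a1) | a1) | a1) | a1) | a1 <;> subst a1 <;> norm_num
    · omega

end Pool.Agent.LibNF95
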