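import Pool.Agent.LibCycU.P4

/-!
ROW Z7 (MEDIUM/STRONG). The size of the reduced Gauss sum, index 4 (adapt `e4_back_aux` of `LibCycU/P4.lean` and `e4_comb` of `LibCycU/P4a.lean`).

PLAN. As in `e4_back_aux` (GaloisField p f, `stickU`, `gauss_mu`): `d : ZMod N → ℤ` with `d 0 = 0`, `d (p v) = d v`, and for `t ≠ 0` the product of the two sums
`δ t * δ (-t) = p^(f - 2 b)` (there `f = p^(f - 2b)` was used, here keep `p^w`, `w = f - 2 b`; the hypothesis `N = 4 p^w + 1` is not used for this part).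
Parseval (`parsevalN`): `(∑ d)² + (N - 1) p^w = N ∑ d²`; with `D = d 1 + d (-1) + d 2 + d (-2)`, `S` the sum of their squares: `∑ d = f D`, `∑ d² = f S` (as in `e4_comb`), so
`f D² + 4 p^w = N S`, `N = 4 f + 1`: `16 p^w = D² + N (4 S - D²)`. `4 S - D² ≥ 0`; if it is `0`, `16 p^w = D²` is impossible for `w` odd (`padicValNat`), otherwise
`16 p^w ≥ N`. `w` is odd since `f` is odd and `2 b < f`. `f ≠ 1`: `p ≠ 1` in `ZMod N` because `hf3`.
-/

set_option autoImplicit false

open Finset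

namespace Pool.Agent.LibNF95

open Pool.Agent.CycU

private theorem Z7_comb {p N f w : ℕ} [Fact p.Prime] [Fact N.Prime] (hN : N ≠ 2)
    (hford : f = orderOf (p : ZMod N)) (hfo : Odd f) (he : 4 * f = N - 1) (hf3 : 3 ≤ f)
    (hp2 : p ≠ 2) (hw : Odd w) {Ω : Type} [NormedField Ω] [IsUltrametricDist Ω] [CharZero Ω]
    {z : Ω} (hz : IsPrimitiveRoot z N) (d : ZMod N → ℤ) (hd0 : d 0 = 0)
    (hdp : ∀ v, d (p * v) = d v)
    (hprod : ∀ t : ZMod N, t ≠ 0 → (∑ u : ZMod N, (d u : Ω) * chN hz.pow_eq_one (t * u)) *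
      (∑ u : ZMod N, (d u : Ω) * chN hz.pow_eq_one (-t * u)) = (p : Ω) ^ w) :
    N ≤ 16 * p ^ w := by
  have hpp := (Fact.out : p.Prime)
  have hNN := (Fact.out : N.Prime)
  have h85 : N % 8 = 5 := by
    obtain ⟨k, hk⟩ := hfo
    omega
  have h2 : quadraticChar (ZMod N) 2 = -1 := by
    rw [quadChar_two' hN, if_pos (Or.inr h85)]
  have hlm : quadraticChar (ZMod N) (-1) = 1 := by
    rw [quadraticChar_neg_one (by rwa [ZMod.ringChar_zmod_n]), ZMod.card,
      ZMod.χ₄_nat_one_mod_four (by omega)]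
  have h20 : (2 : ZMod N) ≠ 0 := Ring.two_ne_zero (by rwa [ZMod.ringChar_zmod_n])
  have hf1 : (p : ZMod N) ^ f = 1 := by rw [hford]; exact pow_orderOf_eq_one _
  have hpz : (p : ZMod N) ≠ 0 := by
    intro h
    rw [h, zero_pow (by omega)] at hf1
    exact zero_ne_one hf1
  obtain ⟨j4, hj4⟩ := four_cls4 hN hford hfo he h2
  -- sums over classes
  have hclass : ∀ g : ZMod N → ℤ, (∀ v, g (p * v) = g v) →
      ∑ v, g v = g 0 + f * (g 1 + g (-1) + g 2 + g (-2)) := by
    intro g hg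
    have h4v : g (2 * 2) = g (-1) := by rw [hj4, inv_pow_of_frob hg]
    have h4v' : g (-(2 * 2)) = g 1 := by
      rw [hj4, ← mul_neg, inv_pow_of_frob hg, neg_neg]
    have hcls : ∀ v : ZMod N, v ≠ 0 → g v + g (-v) + g (2 * v) + g (-(2 * v)) =
        g 1 + g (-1) + g 2 + g (-2) := by
      intro v hv
      have key : ∀ (c : ZMod N) (j : ℕ), v = (p : ZMod N) ^ j * c →
          g v + g (-v) + g (2 * v) + g (-(2 * v)) = g c + g (-c) + g (2 * c) + g (-(2 * c)) := by
        intro c j hj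
        rw [hj, ← mul_neg,
          show (2 : ZMod N) * ((p : ZMod N) ^ j * c) = (p : ZMod N) ^ j * (2 * c) by ring,
          ← mul_neg, inv_pow_of_frob hg, inv_pow_of_frob hg, inv_pow_of_frob hg,
          inv_pow_of_frob hg]
      obtain ⟨j, (hj | hj) | (hj | hj)⟩ := cls4 hN hford hfo he h2 hv
      · rw [key _ j hj, mul_one]
      · rw [key _ j hj, neg_neg, mul_neg, mul_one, neg_neg]; ring
      · rw [key _ j hj, h4v, h4v']; ring
      · rw [key _ j hj, neg_neg, mul_neg, h4v', neg_neg, h4v]; ring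
    have e1 : ∑ v : ZMod N, (g v + g (-v) + g (2 * v) + g (-(2 * v))) = 4 * ∑ v, g v := by
      rw [Finset.sum_add_distrib, Finset.sum_add_distrib, Finset.sum_add_distrib]
      have q1 : ∑ v : ZMod N, g (-v) = ∑ v, g v := Equiv.sum_comp (Equiv.neg (ZMod N)) g
      have q2 : ∑ v : ZMod N, g (2 * v) = ∑ v, g v := Equiv.sum_comp (Equiv.mulLeft₀ 2 h20) g
      have q3 : ∑ v : ZMod N, g (-(2 * v)) = ∑ v, g v := by
        rw [← q1]
        exact Equiv.sum_comp (Equiv.mulLeft₀ 2 h20) (fun v => g (-v))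
      rw [q1, q2, q3]; ring
    have e2 : ∑ v : ZMod N, (g v + g (-v) + g (2 * v) + g (-(2 * v))) =
        4 * g 0 + (N - 1 : ℕ) * (g 1 + g (-1) + g 2 + g (-2)) := by
      rw [sum_ne_zero_split (fun v => g v + g (-v) + g (2 * v) + g (-(2 * v))),
        Finset.sum_congr rfl fun v hv => hcls v (Finset.ne_of_mem_erase hv), Finset.sum_const,
        Finset.card_erase_of_mem (mem_univ _), Finset.card_univ, ZMod.card, mul_zero, neg_zero,
        nsmul_eq_mul]
      ring
    rw [e1, ← he] at e2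
    push_cast at e2
    linarith
  set δ : ZMod N → Ω := fun t => ∑ u : ZMod N, (d u : Ω) * chN hz.pow_eq_one (t * u) with hδ
  have hD := hclass d hdp
  rw [hd0, zero_add] at hD
  have hS := hclass (fun v => d v ^ 2) (fun v => by simp only [hdp])
  simp only [hd0] at hS
  have hpars := parsevalN hz (fun v => (d v : Ω))
  -- evaluate the left side
  have hL : ∑ t : ZMod N, (∑ u : ZMod N, (d u : Ω) * chN hz.pow_eq_one (t * u)) *
      (∑ u : ZMod N, (d u : Ω) * chN hz.pow_eq_one (-t * u)) =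
      (((∑ v, d v) ^ 2 + (N - 1 : ℕ) * (p : ℤ) ^ w : ℤ) : Ω) := by
    rw [← Finset.add_sum_erase _ _ (mem_univ (0 : ZMod N)),
      Finset.sum_congr rfl fun t ht => hprod t (Finset.ne_of_mem_erase ht), Finset.sum_const,
        Finset.card_erase_of_mem (mem_univ _), Finset.card_univ, ZMod.card, nsmul_eq_mul]
    simp only [neg_zero, zero_mul, AddChar.map_zero_eq_one, mul_one]
    push_cast
    ring
  rw [hL] at hpars
  have hmain : (∑ v, d v) ^ 2 + (N - 1 : ℕ) * (p : ℤ) ^ w = (N : ℤ) * ∑ v, d v ^ 2 := by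
    exact_mod_cast hpars
  rw [hD, hS, ← he] at hmain
  have hfz : (f : ℤ) ≠ 0 := by
    have : 0 < f := by omega
    exact_mod_cast this.ne'
  have har : (f : ℤ) * (d 1 + d (-1) + d 2 + d (-2)) ^ 2 + 4 * (p : ℤ) ^ w =
      N * (d 1 ^ 2 + d (-1) ^ 2 + d 2 ^ 2 + d (-2) ^ 2) := by
    apply mul_left_cancel₀ hfz
    push_cast at hmain
    linear_combination hmain
  have hNf : (N : ℤ) = 4 * f + 1 := by
    have : N = 4 * f + 1 := by have := hNN.one_lt; omega
    exact_mod_cast this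
  set D := d 1 + d (-1) + d 2 + d (-2) with hDdef
  set S := d 1 ^ 2 + d (-1) ^ 2 + d 2 ^ 2 + d (-2) ^ 2 with hSdef
  have hkey : 16 * (p : ℤ) ^ w = D ^ 2 + N * (4 * S - D ^ 2) := by
    linear_combination 4 * har + D ^ 2 * hNf
  have hid : 4 * S - D ^ 2 = ((d 1 + d (-1)) - (d 2 + d (-2))) ^ 2 + 2 * (d 1 - d (-1)) ^ 2 +
      2 * (d 2 - d (-2)) ^ 2 := by
    rw [hSdef, hDdef]; ring
  have hnn : 0 ≤ 4 * S - D ^ 2 := by
    rw [hid]
    positivity
  have hN0 : (0 : ℤ) < N := by exact_mod_cast hNN.pos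
  rcases hnn.eq_or_lt with h0 | h0
  · exfalso
    rw [← h0, mul_zero, add_zero] at hkey
    have hn : 16 * p ^ w = D.natAbs ^ 2 := by
      have : ((16 * p ^ w : ℕ) : ℤ) = ((D.natAbs ^ 2 : ℕ) : ℤ) := by
        push_cast
        rw [sq_abs]
        exact hkey
      exact_mod_cast this
    have hv := congrArg (padicValNat p) hn
    rw [padicValNat.mul (by norm_num) (pow_ne_zero _ hpp.ne_zero), padicValNat.prime_pow,
      padicValNat.pow] at hv
    have h16 : padicValNat p 16 = 0 := by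
      apply padicValNat.eq_zero_of_not_dvd
      intro h
      have h2 : p ∣ 2 ^ 4 := by simpa using h
      have h3 := (Nat.prime_dvd_prime_iff_eq hpp Nat.prime_two).1 (hpp.dvd_of_dvd_pow h2)
      exact hp2 h3
    rw [h16] at hv
    obtain ⟨k, hk⟩ := hw
    omega
  · have h1 : (1 : ℤ) ≤ 4 * S - D ^ 2 := h0
    have h2 : (N : ℤ) ≤ 16 * (p : ℤ) ^ w := by
      rw [hkey]
      nlinarith [sq_nonneg D]
    exact_mod_cast h2

private theorem Z7_aux {p N f b : ℕ} [Fact p.Prime] [Fact N.Prime] (hp : p ≠ 2) (hN : N ≠ 2)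
    (hpN : p ≠ N) (hf : f = orderOf (p : ZMod N)) (hfo : Odd f) (he : 4 * f = N - 1)
    (hf3 : 3 ≤ f) (hNp : ¬ N ∣ p - 1)
    (hb1 : ∀ s : ZMod N, s ≠ 0 → N * b ≤ L p N f s)
    (h2b : 2 * b < f)
    {Ω : Type} [NormedField Ω]
    [IsUltrametricDist Ω] [CharZero Ω] [IsAlgClosed Ω] (hpn : ‖(p : Ω)‖ = (p : ℝ)⁻¹)
    {F : Type} [Field F] [Fintype F] [DecidableEq F] [Algebra (ZMod p) F]
    (hF : Fintype.card F = p ^ f) {ζ : Ω} (hζ : IsPrimitiveRoot ζ p) :
    N ≤ 16 * p ^ (f - 2 * b) := by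
  have hpp := (Fact.out : p.Prime)
  have hNN := (Fact.out : N.Prime)
  have hp0 : (0 : ℝ) < p := by exact_mod_cast hpp.pos
  have hp1 : (1 : ℝ) < p := by exact_mod_cast hpp.one_lt
  have hN0 : (0 : ℝ) < N := by exact_mod_cast hNN.pos
  have hf1 : (p : ZMod N) ^ f = 1 := by rw [hf]; exact pow_orderOf_eq_one _
  have hpz : (p : ZMod N) ≠ 0 := by
    intro h
    rw [h, zero_pow (by omega)] at hf1
    exact zero_ne_one hf1
  obtain ⟨ω, hω⟩ := exists_prim F
  have hNd : N ∣ Fintype.card F - 1 := by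
    rw [hF]
    have h1 : ((p ^ f - 1 : ℕ) : ZMod N) = 0 := by
      rw [Nat.cast_sub (Nat.one_le_pow _ _ hpp.pos)]
      push_cast
      rw [hf1]; ring
    exact (ZMod.natCast_eq_zero_iff _ _).1 h1
  have hw : Odd (f - 2 * b) := by
    obtain ⟨k, hk⟩ := hfo
    exact ⟨k - b, by omega⟩
  obtain ⟨z, hz, hst⟩ := stickU hp hpn hF hω hNd hζ
  choose χ hχ1 hχ2 using hst
  set γ : ZMod N → Ω := fun t => gaussSum (χ t) (psi hζ.pow_eq_one F) with hγ
  have hγmu : ∀ t, γ t = ∑ v : ZMod N, (mu p N ω v : Ω) * chN hz.pow_eq_one (t * v) :=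
    fun t => gauss_mu hζ hz.pow_eq_one hNp hω hNd t (χ t) (hχ1 t)
  have hγn : ∀ t, t ≠ 0 → ‖γ t‖ = (p : ℝ) ^ (-((L p N f t : ℝ) / N)) := fun t ht => (hχ2 t ht).2
  -- divisibility
  have hdv : ∀ v : ZMod N, (p : ℤ) ^ b ∣ mu p N ω v - mu p N ω 0 := by
    intro v
    apply dvd_of_norm_le hpn
    have i1 := mm_inv hz (fun v => (mu p N ω v : Ω)) v
    have i2 := mm_inv hz (fun v => (mu p N ω v : Ω)) 0
    have e1 : (N : Ω) * ((mu p N ω v - mu p N ω 0 : ℤ) : Ω) = ∑ t : ZMod N,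
        γ t * (chN hz.pow_eq_one (-(t * v)) - 1) := by
      push_cast
      rw [mul_sub, i1, i2, ← Finset.sum_sub_distrib]
      apply Finset.sum_congr rfl
      intro t _
      rw [mul_zero, neg_zero, AddChar.map_zero_eq_one, ← hγmu t]
      ring
    have e2 : ‖(N : Ω) * ((mu p N ω v - mu p N ω 0 : ℤ) : Ω)‖ ≤ (p : ℝ) ^ (-(b : ℝ)) := by
      rw [e1]
      apply norm_sum_le _ _ (by positivity)
      intro t _
      by_cases ht : t = 0
      · subst ht
        rw [zero_mul, neg_zero, AddChar.map_zero_eq_one, sub_self, mul_zero, norm_zero]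
        positivity
      · rw [norm_mul, hγn t ht]
        have e3 : ‖chN hz.pow_eq_one (-(t * v)) - (1 : Ω)‖ ≤ 1 := by
          have := IsUltrametricDist.norm_add_le_max (chN hz.pow_eq_one (-(t * v))) (-(1 : Ω))
          rw [norm_neg, norm_one, norm_chN, max_self, ← sub_eq_add_neg] at this
          exact this
        have e4 : (b : ℝ) ≤ (L p N f t : ℝ) / N := by
          rw [le_div_iff₀ hN0]
          have := hb1 t ht
          have : ((N * b : ℕ) : ℝ) ≤ (L p N f t : ℝ) := by exact_mod_cast this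
          push_cast at this
          linarith
        calc _ ≤ (p : ℝ) ^ (-((L p N f t : ℝ) / N)) * 1 := by
              gcongr
          _ ≤ _ := by
              rw [mul_one]
              exact Real.rpow_le_rpow_of_exponent_le hp1.le (by linarith)
    have hNn : ‖(N : Ω)‖ = 1 := by
      apply norm_nat_eq_one hpn
      intro hdv
      exact hpN ((Nat.prime_dvd_prime_iff_eq hpp hNN).1 hdv)
    rw [norm_mul, hNn, one_mul] at e2
    exact e2
  choose d hd using hdv
  have hpb : (p : ℤ) ^ b ≠ 0 := pow_ne_zero b (by exact_mod_cast hpp.ne_zero)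
  have hd0 : d 0 = 0 := by
    have := hd 0
    rw [sub_self] at this
    rcases mul_eq_zero.1 this.symm with h | h
    · exact absurd h hpb
    · exact h
  have hdp : ∀ v, d (p * v) = d v := by
    intro v
    have e1 := hd (p * v)
    rw [mu_frob hω hNd hpz, hd v] at e1
    exact (mul_left_cancel₀ hpb e1).symm
  have hδ : ∀ t : ZMod N, t ≠ 0 → γ t = (p : Ω) ^ b *
      ∑ v : ZMod N, (d v : Ω) * chN hz.pow_eq_one (t * v) := by
    intro t ht
    have e3 : ∑ v : ZMod N, chN hz.pow_eq_one (t * v) = 0 := by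
      have := AddChar.sum_mulShift (R := ZMod N) t
        (AddChar.zmodChar_primitive_of_primitive_root N hz)
      rw [if_neg ht] at this
      rw [← Nat.cast_zero (R := Ω), ← this]
      apply Finset.sum_congr rfl
      intro v _
      rw [mul_comm]
    rw [hγmu t, Finset.mul_sum]
    have e4 : ∀ v : ZMod N, (p : Ω) ^ b * ((d v : Ω) * chN hz.pow_eq_one (t * v)) =
        (mu p N ω v : Ω) * chN hz.pow_eq_one (t * v) -
          (mu p N ω 0 : Ω) * chN hz.pow_eq_one (t * v) := by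
      intro v
      have := congrArg (Int.cast : ℤ → Ω) (hd v)
      push_cast at this
      linear_combination (-chN hz.pow_eq_one (t * v)) * this
    rw [Finset.sum_congr rfl fun v _ => e4 v, Finset.sum_sub_distrib, ← Finset.mul_sum, e3]
    ring
  -- products
  have hprod : ∀ t : ZMod N, t ≠ 0 → (∑ u : ZMod N, (d u : Ω) * chN hz.pow_eq_one (t * u)) *
      (∑ u : ZMod N, (d u : Ω) * chN hz.pow_eq_one (-t * u)) = (p : Ω) ^ (f - 2 * b) := by
    intro t ht
    have hinv : χ (-t) = (χ t)⁻¹ := by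
      ext u
      have hu : (u : F) ≠ 0 := u.ne_zero
      rw [hχ1 (-t) _ hu, MulChar.inv_apply', hχ1 t _ (inv_ne_zero hu), ix_inv hω hNd hu]
      congr 1
      ring
    have h1 : γ t * γ (-t) = (Fintype.card F : Ω) := by
      have h2 := gaussSum_mul_gaussSum_eq_card (hχ2 t ht).1 (psi_primitive (F := F) hζ)
      rw [← h2, hγ]
      simp only
      rw [hinv]
      congr 1
      rw [← mul_gaussSum_inv_eq_gaussSum (χ t)⁻¹ (psi hζ.pow_eq_one F)]
      have h3 : (χ t)⁻¹ (-1) = 1 := by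
        rw [← hinv, hχ1 (-t) _ (neg_ne_zero.2 one_ne_zero), ix_neg_one hN hω hNd, mul_zero,
          AddChar.map_zero_eq_one]
      rw [h3, one_mul]
    rw [hδ t ht, hδ (-t) (neg_ne_zero.2 ht), hF] at h1
    have hpb' : (p : Ω) ^ (2 * b) ≠ 0 :=
      pow_ne_zero _ (by exact_mod_cast hpp.ne_zero)
    apply mul_left_cancel₀ hpb'
    have h4 : (p : Ω) ^ (2 * b) * (p : Ω) ^ (f - 2 * b) = ((p ^ f : ℕ) : Ω) := by
      rw [← pow_add]
      push_cast
      congr 1
      omega
    rw [h4, ← h1]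
    ring
  exact Z7_comb hN hf hfo he hf3 hp hw hz d hd0 hdp hprod

theorem ell_bound {p N f b : ℕ} [Fact p.Prime] [Fact N.Prime] (hp : p ≠ 2) (hN : N ≠ 2)
    (hpN : p ≠ N) (hf : f = orderOf (p : ZMod N)) (hfo : Odd f) (he : 4 * f = N - 1)
    (hf3 : 3 ≤ f) (hb1 : ∀ s : ZMod N, s ≠ 0 → N * b ≤ L p N f s) (h2b : 2 * b < f) :
    N ≤ 16 * p ^ (f - 2 * b) := by
  classical
  have hpp := (Fact.out : p.Prime)
  have hNN := (Fact.out : N.Prime)
  have hfne : f ≠ 1 := by omega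
  have hNp : ¬ N ∣ p - 1 := by
    intro hdv
    apply hfne
    rw [hf, orderOf_eq_one_iff]
    have h1 : ((p - 1 : ℕ) : ZMod N) = 0 := (ZMod.natCast_eq_zero_iff _ _).2 hdv
    rw [Nat.cast_sub hpp.one_le] at h1
    push_cast at h1
    exact sub_eq_zero.1 h1
  have hpn : ‖(p : PadicAlgCl p)‖ = (p : ℝ)⁻¹ := by
    have := PadicAlgCl.norm_extends p (p : ℚ_[p])
    rw [Padic.norm_p] at this
    rw [← this]
    congr 1
  have hpne : NeZero ((p : ℕ) : PadicAlgCl p) := ⟨by exact_mod_cast hpp.ne_zero⟩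
  obtain ⟨ζ, hζ⟩ := HasEnoughRootsOfUnity.exists_primitiveRoot (PadicAlgCl p) p
  let _ : Fintype (GaloisField p f) := Fintype.ofFinite _
  have hF : Fintype.card (GaloisField p f) = p ^ f := by
    rw [← Nat.card_eq_fintype_card]
    exact GaloisField.card p f (by omega)
  exact Z7_aux hp hN hpN hf hfo he hf3 hNp hb1 h2b hpn hF hζ

end Pool.Agent.LibNF95
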