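import Pool.Agent.LibCycU.P7

/-!
ROW Z8 (SHORT/MEDIUM). `L` depends only on the subgroup generated by `p`; the six small cases of index 2 and the three of index 4.

PLAN. `L_congr`: both sides are sums of `.val` over the coset of `s` of the group of the `f`-th roots of unity in `ZMod N` (injective enumeration of the powers; `IsPrimitiveRoot`,
`p = l^k`, or both images of `range f` equal the set of roots of `X^f = 1`, `card_nthRoots`).
`isB_*`: `IsB p N f b` is a finite statement over `ZMod N`: `decide +kernel` (or unfold and `decide`; for large `N` reduce to `Nat`: the values `L p N f s` for all `s` by the class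
representatives `1, -1` (index 2): `L_frob`, `cls2`, `W_one_two`... any way). `orderOf`: `orderOf_eq_prime` for prime `f` (3, 5, 7, 13, 11, 53 → see below) or `orderOf_eq_of_pow_and_pow_div_prime`.
Cases: (p, N, f, b): index 4: (3,13,3,1), (7,29,7,3), (13,53,13,6). Here `N = 4 p^(f - 2 b) + 1`.
-/

set_option autoImplicit false

open Finset

namespace Pool.Agent.LibNF95

open Pool.Agent.CycU

theorem L_congr {p l N f : ℕ} [Fact N.Prime] (hf : f = orderOf (p : ZMod N)) (hl : f = orderOf (l : ZMod N))
    (hf0 : f ≠ 0) (s : ZMod N) : L l N f s = L p N f s := by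
  have h1 : IsPrimitiveRoot (p : ZMod N) f := hf ▸ IsPrimitiveRoot.orderOf (p : ZMod N)
  have h2 : IsPrimitiveRoot (l : ZMod N) f := hl ▸ IsPrimitiveRoot.orderOf (l : ZMod N)
  have e1 := h1.nthRoots_eq (α := s) (a := s ^ f) rfl
  have e2 := h2.nthRoots_eq (α := s) (a := s ^ f) rfl
  have e3 := congrArg (fun m : Multiset (ZMod N) => (m.map ZMod.val).sum) (e2.symm.trans e1)
  simp only [Multiset.map_map, Function.comp_def] at e3
  exact e3

theorem isB_13 : orderOf (3 : ZMod 13) = 3 ∧ IsB 3 13 3 1 := by
  refine ⟨orderOf_eq_prime (by decide +kernel) (by decide +kernel), ?_⟩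
  unfold IsB L
  decide +kernel

theorem isB_29 : orderOf (7 : ZMod 29) = 7 ∧ IsB 7 29 7 3 := by
  have : Fact (Nat.Prime 7) := ⟨by norm_num⟩
  refine ⟨orderOf_eq_prime (by decide +kernel) (by decide +kernel), ?_⟩
  unfold IsB L
  decide +kernel

theorem isB_53 : orderOf (13 : ZMod 53) = 13 ∧ IsB 13 53 13 6 := by
  have : Fact (Nat.Prime 13) := ⟨by norm_num⟩
  refine ⟨orderOf_eq_prime (by decide +kernel) (by decide +kernel), ?_⟩
  unfold IsB L
  decide +kernel

/-- not minimal: `(p, N, f, b) = (43, 173, 43, 21)` and `(7, 1373, 343, 170)` -/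
theorem not_min_173 : ¬ ∀ s : ZMod 173, s ≠ 0 → 173 * 21 ≤ L 43 173 43 s := by
  intro h
  have h1 := h 4 (by decide +kernel)
  revert h1
  unfold L
  decide +kernel

/-- `L 7 1373 343 1 = 1373 * 167` -/
theorem not_min_1373 : ¬ ∀ s : ZMod 1373, s ≠ 0 → 1373 * 170 ≤ L 7 1373 343 s := by
  intro h
  have h1 := h 1 (by decide +kernel)
  revert h1
  unfold L
  decide +kernel

end Pool.Agent.LibNF95
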