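import Pool.Agent.LibNF95.E2
import Pool.Agent.LibNF95.Z3
import Pool.Agent.LibNF95.Z4
import Pool.Agent.LibNF95.Z5
import Pool.Agent.LibNF95.Z6
import Pool.Agent.LibNF95.Z7
import Pool.Agent.LibNF95.Z8

set_option autoImplicit false

open Finset

namespace Pool.Agent.LibNF95

open Pool.Agent.CycU

theorem e4_list {p N f b : ℕ} [Fact p.Prime] [Fact N.Prime] (hp : p ≠ 2) (hN : N ≠ 2) (hpN : p ≠ N)
    (hf : f = orderOf (p : ZMod N)) (hfo : Odd f) (he : 4 * f = N - 1)
    (hA : ∃ A : ℤ, (N : ℤ) = A ^ 2 + 4) (hb : IsB p N f b) (hii : N = 4 * p ^ (f - 2 * b) + 1)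
    (hC : Crit p N f 1 ∨ Crit p N f (-1)) :
    (p = 3 ∧ N = 13) ∨ (p = 7 ∧ N = 29) ∨ (p = 13 ∧ N = 53) := by
  classical
  have hpp := (Fact.out : p.Prime)
  have hNN := (Fact.out : N.Prime)
  have hN1 := hNN.two_le
  have hf0 : f ≠ 0 := by rintro rfl; exact absurd hfo (by decide)
  have hf1 : (p : ZMod N) ^ f = 1 := by rw [hf]; exact pow_orderOf_eq_one _
  have hfne : f ≠ 1 := by
    intro h
    obtain ⟨s, hs, hL⟩ := hb.2
    have h1 : L p N f s = s.val := by
      rw [h]; unfold L; simp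
    rw [h1] at hL
    have h2 := ZMod.val_lt s
    have h3 : s.val = 0 := by
      rcases Nat.eq_zero_or_pos b with h0 | h0
      · rw [hL, h0, mul_zero]
      · have : N * 1 ≤ N * b := Nat.mul_le_mul_left N h0
        omega
    exact hs ((ZMod.val_eq_zero s).1 h3)
  have hf3 : 3 ≤ f := by
    obtain ⟨k, hk⟩ := hfo
    omega
  have hN8 : N % 8 = 5 := by
    obtain ⟨k, hk⟩ := hfo
    omega
  obtain ⟨w, hw⟩ : ∃ w, f - 2 * b = w := ⟨_, rfl⟩
  have hii' := hii
  rw [hw] at hii'
  have hw0 : w ≠ 0 := by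
    intro h
    rw [h, pow_zero] at hii'
    omega
  have h2b : 2 * b < f := by omega
  have hwo : Odd w := by
    obtain ⟨k, hk⟩ := hfo
    exact ⟨k - b, by omega⟩
  have hwN : wN p N = w := by
    unfold wN
    rw [if_neg (by omega), hii', Nat.add_sub_cancel, val_four_pow hp]
  have hp3 : 3 ≤ p := by
    have := hpp.two_le
    omega
  have h3w : 4 * 3 ^ w < N := by
    have : 3 ^ w ≤ p ^ w := Nat.pow_le_pow_left hp3 w
    omega
  -- the analytic bound
  have hnum : N < 10 ^ 9 ∧ (w = 1 → N < 1400000) := by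
    have hT : ∃ ε : ℤ, (ε = 1 ∨ ε = -1) ∧ (∀ s : ZMod N, |T p N f s| ≤ (wN p N : ℝ)) ∧
        ∀ s : ZMod N, (quadraticChar (ZMod N) s : ℝ) * T p N f s = (ε : ℝ) * T p N f s := by
      rcases hC with h | h
      · exact ⟨1, Or.inl rfl, crit_one (by omega) 1 (Or.inl rfl) h⟩
      · exact ⟨-1, Or.inr rfl, crit_one (by omega) (-1) (Or.inr rfl) h⟩
    obtain ⟨ε, hε, hT1, hT2⟩ := hT
    rw [hwN] at hT1
    obtain ⟨χ, h4, h2, hup⟩ := quartic_upper he hfo hf1 (Nat.cast_nonneg w) ε hε hT1 hT2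
    have hlo := quartic_lower h4 h2
    exact numeric4 (by omega) hup hlo h3w
  obtain ⟨A, hA⟩ := hA
  have hAn : N = A.natAbs ^ 2 + 4 := by
    have : (N : ℤ) = ((A.natAbs ^ 2 + 4 : ℕ) : ℤ) := by
      push_cast
      rw [sq_abs]; exact hA
    exact_mod_cast this
  rcases Nat.lt_or_ge w 3 with hw3 | hw3
  · -- w = 1
    have hw1 : w = 1 := by
      obtain ⟨k, hk⟩ := hwo
      omega
    rw [hw1, pow_one] at hii'
    have hfp : f = p := by omega
    rcases small_residue hNN hpp hii' hAn (hnum.2 hw1) with h | h | h | h | ⟨l, hl, hl2, hlN, hlr⟩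
    · left; omega
    · right; left; omega
    · right; right; omega
    · exfalso
      have hp43 : p = 43 := by omega
      have hf43 : f = 43 := by omega
      have hb21 : b = 21 := by omega
      subst h hp43 hf43 hb21
      exact not_min_173 (by exact_mod_cast hb.1)
    · exfalso
      have : Fact l.Prime := ⟨hl⟩
      have hlp : (l : ZMod N) ^ p = 1 := by
        have h1 : ((l ^ p : ℕ) : ZMod N) = ((1 : ℕ) : ZMod N) := by
          rw [ZMod.natCast_eq_natCast_iff']
          rw [hlr, Nat.mod_eq_of_lt (by omega)]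
        push_cast at h1
        exact h1
      have hl1 : (l : ZMod N) ≠ 1 := by
        intro h1
        have h2 : ((l : ℕ) : ZMod N) = ((1 : ℕ) : ZMod N) := by push_cast; exact h1
        rw [ZMod.natCast_eq_natCast_iff', Nat.mod_eq_of_lt (by omega), Nat.mod_eq_of_lt (by omega)] at h2
        exact hl.one_lt.ne' h2
      have hlo : f = orderOf (l : ZMod N) := by
        rw [hfp]
        exact (orderOf_eq_prime hlp hl1).symm
      have hlN' : l ≠ N := by omega
      have hb1 : ∀ s : ZMod N, s ≠ 0 → N * b ≤ L l N f s := by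
        intro s hs
        rw [L_congr hf hlo hf0]
        exact hb.1 s hs
      have h16 := ell_bound hl2 hN hlN' hlo hfo he hf3 hb1 h2b
      rw [hw, hw1, pow_one] at h16
      omega
  · -- w ≥ 3
    exfalso
    have hsq := square_check (A := A.natAbs) hp3 (hpp.odd_of_ne_two hp) hw3 hwo (by omega) (by omega)
    obtain ⟨hp7, hw3'⟩ := hsq
    have hN13 : N = 1373 := by rw [hii', hp7, hw3']; norm_num
    have hf343 : f = 343 := by omega
    have hb170 : b = 170 := by omega
    subst hp7 hN13 hf343 hb170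
    exact not_min_1373 (by exact_mod_cast hb.1)

end Pool.Agent.LibNF95
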